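import Pool.Agent.TCE.Defs

/-!
# AxBs (2): the nonwandering set of an Axiom A diffeomorphism is expansive and has periodic
shadowing

Proof. Let `Ω = nonwandering g` (closed: `isClosed_nonwandering`), invariant under `g` and `g⁻¹`
(`nonwandering_apply` for `g`; for the inverse: `x ∈ Ω`, `U` a neighbourhood of `g⁻¹ x`, apply the
definition to `g '' U`), so `Inv g Ω` / `ZInv` holds. Let `(s, K, ρ₀)` be a `Cov`
(`exists_cov (M := B) E' (U := fun _ => univ) (fun b => univ_mem)`, see `HypRec.ph` in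
`OmSt2/PHyp.lean`), `IsHyperbolicSet.dhyp hc hr hg.1 ...` gives `DHyp s K g Ω κ` and
`sh_of_dhyp` gives `hSh : Sh g.toHomeomorph Ω` (expansivity near `Ω` and shadowing of the
pseudo-orbits in `Ω`; `zi g.toEquiv n x` is the `n`-th point of the full orbit of `x`, `n : ℤ`).
`MExp`: let `ε` be from `hSh.exp`, `c = ε`; for full orbits `x, y` in `Ω`: `x n = zi n (x 0)`, and
`z = x n ∈ Ω` shows the first hypothesis of `exp`; so `x 0 = y 0`, and `x = y` (`Orb.eq_of`).
`PSh`: let `α > 0`, `δ` from `hSh.shadow` for `min α (ε / 2)`. Let `x` be an `n`-periodic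
`δ`-pseudo-orbit in `Ω`; there is `a` with `dist (zi k a) (x k) ≤ min α (ε / 2)` for all `k : ℤ`. The
point `a' = zi n a` satisfies `dist (zi k a') (x k) = dist (zi (k + n) a) (x (k + n)) ≤ ε / 2`. So
`dist (zi k a) (zi k a') ≤ ε` and `zi k a` is `ε`-close to `x k ∈ Ω`, for all `k`: `exp` gives
`a = a'`. So `y k = zi k a` is an `n`-periodic full orbit with `dist (y k) (x k) ≤ α`.
-/

open Set Filter Topology Manifold ContDiff Metric

namespace TCE

open OmSt

variable {E : Type*} [NormedAddCommGroup E] [NormedSpace ℝ E] [FiniteDimensional ℝ E]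
  {M : Type*} [MetricSpace M] [CompactSpace M] [ChartedSpace E M] [IsManifold 𝓘(ℝ, E) ∞ M]
  {r : ℕ∞}

theorem AxBs_symm {X : Type*} [TopologicalSpace X] (f : X ≃ₜ X) {x : X} (hx : x ∈ nonwandering f) :
    f.symm x ∈ nonwandering f := by
  intro U hU
  have h1 : f '' U ∈ 𝓝 x := by
    have h2 := f.isOpenMap.image_mem_nhds hU
    rwa [f.apply_symm_apply] at h2
  obtain ⟨n, hn, w, ⟨z, hz, hzw⟩, hw⟩ := hx _ h1
  obtain ⟨u, hu, rfl⟩ := hz
  obtain ⟨v, hv, rfl⟩ := hw
  refine ⟨n, hn, v, ⟨u, hu, ?_⟩, hv⟩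
  apply f.injective
  rw [← hzw, ← Function.iterate_succ_apply, ← Function.iterate_succ_apply' f n u]

theorem AxBs_zinv {X : Type*} [TopologicalSpace X] (f : X ≃ₜ X) {x : X} (hx : x ∈ nonwandering f) (k : ℤ) :
    zi f.toEquiv k x ∈ nonwandering f := by
  obtain ⟨n, rfl | rfl⟩ := k.eq_nat_or_neg
  · rw [zi_nat]
    exact nonwandering_iterate f.isOpenMap f.continuous hx n
  · rw [zi_neg]
    induction n with
    | zero => exact hx
    | succ n ih =>
      rw [Function.iterate_succ_apply']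
      exact AxBs_symm f ih

theorem AxBs_orb (g : Dyn E M r) (a : M) : Orb g fun n : ℤ => zi g.toEquiv n a := fun i =>
  (zi_succ_apply g i a).symm

theorem AxBs_eq (g : Dyn E M r) {x : ℤ → M} (h : Orb g x) : x = fun n : ℤ => zi g.toEquiv n (x 0) :=
  Orb.eq_of g.toEquiv.injective h (AxBs_orb g (x 0)) (j := 0) (zi_zero _ _).symm

theorem base_of_axiomA (hr : 1 ≤ r) (g : Dyn E M r) (hg : AxiomA g) :
    MExp g (nonwandering g) ∧ PSh g (nonwandering g) := by
  have hcl : IsClosed (nonwandering g) := isClosed_nonwandering g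
  have hinv : Inv g (nonwandering g) := fun x hx k => AxBs_zinv g.toHomeomorph hx k
  obtain ⟨s, K, ρ₀, hc, -⟩ := exists_cov (M := M) E (U := fun _ => univ) (fun b => univ_mem)
  obtain ⟨κ, hκ⟩ := IsHyperbolicSet.dhyp hc hr hg.1 hcl hinv
  have hSh : Sh g.toHomeomorph (nonwandering g) := sh_of_dhyp hc hr hinv hκ
  obtain ⟨ε, hε, hexp⟩ := hSh.exp
  constructor
  · refine ⟨ε, hε, fun x y hx hy hxS hyS hxy => ?_⟩
    have ex := AxBs_eq g hx
    have ey := AxBs_eq g hy
    have h1 : x 0 = y 0 := by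
      refine hexp (x 0) (y 0) (fun n => ⟨x n, hxS n, ?_⟩) (fun n => ?_)
      · have h2 : x n = zi g.toEquiv n (x 0) := congrFun ex n
        have h3 : dist (zi g.toEquiv n (x 0)) (x n) = 0 := by rw [← h2, dist_self]
        exact h3.le.trans hε.le
      · have h2 : x n = zi g.toEquiv n (x 0) := congrFun ex n
        have h3 : y n = zi g.toEquiv n (y 0) := congrFun ey n
        have h4 := hxy n
        rw [h2, h3] at h4
        exact h4
    exact Orb.eq_of g.toEquiv.injective hx hy h1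
  · intro α hα
    obtain ⟨δ, hδ, hsh⟩ := hSh.shadow (min α (ε / 2)) (lt_min hα (by linarith))
    refine ⟨δ, hδ, fun n x hx hxS hps => ?_⟩
    obtain ⟨a, ha⟩ := hsh x hxS hps
    have ha1 : ∀ k, dist (zi g.toEquiv k a) (x k) ≤ α := fun k => (ha k).trans (min_le_left _ _)
    have ha2 : ∀ k, dist (zi g.toEquiv k a) (x k) ≤ ε / 2 := fun k => (ha k).trans (min_le_right _ _)
    have h5 : ∀ k : ℤ, zi g.toEquiv k (zi g.toEquiv n a) = zi g.toEquiv (k + n) a := fun k => (zi_add _ _ _ _).symm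
    have h6 : a = zi g.toEquiv n a := by
      refine hexp a (zi g.toEquiv n a) (fun k => ⟨x k, hxS k, (ha2 k).trans (by linarith)⟩) (fun k => ?_)
      have h7 := ha2 (k + n)
      rw [hx.2 k] at h7
      have h8 := ha2 k
      show dist (zi g.toEquiv k a) (zi g.toEquiv k (zi g.toEquiv n a)) ≤ ε
      rw [h5 k]
      calc dist (zi g.toEquiv k a) (zi g.toEquiv (k + n) a)
          ≤ dist (zi g.toEquiv k a) (x k) + dist (x k) (zi g.toEquiv (k + n) a) := dist_triangle _ _ _
        _ ≤ ε / 2 + ε / 2 := by rw [dist_comm (x k)]; exact add_le_add h8 h7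
        _ = ε := by ring
    refine ⟨fun k => zi g.toEquiv k a, AxBs_orb g a, ⟨hx.1, fun k => ?_⟩, ha1⟩
    show zi g.toEquiv (k + n) a = zi g.toEquiv k a
    rw [← h5 k, ← h6]

end TCE
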