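import Pool.Agent.TCE.Defs

/-!
# BSh (1): expansivity and shadowing give periodic shadowing

Proof. Let `c` be the expansivity constant of `g` on `S`, `α > 0`, `β` from `MSh` for
`min α (c / 2)`. Let `x` be an `n`-periodic `β`-pseudo-orbit in `S`, `y` the full orbit in `S` with
`dist (y i) (x i) ≤ min α (c / 2)`. The shifted orbit `y' i = y (i + n)` is a full orbit in `S` with
`dist (y' i) (x i) = dist (y (i + n)) (x (i + n)) ≤ c / 2`, so `dist (y i) (y' i) ≤ c` for all `i` and
`y' = y`. So `y` is `n`-periodic.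
-/

open Set Filter Topology Real

namespace TCE

variable {X : Type*} [MetricSpace X]

theorem psh_of_exp {g : X → X} {S : Set X} (hE : MExp g S) (hM : MSh g S) : PSh g S := by
  obtain ⟨c, hc, hE⟩ := hE
  intro α hα
  obtain ⟨β, hβ, h⟩ := hM (min α (c / 2)) (lt_min hα (half_pos hc))
  refine ⟨β, hβ, fun n x hn hxS hx => ?_⟩
  obtain ⟨y, hy, hyS, hyx⟩ := h x hxS hx
  refine ⟨y, hy, ⟨hn.1, fun i => ?_⟩, fun i => (hyx i).trans (min_le_left _ _)⟩
  have h1 := hE (fun i => y (i + n)) y (hy.shift n) hy (fun i => hyS _) hyS fun i => by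
    have h2 := (hyx (i + n)).trans (min_le_right _ _)
    rw [hn.2] at h2
    have h3 := (hyx i).trans (min_le_right _ _)
    have h4 := dist_triangle_right (y (i + n)) (y i) (x i)
    change dist (y (i + n)) (y i) ≤ c
    linarith
  exact congrFun h1 i

end TCE
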