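import Pool.Agent.TCE.Defs

/-!
# BUn (3): periodic shadowing on the whole space if the chain recurrent points are in `S`

Proof. Step 1: for every `κ > 0` there is `β > 0` such that for every `n`-periodic
`β`-pseudo-orbit `x` of `g` there is a point of `S` within `κ` of `x 0` (so, shifting the sequence,
within `κ` of every `x i`). Otherwise there are `κ > 0` and periodic `1/(k+1)`-pseudo-orbits `x^k`
with `x^k 0` at distance `> κ` from all points of `S`; along a subsequence `x^k 0 → a`. Then `a` is
chain recurrent (`MCR g a`): given `δ > 0`, replace in `x^k` the value at the multiples of the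
period by `a` (`z i = a` if `n ∣ i`, `z i = x^k i` otherwise; if `n = 1` then `z` is constant `a`); the
errors become `≤ 1/(k+1) + dist (x^k 0) a + dist (g a) (g (x^k 0))`, which is `≤ δ` for large `k`
(continuity of `g` at `a`; for `n = 1`: `dist (g a) a`, the same bound). So `a ∈ S`, and
`dist (x^k 0) a → 0`: contradiction.
Step 2: given `α > 0` let `β_S` be from `h : PSh g S` for `α / 2`, `κ ≤ min (α / 2) (β_S / 3)` such
that `dist u v ≤ κ` implies `dist (g u) (g v) ≤ β_S / 3` (`exists_unif`), `β ≤ β_S / 3` from Step 1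
for `κ`. Let `x` be an `n`-periodic `β`-pseudo-orbit. For every `i` there is a point `x' i ∈ S` with
`dist (x i) (x' i) ≤ κ`; choose it as a function of `x i`, so that `x'` is `n`-periodic. `x'` is a
`β_S`-pseudo-orbit in `S`; shadow it by an `n`-periodic full orbit `y` within `α / 2`.
-/

open Set Filter Topology Real

namespace TCE

variable {X : Type*} [MetricSpace X] [CompactSpace X]

/-- Step 1 -/
theorem BUn_step {g : X → X} (hg : Continuous g) {S : Set X} (hcr : ∀ x, MCR g x → x ∈ S) :
    ∀ κ > 0, ∃ β > 0, ∀ (n : ℕ) (x : ℤ → X), PSeq n x → Pso g β x → ∃ s ∈ S, dist (x 0) s ≤ κ := by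
  intro κ hκ
  by_contra hcon
  push Not at hcon
  have hpos : ∀ k : ℕ, (0 : ℝ) < 1 / ((k : ℝ) + 1) := fun k => by positivity
  choose n x hx1 hx2 hx3 using fun k : ℕ => hcon (1 / ((k : ℝ) + 1)) (hpos k)
  obtain ⟨a, φ, hφ, hlim⟩ := CompactSpace.tendsto_subseq fun k => x k 0
  have haS : a ∈ S := by
    apply hcr
    intro δ hδ
    obtain ⟨η, hη, hηg⟩ := Metric.continuousAt_iff.1 hg.continuousAt (δ / 3) (by positivity)
    have h1 : ∀ᶠ k in atTop, dist (x (φ k) 0) a < min η (δ / 3) :=
      (Metric.tendsto_nhds.1 hlim) _ (lt_min hη (by positivity))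
    have h2 : ∀ᶠ k in atTop, 1 / ((φ k : ℝ) + 1) < δ / 3 :=
      hφ.tendsto_atTop.eventually ((tendsto_one_div_add_atTop_nhds_zero_nat
        (𝕜 := ℝ)).eventually (gt_mem_nhds (by positivity)))
    obtain ⟨k, hk1, hk2⟩ := (h1.and h2).exists
    classical
    set X' := x (φ k) with hX'
    set m := n (φ k) with hm
    have hper : PSeq m X' := hx1 (φ k)
    have hpso : Pso g (1 / ((φ k : ℝ) + 1)) X' := hx2 (φ k)
    set z : ℤ → X := fun i => if (m : ℤ) ∣ i then a else X' i with hz
    have hd : ∀ i, (m : ℤ) ∣ i → X' i = X' 0 := by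
      rintro i ⟨c, rfl⟩
      have := hper.mul 0 c
      rw [zero_add, mul_comm] at this
      exact this
    have hz1 : ∀ i, dist (z i) (X' i) ≤ δ / 3 ∧ dist (g (z i)) (g (X' i)) ≤ δ / 3 := by
      intro i
      by_cases hi : (m : ℤ) ∣ i
      · have e : z i = a := if_pos hi
        rw [e, hd i hi, dist_comm a, dist_comm (g a)]
        exact ⟨(lt_of_lt_of_le hk1 (min_le_right _ _)).le,
          (hηg (lt_of_lt_of_le hk1 (min_le_left _ _))).le⟩
      · have e : z i = X' i := if_neg hi
        rw [e, dist_self, dist_self]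
        exact ⟨by positivity, by positivity⟩
    refine ⟨m, z, ⟨hper.1, fun i => ?_⟩, fun i => ?_, ?_⟩
    · have e : (m : ℤ) ∣ i + m ↔ (m : ℤ) ∣ i := by
        rw [Int.dvd_add_left (dvd_refl _)]
      simp only [hz, e, hper.2]
    · calc dist (g (z i)) (z (i + 1)) ≤ dist (g (z i)) (g (X' i)) + dist (g (X' i)) (z (i + 1)) :=
          dist_triangle _ _ _
        _ ≤ dist (g (z i)) (g (X' i)) + (dist (g (X' i)) (X' (i + 1)) +
            dist (X' (i + 1)) (z (i + 1))) := by
          gcongr
          exact dist_triangle _ _ _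
        _ ≤ δ / 3 + (δ / 3 + δ / 3) := by
          gcongr
          · exact (hz1 i).2
          · exact (hpso i).trans hk2.le
          · rw [dist_comm]
            exact (hz1 (i + 1)).1
        _ = δ := by ring
    · exact if_pos (dvd_zero _)
  have h3 : ∀ᶠ k in atTop, dist (x (φ k) 0) a < κ := (Metric.tendsto_nhds.1 hlim) _ hκ
  obtain ⟨k, hk⟩ := h3.exists
  have h4 := hx3 (φ k) a haS
  linarith

theorem psh_univ {g : X → X} (hg : Continuous g) {S : Set X} (h : PSh g S)
    (hcr : ∀ x, MCR g x → x ∈ S) : PSh g univ := by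
  intro α hα
  obtain ⟨βS, hβS, hsh⟩ := h (α / 2) (by positivity)
  obtain ⟨η, hη, hηg⟩ := exists_unif hg (βS / 3) (by positivity)
  set κ := min (min (α / 2) (βS / 3)) η with hκ
  have hκ0 : 0 < κ := lt_min (lt_min (by positivity) (by positivity)) hη
  have hκ1 : κ ≤ α / 2 := (min_le_left _ _).trans (min_le_left _ _)
  have hκ2 : κ ≤ βS / 3 := (min_le_left _ _).trans (min_le_right _ _)
  have hκ3 : κ ≤ η := min_le_right _ _
  obtain ⟨β₁, hβ₁, h1⟩ := BUn_step hg hcr κ hκ0
  refine ⟨min β₁ (βS / 3), lt_min hβ₁ (by positivity), fun n x hx _ hpso => ?_⟩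
  have h2 : ∀ i, ∃ s ∈ S, dist (x i) s ≤ κ := by
    intro i
    obtain ⟨s, hs, hs'⟩ := h1 n (fun j => x (j + i)) (hx.shift i)
      (fun j => (hpso.shift i j).trans (min_le_left _ _))
    refine ⟨s, hs, ?_⟩
    simpa using hs'
  classical
  set r : X → X := fun u => if hu : ∃ s ∈ S, dist u s ≤ κ then hu.choose else u with hr
  have hr1 : ∀ i, r (x i) ∈ S ∧ dist (x i) (r (x i)) ≤ κ := by
    intro i
    have e : r (x i) = (h2 i).choose := dif_pos (h2 i)
    rw [e]
    exact (h2 i).choose_spec
  obtain ⟨y, hy1, hy2, hy3⟩ := hsh n (fun i => r (x i)) (hx.map r) (fun i => (hr1 i).1) (by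
    intro i
    calc dist (g (r (x i))) (r (x (i + 1)))
        ≤ dist (g (r (x i))) (g (x i)) + dist (g (x i)) (r (x (i + 1))) := dist_triangle _ _ _
      _ ≤ dist (g (r (x i))) (g (x i)) + (dist (g (x i)) (x (i + 1)) +
          dist (x (i + 1)) (r (x (i + 1)))) := by
        gcongr
        exact dist_triangle _ _ _
      _ ≤ βS / 3 + (βS / 3 + βS / 3) := by
        gcongr
        · apply hηg
          rw [dist_comm]
          exact (hr1 i).2.trans hκ3
        · exact (hpso i).trans (min_le_right _ _)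
        · exact (hr1 (i + 1)).2.trans hκ2
      _ = βS := by ring)
  refine ⟨y, hy1, hy2, fun i => ?_⟩
  calc dist (y i) (x i) ≤ dist (y i) (r (x i)) + dist (r (x i)) (x i) := dist_triangle _ _ _
    _ ≤ α / 2 + α / 2 := by
      gcongr
      · exact hy3 i
      · rw [dist_comm]
        exact (hr1 i).2.trans hκ1
    _ = α := by ring

end TCE
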