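import Pool.Agent.TCE.Defs

/-!
# CLo (2): closing a periodic sequence whose jumps are small rotations

Proof. Let `η > 0` and let `δ = v₀` be given by `Stab0` for `η`. Let `n, x, r` be as in the
statement. For `v ∈ ℝ` define `T : ℕ → ℝ` by `T 0 = 0`, `T (i + 1) = F (x i) (T i) + r i + v`
(a function of `v`, continuous in `v` by induction, `e.F_cont`). Then
`(e.push v)^[i] (x 0) = ρ_{T i} (x i)`: induction: `push v (ρ_{T i} (x i)) = ρ_v (f (ρ_{T i} (x i)))
= ρ_v (ρ_{F (x i) (T i)} (f (x i))) = ρ_{v + F (x i) (T i) + r i} (x (i + 1))`. For `v = δ` all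
`r i + v ≥ 0`, so `T i ≥ 0` for all `i` (`F x` is increasing and `F x 0 = 0`); for `v = -δ` all
`T i ≤ 0`. By the intermediate value theorem there is `v ∈ [-δ, δ]` with `T n = 0`. So
`(e.push v)^[n] (x 0) = ρ_0 (x n) = x n = x 0` (`PSeq`), and `x 0` is periodic for `push v`,
`|v| ≤ v₀`. `Stab0` gives the claim.
-/

open Set Filter Topology Real

namespace TCE

open PCE

variable {M B : Type*} [TopologicalSpace M] [TopologicalSpace B] (e : Ext M B)

/-- the rotations along the closed up orbit -/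
noncomputable def CLo_T (x : ℤ → M) (r : ℤ → ℝ) (v : ℝ) : ℕ → ℝ
  | 0 => 0
  | (i + 1) => e.F (x i) (CLo_T x r v i) + r i + v

theorem CLo_cont (x : ℤ → M) (r : ℤ → ℝ) (i : ℕ) : Continuous fun v => CLo_T e x r v i := by
  induction i with
  | zero => exact continuous_const
  | succ i ih => exact (((e.F_cont (x i)).comp ih).add continuous_const).add continuous_id

theorem CLo_nonneg {x : ℤ → M} {r : ℤ → ℝ} {v : ℝ} (h : ∀ i, 0 ≤ r i + v) (i : ℕ) :
    0 ≤ CLo_T e x r v i := by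
  induction i with
  | zero => exact le_rfl
  | succ i ih =>
    have h1 := (e.F_mono (x i)).monotone ih
    rw [e.F_zero] at h1
    have h2 := h i
    change 0 ≤ e.F (x i) (CLo_T e x r v i) + r i + v
    linarith

theorem CLo_nonpos {x : ℤ → M} {r : ℤ → ℝ} {v : ℝ} (h : ∀ i, r i + v ≤ 0) (i : ℕ) :
    CLo_T e x r v i ≤ 0 := by
  induction i with
  | zero => exact le_rfl
  | succ i ih =>
    have h1 := (e.F_mono (x i)).monotone ih
    rw [e.F_zero] at h1
    have h2 := h i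
    change e.F (x i) (CLo_T e x r v i) + r i + v ≤ 0
    linarith

theorem CLo_iter {x : ℤ → M} {r : ℤ → ℝ} (h : ∀ i, e.f (x i) = e.ρ (r i) (x (i + 1))) (v : ℝ)
    (i : ℕ) : (e.push v)^[i] (x 0) = e.ρ (CLo_T e x r v i) (x i) := by
  induction i with
  | zero => exact (e.zero _).symm
  | succ i ih =>
    rw [Function.iterate_succ_apply', ih]
    change e.ρ v (e.f (e.ρ (CLo_T e x r v i) (x i))) =
      e.ρ (e.F (x i) (CLo_T e x r v i) + r i + v) (x ((i + 1 : ℕ) : ℤ))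
    rw [e.F_eq, h, ← e.add, ← e.add]
    push_cast
    congr 1
    ring

theorem closing (hS : Stab0 e) : ∀ η > 0, ∃ δ > 0, ∀ (n : ℕ) (x : ℤ → M) (r : ℤ → ℝ), PSeq n x →
    (∀ i, e.f (x i) = e.ρ (r i) (x (i + 1))) → (∀ i, |r i| ≤ δ) →
    ∃ t, |t| ≤ η ∧ e.ρ t (x 0) ∈ Function.periodicPts e.f := by
  intro η hη
  obtain ⟨v₀, hv₀, h⟩ := hS η hη
  refine ⟨v₀, hv₀, fun n x r hn hx hr => ?_⟩
  have h1 : 0 ≤ CLo_T e x r v₀ n := CLo_nonneg e (fun i => by
    have := (abs_le.1 (hr i)).1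
    linarith) n
  have h2 : CLo_T e x r (-v₀) n ≤ 0 := CLo_nonpos e (fun i => by
    have := (abs_le.1 (hr i)).2
    linarith) n
  obtain ⟨v, hv, hv0⟩ := intermediate_value_Icc (by linarith : -v₀ ≤ v₀)
    (CLo_cont e x r n).continuousOn (show (0 : ℝ) ∈ _ from ⟨h2, h1⟩)
  refine h v (abs_le.2 ⟨hv.1, hv.2⟩) (x 0) ⟨n, hn.1, ?_⟩
  change (e.push v)^[n] (x 0) = x 0
  rw [CLo_iter e hx]
  have hv0 : CLo_T e x r v n = 0 := hv0
  rw [hv0, e.zero]
  have := hn.2 0
  rwa [zero_add] at this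

end TCE
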