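import Pool.Agent.TCE.Defs

/-!
# ClUp (3): finite pseudo-orbits in the closure of the periodic points can be closed up

Proof. Let `Λ = closure (periodicPts T)`, `δ > 0`. Choose `κ ≤ δ / 2`, `κ > 0` such that
`dist u v ≤ κ` implies `dist (T u) (T v) ≤ δ / 2` ... precisely: first `κ₁ ≤ δ / 2` with
`dist u v ≤ κ₁ → dist (T u) (T v) ≤ δ`, then `κ ≤ κ₁ / 2` with
`dist u v ≤ κ → dist (T u) (T v) ≤ κ₁ / 2` (`exists_unif`), and `δ' = κ₁ / 2`.
Step (one jump backwards): let `x, y ∈ Λ`, `dist (T x) y ≤ δ'`. Then there are `L > 0` and a chain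
`c 0 = y, c 1, ..., c L = x` in `Λ` with `dist (T (c j)) (c (j + 1)) ≤ δ` for `j < L`: there is a
periodic point `q` with `dist q x ≤ κ`; let `N > 0` be a period of `q`; replacing `N` by `3 N` we
may assume `N ≥ 3`. `dist (T q) y ≤ dist (T q) (T x) + dist (T x) y ≤ κ₁ / 2 + κ₁ / 2 = κ₁`, so
`dist (T y) (T (T q)) ≤ δ`. Put `L = N - 1`, `c 0 = y`, `c j = T^[j + 1] q` for `1 ≤ j < L`, `c L = x`.
The distances: `dist (T (c 0)) (c 1) = dist (T y) (T^[2] q) ≤ δ` (if `L ≥ 2`), zero for
`1 ≤ j < L - 1`, and `dist (T (c (L - 1))) (c L) = dist (T^[N] q) x = dist q x ≤ κ ≤ δ`.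
Let `m` and `x` be as in the statement. Concatenating the chains for the jumps from `x (i + 1)`
back to `x i`, `i = m - 1, ..., 0` (induction on `m`; for `m = 0` use a chain from `x 0` to itself:
by a periodic point `q` close to `x 0`, `N ≥ 3`: `c 0 = x 0`, `c j = T^[j] q`, `c N = x 0`), there are
`L > 0` and a chain `c 0 = x m`, ..., `c L = x 0` in `Λ` with errors `≤ δ`. (A chain relation of this
kind is `OmSt.Chn` in `OmSt2/Hull.lean`; look for `Chn.trans`.) Let `n = m + L` and let `w : ℕ → X`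
be `w i = x i` for `i ≤ m`, `w (m + j) = c j` for `j ≤ L`; `w 0 = w n = x 0`. The sequence
`z i = w (i % n)` (as a natural number) is `n`-periodic, in `Λ`, a `δ`-pseudo-orbit (the
errors inside `[0, m)` are `≤ δ' ≤ δ`) and equals `x i` for `0 ≤ i ≤ m < n`.
-/

open Set Filter Topology Real

namespace TCE

variable {X : Type*} [MetricSpace X] [CompactSpace X]

/-- chains -/
def ClUp_C (T : X → X) (Λ : Set X) (δ : ℝ) (n : ℕ) (a b : X) : Prop :=
  ∃ c : ℕ → X, c 0 = a ∧ c n = b ∧ (∀ i ≤ n, c i ∈ Λ) ∧ ∀ i < n, dist (T (c i)) (c (i + 1)) ≤ δ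

omit [CompactSpace X] in
theorem ClUp_trans {T : X → X} {Λ : Set X} {δ : ℝ} {n m : ℕ} {a b d : X}
    (h : ClUp_C T Λ δ n a b) (h' : ClUp_C T Λ δ m b d) : ClUp_C T Λ δ (n + m) a d := by
  obtain ⟨c, c0, cn, cm, cd⟩ := h
  obtain ⟨c', c0', cn', cm', cd'⟩ := h'
  refine ⟨fun i => if i ≤ n then c i else c' (i - n), ?_, ?_, ?_, ?_⟩
  · simp [c0]
  · by_cases hm : m = 0
    · subst hm
      simp only [add_zero, le_refl, if_true]
      rw [cn, ← c0', cn']
    · have h1 : ¬ n + m ≤ n := by omega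
      have h2 : n + m - n = m := by omega
      simp only [h1, if_false, h2]
      exact cn'
  · intro i hi
    by_cases h1 : i ≤ n
    · simp only [h1, if_true]
      exact cm i h1
    · simp only [h1, if_false]
      exact cm' _ (by omega)
  · intro i hi
    by_cases h1 : i < n
    · have h2 : i ≤ n := h1.le
      have h3 : i + 1 ≤ n := h1
      simp only [h2, h3, if_true]
      exact cd i h1
    · by_cases h4 : i = n
      · subst h4
        have h5 : ¬ i + 1 ≤ i := by omega
        have h6 : i + 1 - i = 0 + 1 := by omega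
        simp only [le_refl, if_true, h5, if_false, h6]
        rw [cn, ← c0']
        exact cd' 0 (by omega)
      · have h2 : ¬ i ≤ n := by omega
        have h3 : ¬ i + 1 ≤ n := by omega
        have h5 : i + 1 - n = (i - n) + 1 := by omega
        simp only [h2, h3, if_false, h5]
        exact cd' _ (by omega)

omit [CompactSpace X] in
theorem ClUp_back {T : X ≃ₜ X} {δ κ₁ κ : ℝ} (hκ₁δ : κ₁ ≤ δ / 2) (hκ : 0 < κ) (hκκ : κ ≤ κ₁ / 2)
    (u1 : ∀ u v, dist u v ≤ κ₁ → dist (T u) (T v) ≤ δ)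
    (u2 : ∀ u v, dist u v ≤ κ → dist (T u) (T v) ≤ κ₁ / 2) {x y : X}
    (hx : x ∈ closure (Function.periodicPts T)) (hy : y ∈ closure (Function.periodicPts T))
    (hxy : dist (T x) y ≤ κ₁ / 2) :
    ∃ L : ℕ, 0 < L ∧ ClUp_C T (closure (Function.periodicPts T)) δ L y x := by
  obtain ⟨q, hq, hqx⟩ := Metric.mem_closure_iff.1 hx κ hκ
  obtain ⟨n, hn, hqn⟩ := hq
  have hq3 : Function.IsPeriodicPt T (3 * n) q := hqn.const_mul 3
  have hmem : ∀ j : ℕ, T^[j] q ∈ closure (Function.periodicPts T) := by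
    intro j
    apply subset_closure
    exact ⟨n, hn, hqn.apply_iterate j⟩
  obtain ⟨L, hL⟩ : ∃ L, 3 * n = L + 1 := ⟨3 * n - 1, by omega⟩
  have hL2 : 2 ≤ L := by omega
  refine ⟨L, by omega, fun j => if j = 0 then y else if j < L then T^[j + 1] q else x, ?_, ?_, ?_, ?_⟩
  · simp
  · have h1 : L ≠ 0 := by omega
    simp [h1]
  · intro j _
    by_cases h1 : j = 0
    · simp only [h1, if_true]
      exact hy
    · by_cases h2 : j < L
      · simp only [h1, h2, if_true, if_false]
        exact hmem _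
      · simp only [h1, h2, if_false]
        exact hx
  · intro j hj
    by_cases h1 : j = 0
    · subst h1
      have h2 : (0 : ℕ) + 1 ≠ 0 := by omega
      have h3 : (0 : ℕ) + 1 < L := by omega
      simp only [if_true, h3]
      have h4 : T^[0 + 1 + 1] q = T (T q) := rfl
      simp only [h2, if_false]
      rw [h4]
      apply u1
      have h5 : dist y (T q) ≤ dist y (T x) + dist (T x) (T q) := dist_triangle _ _ _
      have h6 := u2 x q hqx.le
      have h7 : dist y (T x) ≤ κ₁ / 2 := by rw [dist_comm]; exact hxy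
      linarith
    · have h2 : j + 1 ≠ 0 := by omega
      by_cases h3 : j + 1 < L
      · have h4 : j < L := by omega
        simp only [h1, h2, h3, h4, if_true, if_false]
        rw [Function.iterate_succ_apply' T (j + 1) q, dist_self]
        linarith
      · have h4 : j < L := hj
        simp only [h1, h2, h3, h4, if_true, if_false]
        have h5 : T (T^[j + 1] q) = q := by
          rw [← Function.iterate_succ_apply' T (j + 1) q]
          have h6 : (j + 1).succ = 3 * n := by omega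
          rw [h6]
          exact hq3
        rw [h5, dist_comm]
        linarith

theorem close_up (T : X ≃ₜ X) : ∀ δ > 0, ∃ δ' > 0, ∀ (m : ℕ) (x : ℤ → X),
    (∀ i, 0 ≤ i → i ≤ m → x i ∈ closure (Function.periodicPts T)) →
    (∀ i, 0 ≤ i → i < m → dist (T (x i)) (x (i + 1)) ≤ δ') →
    ∃ (n : ℕ) (z : ℤ → X), m < n ∧ PSeq n z ∧ (∀ i, z i ∈ closure (Function.periodicPts T)) ∧
      Pso T δ z ∧ ∀ i, 0 ≤ i → i ≤ m → z i = x i := by
  intro δ hδ
  obtain ⟨η₁, hη₁, v1⟩ := exists_unif T.continuous δ hδ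
  obtain ⟨κ₁, hκ₁, w1, w2⟩ : ∃ κ₁ : ℝ, 0 < κ₁ ∧ κ₁ ≤ δ / 2 ∧ κ₁ ≤ η₁ :=
    ⟨min (δ / 2) η₁, lt_min (half_pos hδ) hη₁, min_le_left _ _, min_le_right _ _⟩
  obtain ⟨η₂, hη₂, v2⟩ := exists_unif T.continuous (κ₁ / 2) (half_pos hκ₁)
  obtain ⟨κ, hκ, w3, w4⟩ : ∃ κ : ℝ, 0 < κ ∧ κ ≤ κ₁ / 2 ∧ κ ≤ η₂ :=
    ⟨min (κ₁ / 2) η₂, lt_min (half_pos hκ₁) hη₂, min_le_left _ _, min_le_right _ _⟩
  have u1 : ∀ u v, dist u v ≤ κ₁ → dist (T u) (T v) ≤ δ := fun u v h => v1 u v (h.trans w2)
  have u2 : ∀ u v, dist u v ≤ κ → dist (T u) (T v) ≤ κ₁ / 2 := fun u v h => v2 u v (h.trans w4)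
  have hinv : ∀ x ∈ closure (Function.periodicPts T), T x ∈ closure (Function.periodicPts T) := by
    intro x hx
    have h1 : T x ∈ T '' closure (Function.periodicPts T) := ⟨x, hx, rfl⟩
    have h2 := image_closure_subset_closure_image T.continuous h1
    refine closure_mono ?_ h2
    rintro _ ⟨q, ⟨n, hn, hq⟩, rfl⟩
    exact ⟨n, hn, hq.apply_iterate 1⟩
  refine ⟨κ₁ / 2, half_pos hκ₁, ?_⟩
  intro m x hx hxd
  -- self chain
  have hself : ∀ y ∈ closure (Function.periodicPts T), ∃ L : ℕ, 0 < L ∧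
      ClUp_C T (closure (Function.periodicPts T)) δ L y y := by
    intro y hy
    obtain ⟨L, hL, hc⟩ := ClUp_back w1 hκ w3 u1 u2 hy (hinv y hy)
      (by rw [dist_self]; linarith)
    have h1 : ClUp_C T (closure (Function.periodicPts T)) δ 1 y (T y) := by
      refine ⟨fun j => if j = 0 then y else T y, by simp, by simp, ?_, ?_⟩
      · intro i _
        by_cases h : i = 0
        · simp only [h, if_true]
          exact hy
        · simp only [h, if_false]
          exact hinv y hy
      · intro i hi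
        have h : i = 0 := by omega
        subst h
        simp only [if_true, zero_add, one_ne_zero, if_false, dist_self]
        exact hδ.le
    exact ⟨1 + L, by omega, ClUp_trans h1 hc⟩
  have hback : ∀ k : ℕ, k ≤ m → ∃ L : ℕ,
      ClUp_C T (closure (Function.periodicPts T)) δ L (x k) (x 0) := by
    intro k
    induction k with
    | zero =>
      intro _
      refine ⟨0, fun _ => x 0, by simp, rfl, fun i _ => by simpa using hx 0 le_rfl (Nat.zero_le _), ?_⟩
      intro i hi
      omega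
    | succ k ih =>
      intro hk
      obtain ⟨L, hL⟩ := ih (by omega)
      have hkm : k < m := by omega
      have hx1 := hx k (Nat.zero_le _) hkm.le
      have hx2 : x ((k : ℤ) + 1) ∈ closure (Function.periodicPts T) := by
        have := hx (k + 1) (Nat.zero_le _) (by omega)
        push_cast at this
        exact this
      obtain ⟨L', -, hL'⟩ := ClUp_back w1 hκ w3 u1 u2 hx1 hx2 (hxd k (Nat.zero_le _) hkm)
      refine ⟨L' + L, ?_⟩
      have e : (((k + 1 : ℕ)) : ℤ) = (k : ℤ) + 1 := by push_cast; ring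
      rw [e]
      exact ClUp_trans hL' hL
  obtain ⟨L1, hL1, hc1⟩ := hself (x m) (hx m (Nat.zero_le _) le_rfl)
  obtain ⟨L2, hc2⟩ := hback m le_rfl
  obtain ⟨c, c0, cn, cm, cd⟩ := ClUp_trans hc1 hc2
  obtain ⟨L, hLdef⟩ : ∃ L, L = L1 + L2 := ⟨_, rfl⟩
  rw [← hLdef] at cn cm cd
  have hL0 : 0 < L := by omega
  obtain ⟨w, hw⟩ : ∃ w : ℕ → X, w = fun i : ℕ => if i ≤ m then x i else c (i - m) := ⟨_, rfl⟩
  have hw1 : ∀ i : ℕ, i ≤ m → w i = x i := by
    intro i hi
    rw [hw]
    simp only [hi, if_true]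
  have hw2 : ∀ i : ℕ, m ≤ i → w i = c (i - m) := by
    intro i hi
    by_cases h : i = m
    · subst h
      rw [hw1 i le_rfl, Nat.sub_self, c0]
    · have h' : ¬ i ≤ m := by omega
      rw [hw]
      simp only [h', if_false]
  have hwmem : ∀ i : ℕ, i ≤ m + L → w i ∈ closure (Function.periodicPts T) := by
    intro i hi
    by_cases h : i ≤ m
    · rw [hw1 i h]
      exact hx i (Nat.zero_le _) h
    · rw [hw2 i (by omega)]
      exact cm _ (by omega)
  have hwd : ∀ i : ℕ, i < m + L → dist (T (w i)) (w (i + 1)) ≤ δ := by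
    intro i hi
    by_cases h : i < m
    · rw [hw1 i h.le, hw1 (i + 1) h]
      have h1 := hxd i (Nat.zero_le _) h
      have e : (((i + 1 : ℕ)) : ℤ) = (i : ℤ) + 1 := by push_cast; ring
      rw [e]
      linarith
    · rw [hw2 i (by omega), hw2 (i + 1) (by omega)]
      have e : i + 1 - m = (i - m) + 1 := by omega
      rw [e]
      exact cd _ (by omega)
  have hwn : w (m + L) = w 0 := by
    rw [hw2 (m + L) (by omega), hw1 0 (by omega)]
    have e : m + L - m = L := by omega
    rw [e, cn]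
    rfl
  obtain ⟨n, hn⟩ : ∃ n, n = m + L := ⟨_, rfl⟩
  rw [← hn] at hwmem hwd hwn
  have hn0 : 0 < n := by omega
  have hn0' : (0 : ℤ) < n := by exact_mod_cast hn0
  refine ⟨n, fun i => w (i % n).toNat, by omega, ⟨hn0, fun i => ?_⟩, fun i => ?_, fun i => ?_, ?_⟩
  · change w ((i + n) % n).toNat = w (i % n).toNat
    rw [Int.add_emod_right]
  · apply hwmem
    have h1 := Int.emod_lt_of_pos i hn0'
    have h2 := Int.emod_nonneg i hn0'.ne'
    omega
  · change dist (T (w (i % n).toNat)) (w ((i + 1) % n).toNat) ≤ δ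
    have h1 := Int.emod_lt_of_pos i hn0'
    have h2 := Int.emod_nonneg i hn0'.ne'
    obtain ⟨r, hr⟩ := Int.eq_ofNat_of_zero_le h2
    have hrn : r < n := by
      rw [hr] at h1
      exact_mod_cast h1
    have e1 : (i % n).toNat = r := by
      rw [hr]
      rfl
    have e2 : (i + 1) % n = ((r + 1 : ℕ) : ℤ) % n := by
      rw [← Int.emod_add_emod, hr]
      push_cast
      rfl
    have e3 : w ((i + 1) % n).toNat = w (r + 1) := by
      by_cases h : r + 1 < n
      · have e4 : ((r + 1 : ℕ) : ℤ) % n = ((r + 1 : ℕ) : ℤ) :=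
          Int.emod_eq_of_lt (by positivity) (by exact_mod_cast h)
        rw [e2, e4]
        rfl
      · have e5 : r + 1 = n := by omega
        rw [e2, e5, Int.emod_self]
        exact hwn.symm
    rw [e1, e3]
    exact hwd r hrn
  · intro k hi0 hkm
    change w ((k : ℤ) % n).toNat = x k
    have e4 : (k : ℤ) % n = k := Int.emod_eq_of_lt (by positivity) (by exact_mod_cast (show k < n by omega))
    rw [e4, Int.toNat_natCast, hw1 k hkm]

end TCE
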