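import Pool.Agent.TCE.Defs

/-!
# Cond (2): a map of the line into a separable metric space has points of two-sided accumulation

Proof. The set `R` of `s` for which there is `ε > 0` with `dist (h s') (h s) ≥ ε` for all
`s' ∈ (s, s + ε)` is countable: it is the union over `n ≥ 1` and over the members `W` of a countable
family of sets of diameter `< 1/n` covering `Y` (balls of radius `1/(3 n)` around the points of a
dense sequence) of the sets
`R_{n, W} = {s ∈ R | the inequality holds with ε = 1/n, h s ∈ W}`, and two points `s < s'` of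
`R_{n, W}` satisfy `s' ≥ s + 1/n` (otherwise `dist (h s') (h s) ≥ 1/n`, but both values are in `W`),
so `R_{n, W}` is a `1/n`-separated subset of the line, which is countable (Mathlib has for example
`Set.PairwiseDisjoint.countable_of_Ioo`, or a map `s ↦ ⌊n s⌋` which is injective on it). The left
version is the same (or apply the right version to `s ↦ h (-s)`). The interval `(a, b)` is
uncountable (`Cardinal.Real.Ioo_countable_iff` / `Cardinal.mk_Ioo_real`), so it contains a point in
neither of the two countable sets. (With `ε` replaced by a smaller number: the sets are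
`{s | ∃ ε > 0, ∀ s' ∈ (s, s + ε), dist ≥ ε}`; if the inequality holds with some `ε` it holds with
every smaller one.) Mathlib's `Set.countable_setOf_isolated_right_within` may also be used.
-/

open Set Filter Topology Real

namespace TCE

theorem Cond_level {Y : Type*} [MetricSpace Y] [SecondCountableTopology Y] (h : ℝ → Y) {ε : ℝ}
    (hε : 0 < ε) : {s | ∀ s', s < s' → s' < s + ε → ε ≤ dist (h s') (h s)}.Countable := by
  haveI : Nonempty Y := ⟨h 0⟩
  have hsub : {s | ∀ s', s < s' → s' < s + ε → ε ≤ dist (h s') (h s)} ⊆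
      ⋃ m : ℕ, {s | (∀ s', s < s' → s' < s + ε → ε ≤ dist (h s') (h s)) ∧
        dist (h s) (TopologicalSpace.denseSeq Y m) < ε / 3} := by
    intro s hs
    obtain ⟨m, hm⟩ := (TopologicalSpace.denseRange_denseSeq Y).exists_dist_lt (h s)
      (by positivity : 0 < ε / 3)
    exact mem_iUnion.2 ⟨m, hs, hm⟩
  refine (countable_iUnion fun m => ?_).mono hsub
  refine Set.PairwiseDisjoint.countable_of_Ioo (y := fun s => s + ε) ?_ fun s _ => by linarith
  have key : ∀ s t : ℝ, s ∈ {s | (∀ s', s < s' → s' < s + ε → ε ≤ dist (h s') (h s)) ∧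
        dist (h s) (TopologicalSpace.denseSeq Y m) < ε / 3} →
      t ∈ {s | (∀ s', s < s' → s' < s + ε → ε ≤ dist (h s') (h s)) ∧
        dist (h s) (TopologicalSpace.denseSeq Y m) < ε / 3} → s < t → s + ε ≤ t := by
    intro s t hs ht hst
    by_contra hlt
    push Not at hlt
    have h1 := hs.1 t hst hlt
    have h2 := dist_triangle_right (h t) (h s) (TopologicalSpace.denseSeq Y m)
    have h3 := hs.2
    have h4 := ht.2
    linarith
  intro s hs t ht hst
  change Disjoint (Ioo s (s + ε)) (Ioo t (t + ε))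
  rw [Set.disjoint_left]
  rintro x ⟨hx1, hx2⟩ ⟨hx3, hx4⟩
  rcases lt_or_gt_of_ne hst with hlt | hlt
  · have := key s t hs ht hlt
    linarith
  · have := key t s ht hs hlt
    linarith

theorem Cond_right {Y : Type*} [MetricSpace Y] [SecondCountableTopology Y] (h : ℝ → Y) :
    {s | ∃ ε > 0, ∀ s', s < s' → s' < s + ε → ε ≤ dist (h s') (h s)}.Countable := by
  have hsub : {s | ∃ ε > 0, ∀ s', s < s' → s' < s + ε → ε ≤ dist (h s') (h s)} ⊆
      ⋃ n : ℕ, {s | ∀ s', s < s' → s' < s + 1 / ((n : ℝ) + 1) →
        1 / ((n : ℝ) + 1) ≤ dist (h s') (h s)} := by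
    rintro s ⟨ε, hε, hs⟩
    obtain ⟨n, hn⟩ := exists_nat_one_div_lt hε
    refine mem_iUnion.2 ⟨n, fun s' h1 h2 => ?_⟩
    exact hn.le.trans (hs s' h1 (by linarith))
  exact (countable_iUnion fun n => Cond_level h (by positivity)).mono hsub

theorem exists_two_sided {Y : Type*} [MetricSpace Y] [SecondCountableTopology Y] (h : ℝ → Y)
    {a b : ℝ} (hab : a < b) : ∃ s, a < s ∧ s < b ∧ ∀ ε > 0,
      (∃ s', s < s' ∧ s' < s + ε ∧ dist (h s') (h s) < ε) ∧
        ∃ s', s - ε < s' ∧ s' < s ∧ dist (h s') (h s) < ε := by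
  have hR := Cond_right h
  have hL := (Cond_right fun s => h (-s)).preimage_of_injOn
    (f := fun s : ℝ => -s) (fun x _ y _ hxy => neg_injective hxy)
  have hU : ¬ (Ioo a b).Countable := by
    rw [Cardinal.Real.Ioo_countable_iff]
    exact not_le.2 hab
  obtain ⟨s, hs, hs'⟩ : ∃ s ∈ Ioo a b, s ∉ {s | ∃ ε > 0, ∀ s', s < s' → s' < s + ε →
      ε ≤ dist (h s') (h s)} ∪ (fun s : ℝ => -s) ⁻¹' {s | ∃ ε > 0, ∀ s', s < s' → s' < s + ε →
      ε ≤ dist (h (-s')) (h (-s))} := by
    by_contra hno
    push Not at hno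
    exact hU ((hR.union hL).mono hno)
  rw [mem_union, not_or] at hs'
  refine ⟨s, hs.1, hs.2, fun ε hε => ⟨?_, ?_⟩⟩
  · by_contra hno
    push Not at hno
    exact hs'.1 ⟨ε, hε, fun s' h1 h2 => hno s' h1 h2⟩
  · by_contra hno
    push Not at hno
    refine hs'.2 ⟨ε, hε, fun s' h1 h2 => ?_⟩
    have h1' : -s < s' := h1
    have h2' : s' < -s + ε := h2
    have := hno (-s') (by linarith) (by linarith)
    change ε ≤ dist (h (-s')) (h (- -s))
    rw [neg_neg]
    exact this

end TCE
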