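import Pool.Agent.TCE.Defs

/-!
# DGap (3): the gap between the zeros of a displacement function

Real analysis; `D θ s` continuous in both variables, see `TCE.DF` in `Defs.lean`.

Preliminary fact (`DGap_next`). Let `D θ a = 0`, `|θ| < ε`, `a < b`, `D θ b = 0`. There is
`b' ∈ (a, b]` with `D θ b' = 0` and `D θ ≠ 0` on `(a, b')`, and the sign of `D θ` on `(a, b')` is
constant. Proof: by `simple` the derivative of `D θ` at `a` is not zero, so `D θ ≠ 0` on
`(a, a + ι)` for some `ι > 0`; `b'` = the least element of the compact set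
`{s ∈ [a + ι/2, b] | D θ s = 0}` (we may take `ι/2 < b - a`). Constant sign: the intermediate value
theorem.

Case 1: `D θ > 0` on `(a, b')`. Claim `b' - a ≥ ε + θ`. Suppose `b' - a < ε + θ` and put
`θ₁ = θ - (b' - a)`, so `|θ₁| < ε`. For all `s ∈ [a, b']`, by `mono` (non strict form)
`D θ s + s ≤ D θ b' + b' = b'`, so by `push` `D θ₁ s ≤ D θ s - (b' - a) ≤ (b' - s) - (b' - a)
= a - s ≤ 0`. Let `C = {θ' ∈ [θ₁, θ] | ∀ s ∈ [a, b'], D θ' s ≤ 0}`: closed, nonempty (`θ₁`), bounded;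
`θ* = max C`. `θ* < θ` because `D θ > 0` somewhere. For `θ' ∈ (θ*, θ)` there is `s ∈ [a, b']` with
`D θ' s > 0`; take a sequence `θ'_k ↓ θ*` and a convergent subsequence of the `s_k`: there is
`s* ∈ [a, b']` with `D θ* s* ≥ 0`, so `D θ* s* = 0 = max of D θ* on [a, b']`. Now
`D θ* a ≤ D θ a - (θ - θ*) < 0` and the same at `b'`, so `s* ∈ (a, b')` is an interior maximum, the
derivative of `D θ*` at `s*` is zero (`IsLocalMax.hasDerivAt_eq_zero`), which contradicts `simple`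
(`|θ*| < ε` as `θ₁ ≤ θ* ≤ θ`).
Case 2: `D θ < 0` on `(a, b')`. Apply Case 1 to `D' θ s = - D (-θ) (-s)` (which again satisfies
`DF ε D'`) with `-θ`, or repeat the argument with `θ₁ = θ + (b' - a)` and
`D θ s + s ≥ D θ a + a = a`: `b' - a ≥ ε - θ`.
So in both cases `b - a ≥ b' - a ≥ ε - |θ|`.
-/

open Set Filter Topology Real

namespace TCE

theorem DGap_cont {ε : ℝ} {D : ℝ → ℝ → ℝ} (h : DF ε D) (θ : ℝ) : Continuous (D θ) :=
  h.cont.comp (Continuous.prodMk_right θ)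

theorem DGap_cont' {ε : ℝ} {D : ℝ → ℝ → ℝ} (h : DF ε D) (s : ℝ) : Continuous fun θ => D θ s :=
  h.cont.comp (Continuous.prodMk_left s)

theorem DGap_next {ε : ℝ} {D : ℝ → ℝ → ℝ} (h : DF ε D) {θ : ℝ} (hθ : |θ| < ε) {a b : ℝ}
    (ha : D θ a = 0) (hb : D θ b = 0) (hab : a < b) :
    ∃ b', a < b' ∧ b' ≤ b ∧ D θ b' = 0 ∧
      ((∀ s ∈ Ioo a b', 0 < D θ s) ∨ ∀ s ∈ Ioo a b', D θ s < 0) := by
  obtain ⟨d, hd, hder⟩ := h.simple θ hθ a ha
  have hev : ∀ᶠ z in 𝓝[≠] a, D θ z ≠ 0 := hder.eventually_ne hd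
  rw [eventually_nhdsWithin_iff, Metric.eventually_nhds_iff] at hev
  obtain ⟨ι, hι, hne⟩ := hev
  have hc := DGap_cont h θ
  obtain ⟨κ, hκ0, hκ1, hκ2⟩ : ∃ κ, 0 < κ ∧ κ < ι ∧ κ ≤ b - a := by
    refine ⟨min (ι / 2) (b - a), lt_min (by linarith) (by linarith), ?_, min_le_right _ _⟩
    exact lt_of_le_of_lt (min_le_left _ _) (by linarith)
  have hKc : IsCompact (Icc (a + κ) b ∩ {s | D θ s = 0}) :=
    isCompact_Icc.inter_right (isClosed_eq hc continuous_const)
  have hKne : (Icc (a + κ) b ∩ {s | D θ s = 0}).Nonempty := ⟨b, ⟨by linarith, le_rfl⟩, hb⟩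
  have hmem := hKc.sInf_mem hKne
  set b' := sInf (Icc (a + κ) b ∩ {s | D θ s = 0}) with hb'
  have hne' : ∀ s ∈ Ioo a b', D θ s ≠ 0 := by
    intro s hs h0
    rcases lt_or_ge s (a + κ) with h1 | h1
    · refine hne ?_ hs.1.ne' h0
      rw [Real.dist_eq, abs_of_pos (by linarith [hs.1])]
      linarith
    · have h2 : s ∈ Icc (a + κ) b ∩ {s | D θ s = 0} := ⟨⟨h1, hs.2.le.trans hmem.1.2⟩, h0⟩
      have h3 := csInf_le hKc.bddBelow h2
      exact absurd hs.2 (not_lt.2 h3)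
  have hiv : ∀ s₁ ∈ Ioo a b', ∀ s₂ ∈ Ioo a b', D θ s₁ ≤ 0 → 0 ≤ D θ s₂ → False := by
    intro s₁ h1 s₂ h2 e1 e2
    obtain ⟨s, hs, e⟩ := isPreconnected_Ioo.intermediate_value h1 h2 hc.continuousOn ⟨e1, e2⟩
    exact hne' s hs e
  refine ⟨b', by linarith [hmem.1.1], hmem.1.2, hmem.2, ?_⟩
  by_cases hpos : ∀ s ∈ Ioo a b', 0 < D θ s
  · exact Or.inl hpos
  · right
    push Not at hpos
    obtain ⟨s₁, h1, e1⟩ := hpos
    intro s hs
    by_contra h2
    exact hiv s₁ h1 s hs e1 (not_lt.1 h2)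

theorem DGap_pos {ε : ℝ} {D : ℝ → ℝ → ℝ} (h : DF ε D) {θ : ℝ} (hθ : |θ| < ε) {a b : ℝ}
    (ha : D θ a = 0) (hb : D θ b = 0) (hab : a < b) (hpos : ∀ s ∈ Ioo a b, 0 < D θ s) :
    ε + θ ≤ b - a := by
  by_contra hcon
  push Not at hcon
  obtain ⟨hθ1, hθ2⟩ := abs_lt.1 hθ
  set θ₁ := θ - (b - a) with hθ₁
  have hCc : IsCompact (Icc θ₁ θ ∩ ⋂ s ∈ Icc a b, {θ' | D θ' s ≤ 0}) := by
    refine isCompact_Icc.inter_right (isClosed_biInter fun s _ => ?_)
    exact isClosed_le (DGap_cont' h s) continuous_const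
  have hCne : (Icc θ₁ θ ∩ ⋂ s ∈ Icc a b, {θ' | D θ' s ≤ 0}).Nonempty := by
    refine ⟨θ₁, ⟨le_rfl, by rw [hθ₁]; linarith⟩, ?_⟩
    refine mem_iInter₂.2 fun s hs => ?_
    change D θ₁ s ≤ 0
    have h1 := h.push θ₁ θ (by rw [hθ₁]; linarith) s
    have h2 : D θ s + s ≤ D θ b + b := by
      rcases hs.2.lt_or_eq with h3 | h3
      · exact (h.mono θ s b h3).le
      · rw [h3]
    have h4 := hs.1
    rw [hb] at h2
    rw [hθ₁] at h1 ⊢
    linarith
  have hmem := hCc.sSup_mem hCne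
  set τ := sSup (Icc θ₁ θ ∩ ⋂ s ∈ Icc a b, {θ' | D θ' s ≤ 0}) with hτ
  have hτ0 : ∀ s ∈ Icc a b, D τ s ≤ 0 := fun s hs => mem_iInter₂.1 hmem.2 s hs
  have hτθ : τ < θ := by
    rcases hmem.1.2.lt_or_eq with h1 | h1
    · exact h1
    · exfalso
      have h2 := hpos ((a + b) / 2) ⟨by linarith, by linarith⟩
      have h3 := hτ0 ((a + b) / 2) ⟨by linarith, by linarith⟩
      rw [h1] at h3
      linarith
  have hτε : |τ| < ε := by
    rw [abs_lt]
    have := hmem.1.1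
    rw [hθ₁] at this
    constructor <;> linarith
  have hex : ∃ s ∈ Icc a b, 0 ≤ D τ s := by
    by_contra hno
    push Not at hno
    have hev : ∀ᶠ x in 𝓝 τ, ∀ y ∈ Icc a b, D x y < 0 := by
      refine isCompact_Icc.eventually_forall_of_forall_eventually fun y hy => ?_
      exact h.cont.continuousAt.eventually_lt continuousAt_const (hno y hy)
    rw [Metric.eventually_nhds_iff] at hev
    obtain ⟨δ, hδ, hball⟩ := hev
    have hx : τ + min (δ / 2) (θ - τ) ∈ Icc θ₁ θ ∩ ⋂ s ∈ Icc a b, {θ' | D θ' s ≤ 0} := by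
      have m1 : 0 < min (δ / 2) (θ - τ) := lt_min (by linarith) (by linarith)
      have m2 := min_le_left (δ / 2) (θ - τ)
      have m3 := min_le_right (δ / 2) (θ - τ)
      refine ⟨⟨by linarith [hmem.1.1], by linarith⟩, mem_iInter₂.2 fun s hs => ?_⟩
      refine (hball ?_ s hs).le
      rw [Real.dist_eq, add_sub_cancel_left, abs_of_pos m1]
      linarith
    have m1 : 0 < min (δ / 2) (θ - τ) := lt_min (by linarith) (by linarith)
    have h2 := le_csSup hCc.bddAbove hx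
    rw [← hτ] at h2
    linarith
  obtain ⟨s, hs, hs0⟩ := hex
  have hs1 : D τ s = 0 := le_antisymm (hτ0 s hs) hs0
  have e1 : D τ a < 0 := by
    have := h.push τ θ hτθ.le a
    linarith
  have e2 : D τ b < 0 := by
    have := h.push τ θ hτθ.le b
    linarith
  have hsa : a < s := by
    rcases hs.1.lt_or_eq with h1 | h1
    · exact h1
    · rw [h1] at e1
      linarith
  have hsb : s < b := by
    rcases hs.2.lt_or_eq with h1 | h1
    · exact h1
    · rw [← h1] at e2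
      linarith
  obtain ⟨d, hd, hder⟩ := h.simple τ hτε s hs1
  apply hd
  refine IsLocalMax.hasDerivAt_eq_zero ?_ hder
  filter_upwards [Icc_mem_nhds hsa hsb] with x hx
  rw [hs1]
  exact hτ0 x hx

theorem DGap_neg {ε : ℝ} {D : ℝ → ℝ → ℝ} (h : DF ε D) : DF ε fun θ s => -D (-θ) (-s) where
  cont := (h.cont.comp (continuous_fst.neg.prodMk continuous_snd.neg)).neg
  per := by
    intro θ s
    have := h.per (-θ) (-(s + π))
    have e : -(s + π) + π = -s := by ring
    rw [e] at this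
    change -D (-θ) (-(s + π)) = -D (-θ) (-s)
    rw [this]
  push := by
    intro θ θ' hle s
    have := h.push (-θ') (-θ) (by linarith) (-s)
    change -D (-θ) (-s) + (θ' - θ) ≤ -D (-θ') (-s)
    linarith
  mono := by
    intro θ s t hst
    have := h.mono (-θ) (-t) (-s) (by linarith)
    change -D (-θ) (-s) + s < -D (-θ) (-t) + t
    linarith
  simple := by
    intro θ hθ s hs
    have hs' : D (-θ) (-s) = 0 := by
      have : -D (-θ) (-s) = 0 := hs
      linarith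
    obtain ⟨d, hd, hder⟩ := h.simple (-θ) (by rwa [abs_neg]) (-s) hs'
    refine ⟨d, hd, ?_⟩
    have h1 := (HasDerivAt.comp s hder (hasDerivAt_neg s)).neg
    have e : -(d * -1) = d := by ring
    rw [e] at h1
    exact h1
  ex := by
    intro θ hθ
    obtain ⟨s, hs⟩ := h.ex (-θ) (by rwa [abs_neg])
    refine ⟨-s, ?_⟩
    change -D (-θ) (- -s) = 0
    rw [neg_neg, hs, neg_zero]

/-- Distinct zeros of `D θ` are at distance at least `ε - |θ|`. -/
theorem DF.gap {ε : ℝ} {D : ℝ → ℝ → ℝ} (h : DF ε D) {θ : ℝ} (hθ : |θ| < ε) {a b : ℝ}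
    (ha : D θ a = 0) (hb : D θ b = 0) (hab : a < b) : ε - |θ| ≤ b - a := by
  obtain ⟨b', h1, h2, h3, h4 | h4⟩ := DGap_next h hθ ha hb hab
  · have := DGap_pos h hθ ha h3 h1 h4
    have := neg_abs_le θ
    linarith
  · have := DGap_pos (DGap_neg h) (θ := -θ) (a := -b') (b := -a) (by rwa [abs_neg])
      (by simp only [neg_neg, h3, neg_zero]) (by simp only [neg_neg, ha, neg_zero]) (by linarith)
      (by
        intro s hs
        have h5 := h4 (-s) ⟨by linarith [hs.2], by linarith [hs.1]⟩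
        simp only [neg_neg]
        linarith)
    have := le_abs_self θ
    linarith

end TCE
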