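import Pool.Agent.TCE.DFx
import Pool.Agent.TCE.DGap

/-!
# EGap (1): the gap between the periodic points of a circle

Proof. Let `x` and `ρ_r x` be periodic for `(sft e θ).f = e.push θ` (`sft_f`), `|r| < ε - |θ|`. Then
`b = p x` is periodic for `g` (`p (push θ x) = g (p x)`, iterate), `x = ρ_s σ_b` for some `s`
(`e.fib`, `e.p_σ`), `ρ_r x = ρ_{r + s} σ_b`. With `D` from `exists_DF` for `b`: `D θ s = 0` and
`D θ (r + s) = 0`, so `DF.gap` excludes `r > 0` (with `a = s`, `b = r + s`) and `r < 0`.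
-/

open Set Filter Topology Real

namespace TCE

open PCE

variable {M B : Type*} [TopologicalSpace M] [TopologicalSpace B]

theorem EGap_per (e : Ext M B) {θ : ℝ} {x : M} (hx : x ∈ Function.periodicPts (e.push θ)) :
    e.p x ∈ Function.periodicPts e.g := by
  obtain ⟨n, hn, h⟩ := hx
  have h : (e.push θ)^[n] x = x := h
  refine ⟨n, hn, ?_⟩
  have h1 := (sft e θ).cov_iter n x
  have h2 : (((sft e θ).f : M → M))^[n] x = x := h
  rw [h2] at h1
  exact h1.symm

theorem EGap_eq (e : Ext M B) (x : M) : ∃ s, e.ρ s (e.σ (e.p x)) = x :=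
  (e.fib _ _).1 (e.p_σ _)

theorem gap_sft (e : Ext M B) {ε : ℝ} (hε : 0 < ε) (hstar : e.Star ε) {θ : ℝ} (hθ : |θ| < ε) :
    Gap (sft e θ) (ε - |θ|) := by
  intro x r hx hr hrε
  have hx : x ∈ Function.periodicPts (e.push θ) := hx
  have hr : e.ρ r x ∈ Function.periodicPts (e.push θ) := hr
  obtain ⟨D, hD, h1⟩ := exists_DF e hε hstar (EGap_per e hx)
  obtain ⟨s, hs⟩ := EGap_eq e x
  have h2 : D θ s = 0 := (h1 θ hθ s).2 (by rwa [hs])
  have h3 : D θ (r + s) = 0 := (h1 θ hθ (r + s)).2 (by rwa [e.add, hs])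
  rw [abs_lt] at hrε
  rcases lt_trichotomy r 0 with h | h | h
  · have := hD.gap hθ h3 h2 (by linarith)
    linarith
  · exact h
  · have := hD.gap hθ h2 h3 (by linarith)
    linarith

end TCE
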