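import Pool.Agent.TCE.ClUp

/-!
# ExClo (3): expansivity on the closure of the periodic points

Proof. Let `Λ = closure (periodicPts T)`, `c₁` from `hP : PairP T p (p⁻¹ S)`, `c_B` the expansivity
constant of `g` on `S`, `c ≤ c₁` such that `dist u v ≤ c` implies `dist (p u) (p v) ≤ c_B`. Let
`x, y` be full orbits of `T` in `Λ` with `dist (x i) (y i) ≤ c` for all `i`. `p ∘ x`, `p ∘ y` are full
orbits of `g` in `S`, so `p (x i) = p (y i)` for all `i` (hE). Claim: `dist (x 0) (y 0) ≤ η` for every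
`η > 0`; so `x 0 = y 0` and `x = y` (`Orb.eq_of`).
Let `δ` be from `hP` for `η`, `δ'` from `close_up` for `δ`, `η₂ ≤ δ` such that `dist u v ≤ η₂` implies
`dist (T u) (T v) ≤ δ`, and `δ₂` from `hP` for `η₂`.
(i) For every `N : ℤ` there is `m ≥ N` with `dist (x m) (y m) ≤ η₂`: the sequence
`(x (N + k), y (N + k))`, `k ∈ ℕ`, in the compact space `X × X` has two terms `m < m'` with
`dist (x m) (x m') ≤ δ₂`, `dist (y m) (y m') ≤ δ₂` (a convergent subsequence). The `(m' - m)`-periodic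
sequences which are `x (m + i)`, `y (m + i)` for `0 ≤ i < m' - m` (i.e. `i ↦ x (m + i % (m' - m))`) are
`δ₂`-pseudo-orbits in `p⁻¹ S`, in the same fibres of `p`, `c`-close. So `hP` gives
`dist (x m) (y m) ≤ η₂`. In the same way there is `m ≤ N` with this property for every `N` (take the
window `(-∞, N]`: `m < m' ≤ N`).
(ii) Choose `n₂ < 0 < n₁` with `dist (x n₁) (y n₁) ≤ η₂`, `dist (x n₂) (y n₂) ≤ η₂`. Apply `close_up`
to `i ↦ x (n₂ + i)` and the length `m = n₁ - n₂` (the errors are `0`): an `n`-periodic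
`δ`-pseudo-orbit `z` in `Λ` with `z i = x (n₂ + i)` for `0 ≤ i ≤ m < n`. Let `w i = y (n₂ + i % n)` if
`0 < i % n < m` and `w i = z i` otherwise. `w` is `n`-periodic, in `Λ ⊆ p⁻¹ S`, `p (w i) = p (z i)`,
`dist (z i) (w i) ≤ c`. `w` is a `δ`-pseudo-orbit: for `0 < i, i + 1 < m` there is no error; at
`i = 0` (if `m > 1`): `dist (T (x n₂)) (y (n₂ + 1)) = dist (T (x n₂)) (T (y n₂)) ≤ δ`; at `i = m - 1`:
`dist (T (y (n₁ - 1))) (x n₁) = dist (y n₁) (x n₁) ≤ η₂ ≤ δ`; otherwise `w` agrees with `z` at both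
times. (As `n₂ < 0 < n₁`, `m ≥ 2`.) By `hP`: `dist (z i) (w i) ≤ η` for all `i`, and for `i = -n₂`
(`0 < i < m`): `dist (x 0) (y 0) ≤ η`.
-/

open Set Filter Topology Real

namespace TCE

variable {X : Type*} [MetricSpace X] [CompactSpace X] {B : Type*} [MetricSpace B]

/-- the successor modulo `n` -/
theorem ExClo_mod {n : ℕ} (hn : 0 < n) (i : ℤ) :
    0 ≤ i % n ∧ i % n < n ∧ ((i % n + 1 < n ∧ (i + 1) % n = i % n + 1) ∨
      (i % n + 1 = n ∧ (i + 1) % n = 0)) := by
  have hn' : (0 : ℤ) < n := by exact_mod_cast hn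
  have h0 := Int.emod_nonneg i hn'.ne'
  have h1 := Int.emod_lt_of_pos i hn'
  refine ⟨h0, h1, ?_⟩
  have h2 : (i + 1) % n = (i % n + 1) % n := by rw [Int.emod_add_emod]
  rcases lt_or_eq_of_le (show i % n + 1 ≤ n by omega) with h | h
  · left
    exact ⟨h, by rw [h2, Int.emod_eq_of_lt (by omega) h]⟩
  · right
    exact ⟨h, by rw [h2, h, Int.emod_self]⟩

/-- periodization of an orbit segment -/
theorem ExClo_per {T : X → X} {u : ℤ → X} (hu : Orb T u) {m : ℤ} {n : ℕ} (hn : 0 < n) {δ : ℝ}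
    (hδ : 0 ≤ δ) (hd : dist (u m) (u (m + n)) ≤ δ) :
    PSeq n (fun i => u (m + i % n)) ∧ Pso T δ fun i => u (m + i % n) := by
  refine ⟨⟨hn, fun i => ?_⟩, fun i => ?_⟩
  · change u (m + (i + n) % n) = u (m + i % n)
    rw [Int.add_emod_right]
  · change dist (T (u (m + i % n))) (u (m + (i + 1) % n)) ≤ δ
    rw [hu]
    obtain ⟨-, -, ⟨h1, h2⟩ | ⟨h1, h2⟩⟩ := ExClo_mod hn i
    · rw [h2, ← add_assoc, dist_self]
      exact hδ
    · rw [h2, add_zero, add_assoc, h1, dist_comm]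
      exact hd

/-- two close returns in a sequence of times -/
theorem ExClo_ret (x y : ℤ → X) (s : ℕ → ℤ) {δ : ℝ} (hδ : 0 < δ) :
    ∃ k k' : ℕ, k < k' ∧ dist (x (s k)) (x (s k')) ≤ δ ∧ dist (y (s k)) (y (s k')) ≤ δ := by
  obtain ⟨a, φ, hφ, hlim⟩ := CompactSpace.tendsto_subseq fun k => (x (s k), y (s k))
  obtain ⟨N, hN⟩ := Metric.cauchySeq_iff'.1 hlim.cauchySeq δ hδ
  have h1 := hN (N + 1) (by omega)
  refine ⟨φ N, φ (N + 1), hφ (Nat.lt_succ_self N), ?_, ?_⟩
  · rw [dist_comm]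
    exact ((le_max_left _ _).trans (le_of_eq (Prod.dist_eq (x := (x (s (φ (N + 1))),
      y (s (φ (N + 1))))) (y := (x (s (φ N)), y (s (φ N))))).symm)).trans h1.le
  · rw [dist_comm]
    exact ((le_max_right _ _).trans (le_of_eq (Prod.dist_eq (x := (x (s (φ (N + 1))),
      y (s (φ (N + 1))))) (y := (x (s (φ N)), y (s (φ N))))).symm)).trans h1.le

theorem mexp_of_pair (T : X ≃ₜ X) {g : B → B} {p : X → B} (hp : Continuous p)
    (hcov : ∀ x, p (T x) = g (p x)) {S : Set B} (hE : MExp g S)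
    (hS : ∀ x ∈ closure (Function.periodicPts T), p x ∈ S) (hP : PairP T p (p ⁻¹' S)) :
    MExp T (closure (Function.periodicPts T)) := by
  obtain ⟨c₁, hc₁, hPc⟩ := hP
  obtain ⟨cB, hcB, hEB⟩ := hE
  obtain ⟨c₂, hc₂, hpc⟩ := exists_unif hp cB hcB
  refine ⟨min c₁ c₂, lt_min hc₁ hc₂, fun x y hx hy hxS hyS hd => ?_⟩
  have hd1 : ∀ i, dist (x i) (y i) ≤ c₁ := fun i => (hd i).trans (min_le_left _ _)
  have hd2 : ∀ i, dist (x i) (y i) ≤ c₂ := fun i => (hd i).trans (min_le_right _ _)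
  have hpe : ∀ i, p (x i) = p (y i) := by
    intro i
    have h1 := hEB (fun i => p (x i)) (fun i => p (y i))
      (fun i => by
        change g (p (x i)) = p (x (i + 1))
        rw [← hcov, hx i])
      (fun i => by
        change g (p (y i)) = p (y (i + 1))
        rw [← hcov, hy i])
      (fun i => hS _ (hxS i)) (fun i => hS _ (hyS i)) (fun i => hpc _ _ (hd2 i))
    exact congrFun h1 i
  have claim : ∀ η > 0, dist (x 0) (y 0) ≤ η := by
    intro η hη
    obtain ⟨δ, hδ, hPδ⟩ := hPc η hη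
    obtain ⟨δ', hδ', hcl⟩ := close_up T δ hδ
    obtain ⟨η₁, hη₁, hTη⟩ := exists_unif T.continuous δ hδ
    obtain ⟨δ₂, hδ₂, hP2⟩ := hPc (min δ η₁) (lt_min hδ hη₁)
    -- windows
    have hwin : ∀ m m' : ℤ, m < m' → dist (x m) (x m') ≤ δ₂ → dist (y m) (y m') ≤ δ₂ →
        dist (x m) (y m) ≤ min δ η₁ := by
      intro m m' hmm hxm hym
      obtain ⟨n, hn⟩ := Int.eq_ofNat_of_zero_le (show 0 ≤ m' - m by omega)
      have hn0 : 0 < n := by omega
      have e : m' = m + n := by omega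
      rw [e] at hxm hym
      obtain ⟨a1, a2⟩ := ExClo_per hx hn0 hδ₂.le hxm
      obtain ⟨b1, b2⟩ := ExClo_per hy hn0 hδ₂.le hym
      have h1 := hP2 n _ _ a1 b1 (fun i => hS _ (hxS _)) (fun i => hS _ (hyS _))
        (fun i => hpe _) a2 b2 (fun i => hd1 _) 0
      simpa using h1
    have hwin' : ∀ s : ℕ → ℤ, (∀ k k', k < k' → s k ≠ s k') → ∃ k, dist (x (s k)) (y (s k)) ≤ min δ η₁ := by
      intro s hs
      obtain ⟨k, k', hkk, h1, h2⟩ := ExClo_ret x y s hδ₂
      rcases lt_or_gt_of_ne (hs k k' hkk) with h3 | h3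
      · exact ⟨k, hwin _ _ h3 h1 h2⟩
      · exact ⟨k', hwin _ _ h3 (by rw [dist_comm]; exact h1) (by rw [dist_comm]; exact h2)⟩
    obtain ⟨k₁, hk₁⟩ := hwin' (fun k => (k : ℤ) + 1) (fun k k' hkk => by
      change (k : ℤ) + 1 ≠ (k' : ℤ) + 1
      omega)
    obtain ⟨k₂, hk₂⟩ := hwin' (fun k => -(k : ℤ) - 1) (fun k k' hkk => by
      change -(k : ℤ) - 1 ≠ -(k' : ℤ) - 1
      omega)
    set n₂ : ℤ := -(k₂ : ℤ) - 1 with hn₂
    set m : ℕ := k₁ + k₂ + 2 with hm
    have hk₁' : dist (x (n₂ + m)) (y (n₂ + m)) ≤ min δ η₁ := by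
      have e : n₂ + m = (k₁ : ℤ) + 1 := by
        rw [hn₂, hm]
        push_cast
        ring
      rw [e]
      exact hk₁
    have hk₂' : dist (x n₂) (y n₂) ≤ min δ η₁ := hk₂
    obtain ⟨n, z, hmn, hz1, hz2, hz3, hz4⟩ := hcl m (fun i => x (n₂ + i)) (fun i _ _ => hxS _)
      (fun i _ _ => by
        change dist (T (x (n₂ + i))) (x (n₂ + (i + 1))) ≤ δ'
        rw [hx, add_assoc, dist_self]
        exact hδ'.le)
    have hn0 : 0 < n := by omega
    have hz5 : ∀ i : ℤ, i % n ≤ m → z i = x (n₂ + i % n) := by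
      intro i hi
      rw [← hz1.emod i]
      obtain ⟨r, hr⟩ := Int.eq_ofNat_of_zero_le (ExClo_mod hn0 i).1
      rw [hr] at hi ⊢
      exact hz4 r (Nat.zero_le _) (by exact_mod_cast hi)
    classical
    set w : ℤ → X := fun i => if 0 < i % n ∧ i % n < m then y (n₂ + i % n) else z i with hw
    have hw1 : ∀ i : ℤ, 0 < i % n → i % n < m → w i = y (n₂ + i % n) :=
      fun i h1 h2 => if_pos ⟨h1, h2⟩
    have hw2 : ∀ i : ℤ, (i % n = 0 ∨ m ≤ i % n) → w i = z i := by
      intro i hi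
      apply if_neg
      rintro ⟨h1, h2⟩
      omega
    have hcase : ∀ i : ℤ, (0 < i % n ∧ i % n < m) ∨ (i % n = 0 ∨ m ≤ i % n) := by
      intro i
      have := (ExClo_mod hn0 i).1
      omega
    have hwP : PSeq n w := by
      refine ⟨hn0, fun i => ?_⟩
      simp only [hw, Int.add_emod_right, hz1.2]
    have hwS : ∀ i, w i ∈ closure (Function.periodicPts T) := by
      intro i
      rcases hcase i with ⟨h1, h2⟩ | h1
      · rw [hw1 i h1 h2]
        exact hyS _
      · rw [hw2 i h1]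
        exact hz2 _
    have hwp : ∀ i, p (z i) = p (w i) ∧ dist (z i) (w i) ≤ c₁ := by
      intro i
      rcases hcase i with ⟨h1, h2⟩ | h1
      · rw [hw1 i h1 h2, hz5 i h2.le]
        exact ⟨hpe _, hd1 _⟩
      · rw [hw2 i h1, dist_self]
        exact ⟨rfl, hc₁.le⟩
    have hwPso : Pso T δ w := by
      intro i
      obtain ⟨h0, h1, h2⟩ := ExClo_mod hn0 i
      rcases hcase i with ⟨h3, h4⟩ | h3
      · have h5 : (i + 1) % n = i % n + 1 := by
          rcases h2 with h2 | h2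
          · exact h2.2
          · omega
        rw [hw1 i h3 h4, hy]
        rcases lt_or_eq_of_le (show i % n + 1 ≤ m by omega) with h6 | h6
        · rw [hw1 (i + 1) (by omega) (by omega), h5, ← add_assoc, dist_self]
          exact hδ.le
        · rw [hw2 (i + 1) (Or.inr (by omega)), hz5 (i + 1) (by omega), h5, add_assoc, h6, dist_comm]
          exact hk₁'.trans (min_le_left _ _)
      · rcases h3 with h3 | h3
        · have h5 : (i + 1) % n = 1 := by
            rcases h2 with h2 | h2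
            · omega
            · omega
          rw [hw2 i (Or.inl h3), hz5 i (by omega), h3, add_zero,
            hw1 (i + 1) (by omega) (by omega), h5, ← hy n₂]
          exact hTη _ _ (hk₂'.trans (min_le_right _ _))
        · rw [hw2 i (Or.inr h3), hw2 (i + 1) (by omega)]
          exact hz3 i
    have h7 := hPδ n z w hz1 hwP (fun i => hS _ (hz2 i)) (fun i => hS _ (hwS i))
      (fun i => (hwp i).1) hz3 hwPso (fun i => (hwp i).2) (-n₂)
    have h8 : -n₂ % n = -n₂ := Int.emod_eq_of_lt (by omega) (by omega)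
    rw [hz5 (-n₂) (by omega), hw1 (-n₂) (by omega) (by omega), h8, add_neg_cancel] at h7
    exact h7
  have h0 : dist (x 0) (y 0) ≤ 0 := le_of_forall_pos_le_add fun ε hε => by
    rw [zero_add]
    exact claim ε hε
  exact hx.eq_of T.injective hy (dist_le_zero.1 h0)

end TCE
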