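import Pool.Agent.TCE.DGap

/-!
# DLem (3): the interpolation lemma for displacement functions

Proof. `D = D θ s` is increasing in `θ` (`push`). Let `z` be a zero of `D u`, so
`D s₁ z < 0 < D s₂ z`. `D s₁` has zeros (`ex`, `per`: on both sides of `z`); let `a₁ < z < a₂` be the
last zero of `D s₁` left of `z` and the first zero right of `z` (compactness); `D s₁ < 0` on
`(a₁, a₂)` (intermediate value theorem).
* `D s₁` changes sign at `a₁` (`simple`: nonzero derivative), so `D s₁ > 0` immediately to the left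
  of `a₁`, and then `D s₁ ≥ 0` on `[a₁ - κ, a₁]` as there is no zero of `D s₁` in `(a₁ - κ, a₁)`
  (`DF.gap`, `κ ≤ ε - |s₁|`). Hence `D s₂ > 0` on `[a₁ - κ, a₁]`. By `hα` there is a zero `a₁'` of
  `D s₂` with `|a₁' - a₁| ≤ ε'' < κ`; so `a₁' ∈ (a₁, a₁ + ε'']`. In the same way there is a zero
  `a₂' ∈ [a₂ - ε'', a₂)` of `D s₂`.
* If `z ≤ a₁'`: `a₁ < z ≤ a₁' ≤ a₁ + ε''`, so `a₁`, `a₁'` are within `ε''` of `z`: done.
  If `z ≥ a₂'`: the same with `a₂`, `a₂'`.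
* Suppose `a₁' < z < a₂'` (we derive a contradiction). Let `c` be the last zero of `D s₂` left of
  `z`: `a₁' ≤ c < z`. By `hβ` there is a zero `d` of `D s₁` with `|d - c| ≤ ε''`. As `c ∈ (a₁, a₂)`
  and `D s₁ ≠ 0` on `(a₁, a₂)`: `d ≤ a₁` or `d ≥ a₂`. If `d ≤ a₁` then `c - a₁ ≤ ε''`, so `a₁'` and
  `c` are zeros of `D s₂` in `(a₁, a₁ + ε'']`, at distance `< ε'' < ε - |s₂|`: `c = a₁'` by `DF.gap`.
  If `d ≥ a₂` then `a₂ - c ≤ ε''`, so `c` and `a₂'` are zeros of `D s₂` in `[a₂ - ε'', a₂)`, so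
  `c = a₂'`, which contradicts `c < z < a₂'`. So `c = a₁'`, and `D s₂ > 0` on `(a₁', z]` (no zero
  there and `D s₂ z > 0`). By `simple` the derivative of `D s₂` at `a₁'` is positive (it is `≥ 0` as
  `D s₂ > 0` to the right, and `≠ 0`), so `D s₂ < 0` immediately to the left of `a₁'`; but
  `D s₂ a₁ > 0` (as `D s₁ a₁ = 0`), so `D s₂` has a zero in `(a₁, a₁')` (intermediate value theorem),
  at distance `< ε'' < ε - |s₂|` from `a₁'`: contradiction to `DF.gap`.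
-/

open Set Filter Topology Real

namespace TCE

theorem DLem_ivt {φ : ℝ → ℝ} (hc : Continuous φ) {a b : ℝ} (hab : a < b) (h1 : 0 < φ a)
    (h2 : φ b < 0) : ∃ c, a < c ∧ c < b ∧ φ c = 0 := by
  obtain ⟨c, hc1, hc2⟩ := intermediate_value_Icc' hab.le hc.continuousOn ⟨h2.le, h1.le⟩
  refine ⟨c, lt_of_le_of_ne hc1.1 ?_, lt_of_le_of_ne hc1.2 ?_, hc2⟩
  · rintro rfl
    linarith
  · rintro rfl
    linarith

theorem DLem_ivt' {φ : ℝ → ℝ} (hc : Continuous φ) {a b : ℝ} (hab : a < b) (h1 : φ a < 0)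
    (h2 : 0 < φ b) : ∃ c, a < c ∧ c < b ∧ φ c = 0 := by
  obtain ⟨c, hc1, hc2, hc3⟩ := DLem_ivt (φ := fun s => -φ s) hc.neg hab (by linarith) (by linarith)
  exact ⟨c, hc1, hc2, by linarith⟩

/-- A function with a nonzero derivative at the zero `a`, negative to the right of `a`, has
positive values immediately to the left of `a`. -/
theorem DLem_pos_left {φ : ℝ → ℝ} {a b α : ℝ} (hab : a < b) (ha : φ a = 0)
    (hneg : ∀ s, a < s → s < b → φ s < 0) (hα : α ≠ 0) (hd : HasDerivAt φ α a) {l : ℝ}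
    (hl : l < a) : ∃ s, l < s ∧ s < a ∧ 0 < φ s := by
  rcases lt_or_gt_of_ne hα with h | h
  · have h1 := eventually_nhdsWithin_sign_eq_of_deriv_neg (f := φ) (x₀ := a)
      (by rw [hd.deriv]; exact h) ha
    obtain ⟨δ, hδ, h2⟩ := Metric.eventually_nhds_iff.1 h1
    have hm : 0 < min (δ / 2) ((a - l) / 2) := lt_min (by linarith) (by linarith)
    have hm1 : min (δ / 2) ((a - l) / 2) ≤ δ / 2 := min_le_left _ _
    have hm2 : min (δ / 2) ((a - l) / 2) ≤ (a - l) / 2 := min_le_right _ _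
    refine ⟨a - min (δ / 2) ((a - l) / 2), by linarith, by linarith, ?_⟩
    have h3 := h2 (y := a - min (δ / 2) ((a - l) / 2)) (by
      rw [Real.dist_eq, abs_of_nonpos (by linarith)]
      linarith)
    rw [show a - (a - min (δ / 2) ((a - l) / 2)) = min (δ / 2) ((a - l) / 2) by ring,
      sign_pos hm] at h3
    exact sign_eq_one_iff.1 h3
  · exfalso
    have h1 := eventually_nhdsWithin_sign_eq_of_deriv_pos (f := φ) (x₀ := a)
      (by rw [hd.deriv]; exact h) ha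
    obtain ⟨δ, hδ, h2⟩ := Metric.eventually_nhds_iff.1 h1
    have hm : 0 < min (δ / 2) ((b - a) / 2) := lt_min (by linarith) (by linarith)
    have hm1 : min (δ / 2) ((b - a) / 2) ≤ δ / 2 := min_le_left _ _
    have hm2 : min (δ / 2) ((b - a) / 2) ≤ (b - a) / 2 := min_le_right _ _
    have h3 := h2 (y := a + min (δ / 2) ((b - a) / 2)) (by
      rw [Real.dist_eq, abs_of_nonneg (by linarith)]
      linarith)
    rw [show a + min (δ / 2) ((b - a) / 2) - a = min (δ / 2) ((b - a) / 2) by ring,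
      sign_pos hm] at h3
    have h4 := sign_eq_one_iff.1 h3
    have h5 := hneg (a + min (δ / 2) ((b - a) / 2)) (by linarith) (by linarith)
    linarith

/-- one-sided lemma -/
theorem DLem_left {φ ψ : ℝ → ℝ} (hφ : Continuous φ) (hlt : ∀ s, φ s < ψ s) {a b κ α : ℝ}
    (hab : a < b) (ha : φ a = 0) (hneg : ∀ s, a < s → s < b → φ s < 0) (hα : α ≠ 0)
    (hd : HasDerivAt φ α a) (hgap : ∀ c, a - κ < c → c < a → φ c ≠ 0) {t : ℝ} (ht : |t| < κ)
    (h0 : ψ (a + t) = 0) : 0 < t := by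
  by_contra hcon
  have ht0 : t ≤ 0 := not_lt.1 hcon
  rw [abs_of_nonpos ht0] at ht
  have h1 : φ (a + t) < 0 := by
    have := hlt (a + t)
    linarith
  have h2 : a + t < a := by
    refine lt_of_le_of_ne (by linarith) fun e => ?_
    rw [e, ha] at h1
    exact lt_irrefl _ h1
  obtain ⟨s, hs1, hs2, hs3⟩ := DLem_pos_left hab ha hneg hα hd h2
  obtain ⟨c, hc1, hc2, hc3⟩ := DLem_ivt' hφ hs1 h1 hs3
  exact hgap c (by linarith) (by linarith) hc3

/-- the last zero left of `z` -/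
theorem DLem_last {φ : ℝ → ℝ} (hc : Continuous φ) {z c₀ : ℝ} (h0 : φ c₀ = 0) (hc0 : c₀ ≤ z)
    (hz : φ z ≠ 0) : ∃ a, c₀ ≤ a ∧ a < z ∧ φ a = 0 ∧ ∀ s, a < s → s ≤ z → φ s ≠ 0 := by
  have hK : IsCompact (Icc c₀ z ∩ φ ⁻¹' {0}) :=
    isCompact_Icc.inter_right (isClosed_singleton.preimage hc)
  obtain ⟨a, ha, hmax⟩ := hK.exists_isGreatest ⟨c₀, ⟨le_refl _, hc0⟩, h0⟩
  refine ⟨a, ha.1.1, lt_of_le_of_ne ha.1.2 ?_, ha.2, fun s hs1 hs2 hs3 => ?_⟩
  · rintro rfl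
    exact hz ha.2
  · have := hmax ⟨⟨ha.1.1.trans hs1.le, hs2⟩, hs3⟩
    linarith

/-- the first zero right of `z` -/
theorem DLem_first {φ : ℝ → ℝ} (hc : Continuous φ) {z c₀ : ℝ} (h0 : φ c₀ = 0) (hc0 : z ≤ c₀)
    (hz : φ z ≠ 0) : ∃ a, a ≤ c₀ ∧ z < a ∧ φ a = 0 ∧ ∀ s, z ≤ s → s < a → φ s ≠ 0 := by
  obtain ⟨a, h1, h2, h3, h4⟩ := DLem_last (φ := fun s => φ (-s)) (z := -z) (c₀ := -c₀)
    (hc.comp continuous_neg) (by simpa using h0) (by linarith) (by simpa using hz)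
  refine ⟨-a, by linarith, by linarith, h3, fun s hs1 hs2 hs3 => ?_⟩
  exact h4 (-s) (by linarith) (by linarith) (by simpa using hs3)

theorem DF.interp {ε : ℝ} {D : ℝ → ℝ → ℝ} (h : DF ε D) {s₁ u s₂ ε'' : ℝ} (h1 : |s₁| < ε)
    (h2 : |s₂| < ε) (h1u : s₁ < u) (hu2 : u < s₂) (hε1 : ε'' < ε - |s₁|) (hε2 : ε'' < ε - |s₂|)
    (hα : ∀ a, D s₁ a = 0 → ∃ t, |t| ≤ ε'' ∧ D s₂ (a + t) = 0)
    (hβ : ∀ a, D s₂ a = 0 → ∃ t, |t| ≤ ε'' ∧ D s₁ (a + t) = 0) {z : ℝ} (hz : D u z = 0) :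
    (∃ t, |t| ≤ ε'' ∧ D s₁ (z + t) = 0) ∧ ∃ t, |t| ≤ ε'' ∧ D s₂ (z + t) = 0 := by
  have c1 : Continuous (D s₁) := h.cont.comp (Continuous.prodMk_right s₁)
  have c2 : Continuous (D s₂) := h.cont.comp (Continuous.prodMk_right s₂)
  have hlt : ∀ s, D s₁ s < D s₂ s := fun s => by
    have := h.push s₁ s₂ (by linarith) s
    linarith
  have hz1 : D s₁ z < 0 := by
    have := h.push s₁ u h1u.le z
    linarith
  have hz2 : 0 < D s₂ z := by
    have := h.push u s₂ hu2.le z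
    linarith
  -- the zeros of `D s₁` next to `z`
  obtain ⟨b₀, hb₀⟩ := h.ex s₁ h1
  have hper : Function.Periodic (D s₁) π := fun s => h.per s₁ s
  obtain ⟨l, hl1, hl2⟩ := hper.exists_mem_Ico pi_pos b₀ (z - π)
  obtain ⟨r, hr1, hr2⟩ := hper.exists_mem_Ico pi_pos b₀ z
  rw [hb₀] at hl2 hr2
  obtain ⟨a₁, -, ha1z, ha1, ha1n⟩ := DLem_last c1 hl2.symm (by linarith [hl1.2]) hz1.ne
  obtain ⟨a₂, -, hza2, ha2, ha2n⟩ := DLem_first c1 hr2.symm hr1.1 hz1.ne
  -- `D s₁ < 0` on `(a₁, a₂)`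
  have hneg : ∀ s, a₁ < s → s < a₂ → D s₁ s < 0 := by
    intro s hs1 hs2
    by_contra hcon
    rcases lt_trichotomy s z with hsz | hsz | hsz
    · have hs : 0 < D s₁ s := lt_of_le_of_ne (not_lt.1 hcon) (Ne.symm (ha1n s hs1 hsz.le))
      obtain ⟨c, hc1, hc2, hc3⟩ := DLem_ivt c1 hsz hs hz1
      exact ha1n c (by linarith) hc2.le hc3
    · rw [hsz] at hcon
      exact hcon hz1
    · have hs : 0 < D s₁ s := lt_of_le_of_ne (not_lt.1 hcon) (Ne.symm (ha2n s hsz.le hs2))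
      obtain ⟨c, hc1, hc2, hc3⟩ := DLem_ivt' c1 hsz hz1 hs
      exact ha2n c hc1.le (by linarith) hc3
  obtain ⟨α₁, hα1, hd1⟩ := h.simple s₁ h1 a₁ ha1
  obtain ⟨α₂, hα2, hd2⟩ := h.simple s₁ h1 a₂ ha2
  -- zeros of `D s₂`
  obtain ⟨t₁, ht1, ht1'⟩ := hα a₁ ha1
  obtain ⟨t₂, ht2, ht2'⟩ := hα a₂ ha2
  have ht1p : 0 < t₁ := by
    refine DLem_left c1 hlt (ha1z.trans hza2) ha1 hneg hα1 hd1 (κ := ε - |s₁|)
      (fun c hc1 hc2 hc3 => ?_) (ht1.trans_lt hε1) ht1'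
    have := h.gap h1 hc3 ha1 hc2
    linarith
  have ht2n : t₂ < 0 := by
    have := DLem_left (φ := fun s => D s₁ (-s)) (ψ := fun s => D s₂ (-s)) (a := -a₂) (b := -a₁)
      (α := -α₂) (κ := ε - |s₁|) (t := -t₂) (c1.comp continuous_neg) (fun s => hlt (-s))
      (by linarith) (by simpa using ha2) (fun s hs1 hs2 => hneg (-s) (by linarith) (by linarith))
      (by simpa using hα2) ?_ (fun c hc1 hc2 hc3 => ?_) (by rw [abs_neg]; exact ht2.trans_lt hε1)
      (by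
        show D s₂ (-(-a₂ + -t₂)) = 0
        rw [show -(-a₂ + -t₂) = a₂ + t₂ by ring]
        exact ht2')
    · linarith
    · have e1 : HasDerivAt (D s₁) α₂ (-(-a₂)) := by rw [neg_neg]; exact hd2
      have e2 := HasDerivAt.comp (-a₂) e1 (hasDerivAt_neg (-a₂))
      have e3 : α₂ * -1 = -α₂ := by ring
      rw [e3] at e2
      exact e2
    · have := h.gap h1 ha2 hc3 (by linarith)
      linarith
  have ht1a := (abs_le.1 ht1).2
  have ht2a := (abs_le.1 ht2).1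
  rcases le_or_gt z (a₁ + t₁) with hc1 | hc1
  · refine ⟨⟨a₁ - z, ?_, by rw [show z + (a₁ - z) = a₁ by ring]; exact ha1⟩,
      ⟨a₁ + t₁ - z, ?_, by rw [show z + (a₁ + t₁ - z) = a₁ + t₁ by ring]; exact ht1'⟩⟩
    · rw [abs_of_nonpos (by linarith)]
      linarith
    · rw [abs_of_nonneg (by linarith)]
      linarith
  rcases le_or_gt (a₂ + t₂) z with hc2 | hc2
  · refine ⟨⟨a₂ - z, ?_, by rw [show z + (a₂ - z) = a₂ by ring]; exact ha2⟩,
      ⟨a₂ + t₂ - z, ?_, by rw [show z + (a₂ + t₂ - z) = a₂ + t₂ by ring]; exact ht2'⟩⟩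
    · rw [abs_of_nonneg (by linarith)]
      linarith
    · rw [abs_of_nonpos (by linarith)]
      linarith
  exfalso
  obtain ⟨c, hca, hcz, hc0, hcn⟩ := DLem_last c2 ht1' hc1.le hz2.ne'
  obtain ⟨t, ht, ht'⟩ := hβ c hc0
  have hta := abs_le.1 ht
  have hd : c + t ≤ a₁ ∨ a₂ ≤ c + t := by
    by_contra hcon
    push Not at hcon
    exact (hneg _ hcon.1 hcon.2).ne ht'
  rcases hd with hd | hd
  · have hce : c = a₁ + t₁ := by
      by_contra hne
      have := h.gap h2 ht1' hc0 (lt_of_le_of_ne hca (Ne.symm hne))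
      linarith
    have hpos : ∀ s, c < s → s < z → 0 < D s₂ s := by
      intro s hs1 hs2
      by_contra hcon
      have hs : D s₂ s < 0 := lt_of_le_of_ne (not_lt.1 hcon) (hcn s hs1 hs2.le)
      obtain ⟨c', hc1', hc2', hc3'⟩ := DLem_ivt' c2 hs2 hs hz2
      exact hcn c' (by linarith) hc2'.le hc3'
    obtain ⟨α, hα0, hdα⟩ := h.simple s₂ h2 c hc0
    have hac : a₁ < c := by linarith
    obtain ⟨s, hs1, hs2, hs3⟩ := DLem_pos_left (φ := fun s => -D s₂ s) (a := c) (b := z)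
      (α := -α) hcz (by simpa using hc0) (fun s hs1 hs2 => by
        have := hpos s hs1 hs2
        linarith) (by simpa using hα0) hdα.neg hac
    have ha1p : 0 < D s₂ a₁ := by
      have := hlt a₁
      linarith
    obtain ⟨c', hc1', hc2', hc3'⟩ := DLem_ivt c2 hs1 ha1p (by linarith)
    have := h.gap h2 hc3' hc0 (by linarith)
    linarith
  · have := h.gap h2 hc0 ht2' (by linarith)
    linarith

end TCE
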