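import Pool.Agent.TCE.DFx
import Pool.Agent.TCE.DLem

/-!
# ELem (2): the interpolation lemma for the periodic points of the pushed maps

Proof. Let `z` be periodic for `push u`, `b = p z` (periodic for `g`), `z = ρ_s σ_b`, and `D` the
displacement function of `b` (`exists_DF`). `D u s = 0`. The hypotheses `hα`, `hβ` of `DF.interp`:
if `D s₁ a = 0` then `ρ_a σ_b` is periodic for `push s₁`, so `ρ_t (ρ_a σ_b) = ρ_{t + a} σ_b` is
periodic for `push s₂` for some `|t| ≤ ε''`, so `D s₂ (a + t) = 0`. Translate the conclusion back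
in the same way. (`|u| < ε` because `s₁ < u < s₂`.)
-/

open Set Filter Topology Real

namespace TCE

open PCE

variable {M B : Type*} [TopologicalSpace M] [TopologicalSpace B]

theorem ELem_per (e : Ext M B) {θ : ℝ} {x : M} (hx : x ∈ Function.periodicPts (e.push θ)) :
    e.p x ∈ Function.periodicPts e.g := by
  obtain ⟨n, hn, h⟩ := hx
  have h : (e.push θ)^[n] x = x := h
  refine ⟨n, hn, ?_⟩
  have h1 := (sft e θ).cov_iter n x
  have h2 : (((sft e θ).f : M → M))^[n] x = x := h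
  rw [h2] at h1
  exact h1.symm

theorem interp_ext (e : Ext M B) {ε : ℝ} (hε : 0 < ε) (hstar : e.Star ε) {s₁ u s₂ ε'' : ℝ}
    (h1 : |s₁| < ε) (h2 : |s₂| < ε) (h1u : s₁ < u) (hu2 : u < s₂) (hε1 : ε'' < ε - |s₁|)
    (hε2 : ε'' < ε - |s₂|)
    (hα : ∀ x ∈ Function.periodicPts (e.push s₁), ∃ t, |t| ≤ ε'' ∧
      e.ρ t x ∈ Function.periodicPts (e.push s₂))
    (hβ : ∀ x ∈ Function.periodicPts (e.push s₂), ∃ t, |t| ≤ ε'' ∧
      e.ρ t x ∈ Function.periodicPts (e.push s₁))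
    {z : M} (hz : z ∈ Function.periodicPts (e.push u)) :
    (∃ t, |t| ≤ ε'' ∧ e.ρ t z ∈ Function.periodicPts (e.push s₁)) ∧
      ∃ t, |t| ≤ ε'' ∧ e.ρ t z ∈ Function.periodicPts (e.push s₂) := by
  obtain ⟨D, hD, h⟩ := exists_DF e hε hstar (ELem_per e hz)
  obtain ⟨s, hs⟩ : ∃ s, e.ρ s (e.σ (e.p z)) = z := (e.fib _ _).1 (e.p_σ _)
  have hu : |u| < ε := by
    rw [abs_lt] at h1 h2 ⊢
    constructor <;> linarith
  have hzu : D u s = 0 := (h u hu s).2 (by rwa [hs])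
  have key := hD.interp h1 h2 h1u hu2 hε1 hε2 (fun a ha => ?_) (fun a ha => ?_) hzu
  · obtain ⟨⟨t, ht, h3⟩, ⟨t', ht', h4⟩⟩ := key
    refine ⟨⟨t, ht, ?_⟩, ⟨t', ht', ?_⟩⟩
    · have := (h s₁ h1 _).1 h3
      rwa [add_comm, e.add, hs] at this
    · have := (h s₂ h2 _).1 h4
      rwa [add_comm, e.add, hs] at this
  · obtain ⟨t, ht, h3⟩ := hα _ ((h s₁ h1 a).1 ha)
    refine ⟨t, ht, (h s₂ h2 _).2 ?_⟩
    rwa [add_comm, e.add]
  · obtain ⟨t, ht, h3⟩ := hβ _ ((h s₂ h2 a).1 ha)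
    refine ⟨t, ht, (h s₁ h1 _).2 ?_⟩
    rwa [add_comm, e.add]

end TCE
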