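import Pool.Agent.TCE.Loc

/-!
# NearC (2): conjugacies close to the identity move the periodic points inside the circles

Proof. Let `κ > 0`, `η` from `rho_of_close` for `κ`, `c_B` the expansivity constant of `e.g` on its
nonwandering set, `c ≤ η` such that `dist x y ≤ c` implies `dist (p x) (p y) ≤ c_B`
(`exists_unif e.p_cont`).
First claim: let `x` be periodic for `push s`, of period `N`. It lies in `nonwandering (push s)`
(`OmSt.mem_nonwandering_of_periodic`). Let `X : ℤ → M` be its full orbit (`exists_orb_of_periodic`;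
all `X i` are periodic), `Y i = k (X i)`. `Y` is a full orbit of `push s'` and `N`-periodic. The
sequences `p ∘ X` and `p ∘ Y` are full orbits of `g` (`p (push s x) = g (p x)`), `N`-periodic, so
consist of periodic points of `g`, which are in `nonwandering g`; `dist (p (X i)) (p (Y i)) ≤ c_B`,
so `p (X 0) = p (Y 0)`. As `dist (X 0) (Y 0) ≤ c ≤ η` there is `r`, `|r| ≤ κ`, with
`ρ_r x = k x`, which is periodic for `push s'`.
Second claim: let `z` be periodic for `push s'`; `x = k.symm z` is periodic for `push s` (the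
inverse of `k` is a conjugacy: if `z' = push s' z` and `w = push s x`, then `k w = push s' (k x) = z'`,
so `k.symm z' = w`). By the first part `z = k x = ρ_r x`, so `ρ_{-r} z = x`.
-/

open Set Filter Topology Real

namespace TCE

open PCE OmSt

variable {M B : Type*} [MetricSpace M] [CompactSpace M] [MetricSpace B] (e : Ext M B)

omit [CompactSpace M] in
theorem NearC_p {s : ℝ} {X : ℤ → M} (h : Orb (e.push s) X) : Orb e.g fun i => e.p (X i) := by
  intro i
  change e.g (e.p (X i)) = e.p (X (i + 1))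
  rw [← h i, ← e.cov]
  exact (e.p_ρ s _).symm

omit [CompactSpace M] in
theorem NearC_apply {s : ℝ} {x : M} (h : x ∈ nonwandering (e.push s)) :
    e.push s x ∈ nonwandering (e.push s) :=
  nonwandering_apply (f := e.push s) (pushH e s).isOpenMap (pushH e s).continuous h

theorem near_conj (hE : MExp e.g (nonwandering e.g)) : ∀ κ > 0, ∃ c > 0, ∀ (s s' : ℝ)
    (k : nonwandering (e.push s) ≃ₜ nonwandering (e.push s')),
    (∀ x y : nonwandering (e.push s), (y : M) = e.push s x → (k y : M) = e.push s' (k x)) →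
    (∀ x : nonwandering (e.push s), dist (k x : M) x ≤ c) →
    (∀ x ∈ Function.periodicPts (e.push s), ∃ t, |t| ≤ κ ∧
      e.ρ t x ∈ Function.periodicPts (e.push s')) ∧
    ∀ x ∈ Function.periodicPts (e.push s'), ∃ t, |t| ≤ κ ∧
      e.ρ t x ∈ Function.periodicPts (e.push s) := by
  intro κ hκ
  obtain ⟨cB, hcB, hexp⟩ := hE
  obtain ⟨η, hη, hclose⟩ := rho_of_close e κ hκ
  obtain ⟨c', hc', hunif⟩ := exists_unif e.p_cont cB hcB
  refine ⟨min η c', lt_min hη hc', fun s s' k hk hd => ?_⟩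
  have first : ∀ x (hx : x ∈ Function.periodicPts (e.push s)), ∃ r, |r| ≤ κ ∧
      e.ρ r x = (k ⟨x, mem_nonwandering_of_periodic hx⟩ : M) ∧
      (k ⟨x, mem_nonwandering_of_periodic hx⟩ : M) ∈ Function.periodicPts (e.push s') := by
    intro x hx
    obtain ⟨N, hN, hx'⟩ := id hx
    obtain ⟨X, hO, hP, h0, _⟩ := exists_orb_of_periodic hN hx'
    have hXn : ∀ i, X i ∈ nonwandering (e.push s) := fun i =>
      mem_nonwandering_of_periodic (hO.mem_periodicPts hP i)
    have hYO : Orb (e.push s') fun i => (k ⟨X i, hXn i⟩ : M) := fun i =>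
      (hk ⟨X i, hXn i⟩ ⟨X (i + 1), hXn (i + 1)⟩ (hO i).symm).symm
    have hYP : PSeq N fun i => (k ⟨X i, hXn i⟩ : M) := by
      refine ⟨hP.1, fun i => ?_⟩
      change (k ⟨X (i + N), hXn (i + N)⟩ : M) = (k ⟨X i, hXn i⟩ : M)
      have e1 : (⟨X (i + N), hXn (i + N)⟩ : nonwandering (e.push s)) = ⟨X i, hXn i⟩ :=
        Subtype.ext (hP.2 i)
      rw [e1]
    have hpX := NearC_p e hO
    have hpY := NearC_p e hYO
    have hpe : (fun i => e.p (X i)) = fun i => e.p (k ⟨X i, hXn i⟩ : M) := by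
      refine hexp _ _ hpX hpY (fun i => ?_) (fun i => ?_) (fun i => ?_)
      · exact mem_nonwandering_of_periodic (hpX.mem_periodicPts (hP.map e.p) i)
      · exact mem_nonwandering_of_periodic (hpY.mem_periodicPts (hYP.map e.p) i)
      · refine hunif _ _ ?_
        rw [dist_comm]
        exact (hd _).trans (min_le_right _ _)
    obtain ⟨r, hr, hr'⟩ := hclose (X 0) (k ⟨X 0, hXn 0⟩ : M) (congrFun hpe 0)
      (by rw [dist_comm]; exact (hd _).trans (min_le_left _ _))
    have e2 : (⟨X 0, hXn 0⟩ : nonwandering (e.push s)) = ⟨x, mem_nonwandering_of_periodic hx⟩ :=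
      Subtype.ext h0
    have hY0 : (k ⟨X 0, hXn 0⟩ : M) ∈ Function.periodicPts (e.push s') := hYO.mem_periodicPts hYP 0
    rw [e2] at hr' hY0
    rw [h0] at hr'
    exact ⟨r, hr, hr', hY0⟩
  refine ⟨fun x hx => ?_, fun z hz => ?_⟩
  · obtain ⟨r, hr, h1, h2⟩ := first x hx
    exact ⟨r, hr, by rw [h1]; exact h2⟩
  · obtain ⟨N, hN, hz'⟩ := id hz
    obtain ⟨Z, hO, hP, h0, _⟩ := exists_orb_of_periodic hN hz'
    have hZn : ∀ i, Z i ∈ nonwandering (e.push s') := fun i =>
      mem_nonwandering_of_periodic (hO.mem_periodicPts hP i)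
    have hWO : Orb (e.push s) fun i => (k.symm ⟨Z i, hZn i⟩ : M) := by
      intro i
      change e.push s (k.symm ⟨Z i, hZn i⟩ : M) = (k.symm ⟨Z (i + 1), hZn (i + 1)⟩ : M)
      have h1 := hk (k.symm ⟨Z i, hZn i⟩)
        ⟨e.push s (k.symm ⟨Z i, hZn i⟩ : M), NearC_apply e (k.symm ⟨Z i, hZn i⟩).2⟩ rfl
      rw [k.apply_symm_apply] at h1
      have h2 : k ⟨e.push s (k.symm ⟨Z i, hZn i⟩ : M), NearC_apply e (k.symm ⟨Z i, hZn i⟩).2⟩ =
          ⟨Z (i + 1), hZn (i + 1)⟩ := Subtype.ext (h1.trans (hO i))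
      rw [← h2, k.symm_apply_apply]
    have hWP : PSeq N fun i => (k.symm ⟨Z i, hZn i⟩ : M) := by
      refine ⟨hP.1, fun i => ?_⟩
      change (k.symm ⟨Z (i + N), hZn (i + N)⟩ : M) = (k.symm ⟨Z i, hZn i⟩ : M)
      have e1 : (⟨Z (i + N), hZn (i + N)⟩ : nonwandering (e.push s')) = ⟨Z i, hZn i⟩ :=
        Subtype.ext (hP.2 i)
      rw [e1]
    have hW0 : (k.symm ⟨Z 0, hZn 0⟩ : M) ∈ Function.periodicPts (e.push s) :=
      hWO.mem_periodicPts hWP 0
    obtain ⟨r, hr, h1, _⟩ := first _ hW0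
    have h2 : (⟨(k.symm ⟨Z 0, hZn 0⟩ : M), mem_nonwandering_of_periodic hW0⟩ :
        nonwandering (e.push s)) = k.symm ⟨Z 0, hZn 0⟩ := rfl
    rw [h2, k.apply_symm_apply] at h1
    have h3 : e.ρ r (k.symm ⟨Z 0, hZn 0⟩ : M) = z := h1.trans h0
    refine ⟨-r, by rw [abs_neg]; exact hr, ?_⟩
    rw [← h3, e.ρ_neg]
    exact hW0

end TCE
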