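import Pool.Agent.TCE.Cond
import Pool.Agent.TCE.NearC
import Pool.Agent.TCE.ELem

/-!
# Good (3): there is a parameter at which the periodic points are stable

Proof. For `|θ| < ε` choose a conjugacy `h_θ : nonwandering e.f ≃ₜ nonwandering (e.push θ)`. Let
`K = nonwandering e.f`, which is compact (`isClosed_nonwandering`), and `Y = C(K, M)` with the sup
distance, a second countable metric space (Mathlib: `ContinuousMap` instances for compact `K`).
Let `H : ℝ → Y` be `H θ = (x ↦ h_θ x)` for `|θ| < ε` and the inclusion otherwise. By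
`exists_two_sided` there is `s ∈ (-ε/2, ε/2)` such that for every `ε₁ > 0` there are
`s' ∈ (s, s + ε₁)` and `s'' ∈ (s - ε₁, s)` with `dist (H s') (H s) < ε₁`, `dist (H s'') (H s) < ε₁`.
Claim: `Stab0 (sft e s)`. Given `η > 0` let `κ = min η (ε / 4)`, `c` from `near_conj` for `κ`, and
`ε₁ ≤ c` such that `(s - ε₁, s + ε₁) ⊆ (-ε/2, ε/2)`; take `s'`, `s''` as above.
`k = h_s⁻¹` followed by `h_{s'}` is a homeomorphism of `nonwandering (push s)` onto
`nonwandering (push s')` which conjugates (for `h_s⁻¹` see the proof of `OmegaConj.symm` in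
`OmSt/Conj.lean`; `e.f` is a homeomorphism, so open and continuous) and satisfies
`dist (k x) x = dist (H s' y) (H s y) ≤ c` for `x = h_s y`. So `near_conj` gives the hypotheses
`hα`, `hβ` of `interp_ext` for `s₁ = s`, `s₂ = s'`, `ε'' = κ`; in the same way for `s₁ = s''`,
`s₂ = s` (use `k = h_{s''}⁻¹` followed by `h_s`). Note `κ ≤ ε/4 < ε/2 < ε - |s|`, and the same for
`s'`, `s''`. Let `v₀ = min (s' - s) (s - s'') / 2`. Let `|v| ≤ v₀` and `z` periodic for
`(sft e s).push v = e.push (s + v)` (`sft_push`). If `v = 0` take `t = 0`. If `v > 0` then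
`s < s + v < s'` and the first conclusion of `interp_ext` gives `|t| ≤ κ ≤ η` with `ρ_t z` periodic
for `push s = (sft e s).f`. If `v < 0` then `s'' < s + v < s` and the second conclusion of
`interp_ext` does it.
-/

open Set Filter Topology Real

namespace TCE

open PCE OmSt

variable {M B : Type*} [MetricSpace M] [CompactSpace M] [MetricSpace B] (e : Ext M B)

/-- the pair of parameters -/
theorem Good_pair {s s' κ c : ℝ}
    (hnc : ∀ (s s' : ℝ)
      (k : nonwandering (e.push s) ≃ₜ nonwandering (e.push s')),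
      (∀ x y : nonwandering (e.push s), (y : M) = e.push s x → (k y : M) = e.push s' (k x)) →
      (∀ x : nonwandering (e.push s), dist (k x : M) x ≤ c) →
      (∀ x ∈ Function.periodicPts (e.push s), ∃ t, |t| ≤ κ ∧
        e.ρ t x ∈ Function.periodicPts (e.push s')) ∧
      ∀ x ∈ Function.periodicPts (e.push s'), ∃ t, |t| ≤ κ ∧
        e.ρ t x ∈ Function.periodicPts (e.push s))
    (h : nonwandering (e.f : M → M) ≃ₜ nonwandering (e.push s))
    (hh : ∀ x y : nonwandering (e.f : M → M), (y : M) = e.f x → (h y : M) = e.push s (h x))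
    (h' : nonwandering (e.f : M → M) ≃ₜ nonwandering (e.push s'))
    (hh' : ∀ x y : nonwandering (e.f : M → M), (y : M) = e.f x → (h' y : M) = e.push s' (h' x))
    (hd : ∀ x : nonwandering (e.f : M → M), dist (h' x : M) (h x) ≤ c) :
    (∀ x ∈ Function.periodicPts (e.push s), ∃ t, |t| ≤ κ ∧
      e.ρ t x ∈ Function.periodicPts (e.push s')) ∧
    ∀ x ∈ Function.periodicPts (e.push s'), ∃ t, |t| ≤ κ ∧
      e.ρ t x ∈ Function.periodicPts (e.push s) := by
  refine hnc s s' (h.symm.trans h') ?_ ?_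
  · intro x y hxy
    have h0 := nonwandering_apply e.f.isOpenMap e.f.continuous (h.symm x).2
    have h1 := hh (h.symm x) ⟨e.f (h.symm x), h0⟩ rfl
    rw [h.apply_symm_apply] at h1
    have h2 : h ⟨e.f (h.symm x), h0⟩ = y := Subtype.ext (h1.trans hxy.symm)
    have h3 : h.symm y = ⟨e.f (h.symm x), h0⟩ := by
      rw [← h2, h.symm_apply_apply]
    have h4 := hh' (h.symm x) (h.symm y) (by rw [h3])
    exact h4
  · intro x
    have := hd (h.symm x)
    rw [h.apply_symm_apply] at this
    exact this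

open Classical in
theorem exists_good {ε : ℝ} (hε : 0 < ε) (hstar : e.Star ε) (hE : MExp e.g (nonwandering e.g))
    (hconj : ∀ θ, |θ| < ε → OmegaConj e.f (e.push θ)) :
    ∃ s, |s| < ε / 2 ∧ Stab0 (sft e s) := by
  have hK : CompactSpace (nonwandering (e.f : M → M)) :=
    isCompact_iff_compactSpace.mp (isClosed_nonwandering (e.f : M → M)).isCompact
  choose h hh using hconj
  let H : ℝ → C(nonwandering (e.f : M → M), M) := fun θ =>
    if hθ : |θ| < ε then ⟨fun x => (h θ hθ x : M), continuous_subtype_val.comp (h θ hθ).continuous⟩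
    else ⟨fun x => (x : M), continuous_subtype_val⟩
  have hH : ∀ θ (hθ : |θ| < ε) x, H θ x = (h θ hθ x : M) := by
    intro θ hθ x
    simp only [H, dif_pos hθ, ContinuousMap.coe_mk]
  obtain ⟨s, hs1, hs2, hs⟩ := exists_two_sided H (a := -(ε / 2)) (b := ε / 2) (by linarith)
  have hsa : |s| < ε / 2 := abs_lt.mpr ⟨hs1, hs2⟩
  refine ⟨s, hsa, ?_⟩
  intro η hη
  obtain ⟨κ, hκ⟩ : ∃ κ, κ = min η (ε / 4) := ⟨_, rfl⟩
  have hκ0 : 0 < κ := by
    rw [hκ]
    exact lt_min hη (by linarith)
  have hκη : κ ≤ η := by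
    rw [hκ]
    exact min_le_left _ _
  have hκε : κ ≤ ε / 4 := by
    rw [hκ]
    exact min_le_right _ _
  obtain ⟨c, hc, hnc⟩ := near_conj e hE κ hκ0
  have hsε : |s| < ε := by linarith
  have hpair : ∀ s' : ℝ, |s'| < ε / 2 → dist (H s') (H s) < c →
      (∀ x ∈ Function.periodicPts (e.push s), ∃ t, |t| ≤ κ ∧
        e.ρ t x ∈ Function.periodicPts (e.push s')) ∧
      ∀ x ∈ Function.periodicPts (e.push s'), ∃ t, |t| ≤ κ ∧
        e.ρ t x ∈ Function.periodicPts (e.push s) := by
    intro s' hs' hd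
    have hs'ε : |s'| < ε := by linarith
    refine Good_pair e hnc (h s hsε) (hh s hsε) (h s' hs'ε) (hh s' hs'ε) ?_
    intro x
    rw [← hH s' hs'ε x, ← hH s hsε x]
    exact (ContinuousMap.dist_apply_le_dist x).trans hd.le
  obtain ⟨ε₁, hε₁⟩ : ∃ ε₁, ε₁ = min c (ε / 2 - |s|) := ⟨_, rfl⟩
  have hε₁0 : 0 < ε₁ := by
    rw [hε₁]
    exact lt_min hc (by linarith)
  have hε₁c : ε₁ ≤ c := by
    rw [hε₁]
    exact min_le_left _ _
  have hε₁s : ε₁ ≤ ε / 2 - |s| := by
    rw [hε₁]
    exact min_le_right _ _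
  obtain ⟨⟨s₂, a1, a2, a3⟩, s₁, b1, b2, b3⟩ := hs ε₁ hε₁0
  have hs₂ : |s₂| < ε / 2 := by
    have h1 : |s₂| ≤ |s| + |s₂ - s| := by
      have := abs_add_le s (s₂ - s)
      rwa [add_sub_cancel] at this
    rw [abs_of_pos (sub_pos.mpr a1)] at h1
    linarith
  have hs₁ : |s₁| < ε / 2 := by
    have h1 : |s₁| ≤ |s| + |s₁ - s| := by
      have := abs_add_le s (s₁ - s)
      rwa [add_sub_cancel] at this
    rw [abs_of_neg (sub_neg.mpr b2)] at h1
    linarith
  have p2 := hpair s₂ hs₂ (a3.trans_le hε₁c)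
  have p1 := hpair s₁ hs₁ (b3.trans_le hε₁c)
  refine ⟨min (s₂ - s) (s - s₁) / 2, half_pos (lt_min (by linarith) (by linarith)), ?_⟩
  intro v hv z hz
  rw [sft_push] at hz
  have hv1 := min_le_left (s₂ - s) (s - s₁)
  have hv2 := min_le_right (s₂ - s) (s - s₁)
  have hv3 := abs_le.mp hv
  rcases lt_trichotomy v 0 with hv0 | hv0 | hv0
  · obtain ⟨-, t, ht, ht'⟩ := interp_ext e hε hstar (s₁ := s₁) (u := s + v) (s₂ := s) (ε'' := κ)
      (by linarith) hsε (by linarith [hv3.1]) (by linarith) (by linarith) (by linarith) p1.2 p1.1 hz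
    exact ⟨t, ht.trans hκη, ht'⟩
  · subst hv0
    rw [add_zero] at hz
    refine ⟨0, by rw [abs_zero]; exact hη.le, ?_⟩
    have : (sft e s).ρ 0 z = z := (sft e s).zero z
    rw [this]
    exact hz
  · obtain ⟨⟨t, ht, ht'⟩, -⟩ := interp_ext e hε hstar (s₁ := s) (u := s + v) (s₂ := s₂) (ε'' := κ)
      hsε (by linarith) (by linarith) (by linarith [hv3.2]) (by linarith) (by linarith) p2.1 p2.2 hz
    exact ⟨t, ht.trans hκη, ht'⟩

end TCE
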