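import Pool.Agent.TCE.Defs

/-!
# LiftD (3): the lift of a fibre preserving diffeomorphism is differentiable

`hasDerivAt_of_comp`: if `a (F s) = b s` near `s₀`, `F` is continuous at `s₀`, `a` is
differentiable at `t₀ = F s₀` with derivative `a' ≠ 0` and `b` is differentiable at `s₀`, then `F`
is differentiable at `s₀`, with derivative `b' / a'`.
Proof (elementary). Write `a t - a t₀ = a' (t - t₀) + ε(t) (t - t₀)` with `ε(t) → 0` as `t → t₀`
(`HasDerivAt` = little o). With `t = F s → t₀` (continuity): `b s - b s₀ = (a' + ε(F s)) (F s - t₀)`,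
so `F s - F s₀ = (b s - b s₀) / (a' + ε (F s))` for `s` close to `s₀`; divide by `s - s₀` and let
`s → s₀`. (In Lean: `hasDerivAt_iff_tendsto_slope`; or with the function
`q t = if t = t₀ then a' else (a t - a t₀) / (t - t₀)`, which is continuous at `t₀`, nonzero there:
`b s - b s₀ = q (F s) * (F s - F s₀)` for all `s` near `s₀`, so
`slope F s₀ s = slope b s₀ s / q (F s)`.)

`exists_deriv`: fix `s` and set `z = f (ρ_s x) = ρ_{F s} (f x)`. Let `φ = chartAt E z` and `X` the
generator of the circle action. The curve `ψ t = φ (ρ_t (f x))` is differentiable at `t₀ = F s`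
with derivative `v = D φ (z) (X z)` (write `ρ_t (f x) = ρ_{t - t₀} z` and use
`CircleBundle.hasMFDerivAt_orbit`), and `v ≠ 0` because `D φ (z)` is injective
(`OmSt.exists_chart_deriv` or `OmSt.Dc`) and `X z ≠ 0` (`CircleBundle.X_ne`). Choose a continuous
linear functional `ℓ` with `ℓ v ≠ 0` (`exists_dual_vector`), `a t = ℓ (ψ t)`,
`b s' = ℓ (φ (f (ρ_{s'} x)))`; `b` is differentiable at `s` because `f` is (`Dyn.mdiff`), the orbit
map is smooth (`CircleBundle.orbit_smooth`) and `φ` is a chart at `z = f (ρ_s x)`. Since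
`f (ρ_{s'} x) = ρ_{F s'} (f x)`, `a (F s') = b s'` for ALL `s'`. So `hasDerivAt_of_comp` gives
`HasDerivAt F j s`. `j ≥ 0` since `F` is increasing (all slopes are `≥ 0`: `ge_of_tendsto`), and
`j ≠ 0`: put `y = ρ_s x`, `G t = F (t + s) - F s`; then `f (ρ_t y) = ρ_{G t} (f y)`, `G 0 = 0`,
`HasDerivAt G j 0`, so `CircleBundle.D_X` gives `D f y (X y) = j • X (f y)`; if `j = 0` this is `0`,
but `D f y` is injective (`Dyn.D_inv f hr 1`: `D f.symm (f y) * D f y = 1`) and `X y ≠ 0`.
-/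

open Set Filter Topology Manifold ContDiff Metric

namespace OmSt

theorem hasDerivAt_of_comp {a b F : ℝ → ℝ} {s₀ a' b' : ℝ} (ha : HasDerivAt a a' (F s₀))
    (ha' : a' ≠ 0) (hb : HasDerivAt b b' s₀) (hF : ContinuousAt F s₀)
    (h : ∀ᶠ s in 𝓝 s₀, a (F s) = b s) : HasDerivAt F (b' / a') s₀ := by
  have hq0 : ContinuousAt (dslope a (F s₀)) (F s₀) :=
    continuousAt_dslope_same.2 ha.differentiableAt
  have hq1 : ContinuousAt (fun s => dslope a (F s₀) (F s)) s₀ :=
    ContinuousAt.comp (g := dslope a (F s₀)) hq0 hF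
  have hq2 : Tendsto (fun s => dslope a (F s₀) (F s)) (𝓝 s₀) (𝓝 a') := by
    have h1 := hq1.tendsto
    rw [dslope_same, ha.deriv] at h1
    exact h1
  rw [hasDerivAt_iff_tendsto_slope]
  have h1 : Tendsto (fun s => slope b s₀ s / dslope a (F s₀) (F s)) (𝓝[≠] s₀) (𝓝 (b' / a')) :=
    (hasDerivAt_iff_tendsto_slope.1 hb).div (hq2.mono_left nhdsWithin_le_nhds) ha'
  refine h1.congr' ?_
  have h2 : ∀ᶠ s in 𝓝 s₀, dslope a (F s₀) (F s) ≠ 0 := hq2.eventually_ne ha'
  filter_upwards [nhdsWithin_le_nhds h, nhdsWithin_le_nhds h2] with s hs hs2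
  have h3 := sub_smul_dslope a (F s₀) (F s)
  rw [hs, h.self_of_nhds] at h3
  simp only [slope, vsub_eq_sub, smul_eq_mul] at h3 ⊢
  rw [← h3]
  field_simp

variable {E : Type*} [NormedAddCommGroup E] [NormedSpace ℝ E]
  {M : Type*} [TopologicalSpace M] [ChartedSpace E M] [IsManifold 𝓘(ℝ, E) ∞ M]
  {E' : Type*} [NormedAddCommGroup E'] [NormedSpace ℝ E']
  {B : Type*} [TopologicalSpace B] [ChartedSpace E' B]
  {r : ℕ∞}

theorem CircleBundle.exists_deriv (P : CircleBundle E M E' B) (hr : 1 ≤ r) (f : Dyn E M r) {x : M}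
    {F : ℝ → ℝ} (hF : Continuous F) (hm : StrictMono F)
    (h : ∀ s, f (P.ρ s x) = P.ρ (F s) (f x)) (s : ℝ) : ∃ j, 0 < j ∧ HasDerivAt F j s := by
  -- the derivative exists
  obtain ⟨j, hj⟩ : ∃ j, HasDerivAt F j s := by
    set z := f (P.ρ s x) with hz
    obtain ⟨L, L', -, hL'L, hL, -⟩ := exists_chart_deriv (E := E)
      (IsManifold.chart_mem_maximalAtlas z) (mem_chart_source E z)
    have h1 : HasMFDerivAt 𝓘(ℝ, ℝ) 𝓘(ℝ, E) (fun u : ℝ => P.ρ u z) 0
        (ContinuousLinearMap.toSpanSingleton ℝ (P.X z) : ℝ →L[ℝ] E) := P.hasMFDerivAt_orbit z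
    have h2 : ∀ y : M, y = z → HasMFDerivAt 𝓘(ℝ, E) 𝓘(ℝ, E) (chartAt E z) y L := by
      rintro y rfl
      exact hL
    have h3 := HasMFDerivAt.comp (0 : ℝ) (h2 (P.ρ 0 z) (P.zero z)) h1
    have h4 : HasFDerivAt (fun u : ℝ => chartAt E z (P.ρ u z))
        (L.comp (ContinuousLinearMap.toSpanSingleton ℝ (P.X z))) 0 := h3.hasFDerivAt
    have h5 : HasDerivAt (fun u : ℝ => chartAt E z (P.ρ u z)) (L (P.X z)) 0 := by
      have h6 := h4.hasDerivAt
      have h7 : (L.comp (ContinuousLinearMap.toSpanSingleton ℝ (P.X z))) (1 : ℝ) = L (P.X z) := by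
        rw [ContinuousLinearMap.comp_apply, ContinuousLinearMap.toSpanSingleton_apply, one_smul]
      rw [h7] at h6
      exact h6
    have h8 : HasDerivAt (fun t : ℝ => chartAt E z (P.ρ t (f x))) (L (P.X z)) (F s) := by
      have h9 : HasDerivAt (fun u : ℝ => chartAt E z (P.ρ u z)) (L (P.X z)) (F s - F s) := by
        rw [sub_self]
        exact h5
      have h10 := h9.comp_sub_const (F s) (F s)
      have h11 : (fun t : ℝ => chartAt E z (P.ρ (t - F s) z)) =
          fun t : ℝ => chartAt E z (P.ρ t (f x)) := by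
        funext t
        rw [hz, h s, ← P.add, sub_add_cancel]
      rw [h11] at h10
      exact h10
    have hv : L (P.X z) ≠ 0 := by
      intro hv0
      apply P.X_ne z
      have h12 := congrArg (fun T : E →L[ℝ] E => T (P.X z)) hL'L
      change L' (L (P.X z)) = P.X z at h12
      rw [hv0, map_zero] at h12
      exact h12.symm
    obtain ⟨l, hl⟩ := SeparatingDual.exists_ne_zero (R := ℝ) hv
    have ha : HasDerivAt (fun t : ℝ => l (chartAt E z (P.ρ t (f x)))) (l (L (P.X z))) (F s) :=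
      l.hasFDerivAt.comp_hasDerivAt (F s) h8
    have hb : DifferentiableAt ℝ (fun t : ℝ => chartAt E z (f (P.ρ t x))) s := by
      have k1 : MDifferentiableAt 𝓘(ℝ, ℝ) 𝓘(ℝ, E) (fun t : ℝ => P.ρ t x) s :=
        (P.orbit_smooth x).mdifferentiableAt (by simp)
      have k2 : MDifferentiableAt 𝓘(ℝ, E) 𝓘(ℝ, E) f (P.ρ s x) := Dyn.mdiff f hr _
      have k3 : MDifferentiableAt 𝓘(ℝ, ℝ) 𝓘(ℝ, E) (fun t : ℝ => f (P.ρ t x)) s :=
        MDifferentiableAt.comp s k2 k1
      have k4 : MDifferentiableAt 𝓘(ℝ, E) 𝓘(ℝ, E) (chartAt E z) (f (P.ρ s x)) :=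
        mdifferentiableAt_atlas (chart_mem_atlas E z) (mem_chart_source E z)
      have k5 : MDifferentiableAt 𝓘(ℝ, ℝ) 𝓘(ℝ, E) (fun t : ℝ => chartAt E z (f (P.ρ t x))) s :=
        MDifferentiableAt.comp s k4 k3
      exact mdifferentiableAt_iff_differentiableAt.1 k5
    have hb2 : DifferentiableAt ℝ (fun t : ℝ => l (chartAt E z (f (P.ρ t x)))) s :=
      l.differentiableAt.comp s hb
    refine ⟨_, hasDerivAt_of_comp ha hl hb2.hasDerivAt hF.continuousAt
      (Eventually.of_forall fun t => ?_)⟩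
    change l (chartAt E z (P.ρ (F t) (f x))) = l (chartAt E z (f (P.ρ t x)))
    rw [h t]
  refine ⟨j, lt_of_le_of_ne ?_ ?_, hj⟩
  · -- nonnegative
    refine ge_of_tendsto (hasDerivAt_iff_tendsto_slope.1 hj) ?_
    filter_upwards [self_mem_nhdsWithin] with t ht
    rw [slope_def_field]
    rcases lt_or_gt_of_ne (show t ≠ s from ht) with h1 | h1
    · exact div_nonneg_of_nonpos (by linarith [hm h1]) (by linarith)
    · exact div_nonneg (by linarith [hm h1]) (by linarith)
  · -- nonzero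
    intro hj0
    have hG : HasDerivAt (fun t => F (t + s) - F s) j 0 := by
      have h1 : HasDerivAt F j (0 + s) := by
        rw [zero_add]
        exact hj
      exact (h1.comp_add_const 0 s).sub_const (F s)
    have hG0 : (fun t => F (t + s) - F s) 0 = 0 := by
      change F (0 + s) - F s = 0
      rw [zero_add, sub_self]
    have hGh : ∀ t, f (P.ρ t (P.ρ s x)) = P.ρ ((fun t => F (t + s) - F s) t) (f (P.ρ s x)) := by
      intro t
      change f (P.ρ t (P.ρ s x)) = P.ρ (F (t + s) - F s) (f (P.ρ s x))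
      rw [← P.add, h, h, ← P.add, sub_add_cancel]
    have h2 := P.D_X (Dyn.mdiff f hr (P.ρ s x)) hG0 hG hGh
    rw [← hj0, zero_smul] at h2
    have h3 := (Dyn.D_inv f hr 1 (x := P.ρ s x)).1
    have h4 := congrArg (fun T : E →L[ℝ] E => T (P.X (P.ρ s x))) h3
    change (D f.symm^[1] (f^[1] (P.ρ s x)) : E →L[ℝ] E)
      ((D f^[1] (P.ρ s x) : E →L[ℝ] E) (P.X (P.ρ s x))) = P.X (P.ρ s x) at h4
    rw [Function.iterate_one, Function.iterate_one, h2, map_zero] at h4
    exact P.X_ne _ h4.symm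

end OmSt
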