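import Pool.Agent.TCE.LiftA
import Pool.Agent.TCE.LiftD

/-!
# MkE (3): the circle extension of an oriented covering, the star property, the conjugacies

Proof. Follow `Pool/Agent/PCE/Star.lean` (`mkExt`, `exists_star`), with `exists_liftO` and
`exists_deriv` in the place of the projective lifts.
* For every `x` choose `F x` (normalised lift, `exists_liftO`), and set
  `J x = deriv (F x) 0`. By `exists_deriv` each `F x` has a positive derivative everywhere. For all
  `x, s`: `J (ρ_s x) = (F x)' (s)`: with `y = ρ_s x`, both `F y` and `G t = F x (t + s) - F x s` are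
  lifts of `f` at `y` with value `0` at `0` and derivatives at `0`, so `CircleBundle.J_unique` (file
  `PCE/Star.lean`) says that the derivatives at `0` agree. So `F_deriv` and `J_pos` hold and
  `e : PCE.Ext M B` is defined by `ρ := P.ρ`, `p := P.p`, `f := f.toHomeomorph`,
  `g := g.toHomeomorph`, ... .
* The star property: word for word `exists_star`.
* The conjugacies: for `θ` small, `h := pert f (P.rotFam.toFun θ) ∈ N` (`Fam.eventually_mem`; take
  the same `ε` for which `h1` in `exists_star` holds), `h w = f (ρ_θ w)`, so `OmegaConj f h`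
  (`hN.conj f hf h hh`). The homeomorphism `R = ρ_θ` (inverse `ρ_{-θ}`) satisfies
  `R ∘ h = e.push θ ∘ R` (`ρ_θ (f (ρ_θ w)) = push θ (ρ_θ w)`). General lemma: if `R : X ≃ₜ X` and
  `R (h w) = T (R w)` for all `w` then `R` maps `nonwandering h` onto `nonwandering T` and
  `OmegaConj h T` (nonwandering is defined by neighbourhoods: `R '' U`, `R ⁻¹' U`). Compose with
  `OmegaConj.trans` (for `h : Dyn E M r`: `Dyn.isOpenMap h`, `h.continuous`).
-/

open Set Filter Topology Manifold ContDiff Metric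

namespace OmSt

/-- A homeomorphism which conjugates two maps gives a conjugacy of the nonwandering sets. -/
theorem mke_nonwandering {X : Type*} [TopologicalSpace X] {h T : X → X} (R : X ≃ₜ X)
    (hR : ∀ w, R (h w) = T (R w)) (x : X) : x ∈ nonwandering h ↔ R x ∈ nonwandering T := by
  have hs : ∀ n w, R (h^[n] w) = T^[n] (R w) := fun n w =>
    (Function.Semiconj.iterate_right (f := R) (ga := h) (gb := T) hR n) w
  constructor
  · intro hx U hU
    obtain ⟨n, hn, w, ⟨z, hz, hzw⟩, hw⟩ := hx (R ⁻¹' U) (R.continuous.continuousAt hU)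
    refine ⟨n, hn, R w, ⟨R z, hz, ?_⟩, hw⟩
    rw [← hs, hzw]
  · intro hx U hU
    obtain ⟨n, hn, w, ⟨_, ⟨z, hz, rfl⟩, hzw⟩, ⟨w', hw', hw''⟩⟩ :=
      hx (R '' U) (R.isOpenMap.image_mem_nhds hU)
    refine ⟨n, hn, w', ⟨z, hz, ?_⟩, hw'⟩
    apply R.injective
    rw [hs, hzw, hw'']

theorem mke_conj {X : Type*} [TopologicalSpace X] {h T : X → X} (R : X ≃ₜ X)
    (hR : ∀ w, R (h w) = T (R w)) : OmegaConj h T := by
  refine ⟨R.subtype (fun x => mke_nonwandering R hR x), ?_⟩
  intro x y hxy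
  change R y = T (R x)
  rw [hxy, hR]

variable {E : Type*} [NormedAddCommGroup E] [NormedSpace ℝ E]
  {M : Type*} [TopologicalSpace M] [ChartedSpace E M] [IsManifold 𝓘(ℝ, E) ∞ M]
  {E' : Type*} [NormedAddCommGroup E'] [NormedSpace ℝ E']
  {B : Type*} [TopologicalSpace B] [ChartedSpace E' B]
  {r : ℕ∞}

namespace CircleBundle

variable (P : CircleBundle E M E' B)

/-- the chosen lift -/
noncomputable def mkeF (f : Dyn E M r) (hP : P.Oriented f) (x : M) : ℝ → ℝ :=
  (P.exists_liftO f.injective hP x).choose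

theorem mkeF_spec (f : Dyn E M r) (hP : P.Oriented f) (x : M) :
    Continuous (P.mkeF f hP x) ∧ StrictMono (P.mkeF f hP x) ∧ P.mkeF f hP x 0 = 0 ∧
      (∀ s, P.mkeF f hP x (s + Real.pi) = P.mkeF f hP x s + Real.pi) ∧
      ∀ s, f (P.ρ s x) = P.ρ (P.mkeF f hP x s) (f x) :=
  (P.exists_liftO f.injective hP x).choose_spec

/-- the vertical derivative -/
noncomputable def mkeJ (f : Dyn E M r) (hP : P.Oriented f) (x : M) : ℝ := deriv (P.mkeF f hP x) 0

theorem mkeJ_spec (hr : 1 ≤ r) (f : Dyn E M r) (hP : P.Oriented f) (x : M) (s : ℝ) :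
    0 < P.mkeJ f hP (P.ρ s x) ∧ HasDerivAt (P.mkeF f hP x) (P.mkeJ f hP (P.ρ s x)) s := by
  obtain ⟨hFc, hFm, hF0, -, hFe⟩ := P.mkeF_spec f hP x
  obtain ⟨hFc', hFm', hF0', -, hFe'⟩ := P.mkeF_spec f hP (P.ρ s x)
  obtain ⟨j, hj, hd⟩ := P.exists_deriv hr f hFc hFm hFe s
  obtain ⟨j', hj', hd'⟩ := P.exists_deriv hr f hFc' hFm' hFe' 0
  have h1 : P.mkeJ f hP (P.ρ s x) = j' := hd'.deriv
  have h2 : j' = j := by
    refine P.J_unique hr f hF0' hd' hFe' (G := fun t => P.mkeF f hP x (t + s) - P.mkeF f hP x s)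
      (by simp) ?_ fun t => ?_
    · have h2 : HasDerivAt (P.mkeF f hP x) j (0 + s) := by
        rw [zero_add]
        exact hd
      exact (h2.comp_add_const 0 s).sub_const _
    · rw [← P.add, hFe, hFe s, ← P.add]
      congr 1
      ring
  rw [h1, h2]
  exact ⟨hj, hd⟩

/-- The circle extension given by an oriented covering of diffeomorphisms. -/
noncomputable def mkeExt (hr : 1 ≤ r) (f : Dyn E M r) (g : Dyn E' B r)
    (hcov : ∀ x, P.p (f x) = g (P.p x)) (hP : P.Oriented f) : PCE.Ext M B where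
  ρ := P.ρ
  cont := P.smooth.continuous
  zero := P.zero
  add := P.add
  period := P.period
  p := P.p
  p_cont := P.p_smooth.continuous
  p_surj := P.p_surj
  fib := P.fib
  f := f.toHomeomorph
  g := g.toHomeomorph
  cov := hcov
  F := P.mkeF f hP
  F_mono x := (P.mkeF_spec f hP x).2.1
  F_zero x := (P.mkeF_spec f hP x).2.2.1
  F_pi x := (P.mkeF_spec f hP x).2.2.2.1
  F_eq x := (P.mkeF_spec f hP x).2.2.2.2
  J := P.mkeJ f hP
  J_pos x := by
    have := (P.mkeJ_spec hr f hP x 0).1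
    rwa [P.zero] at this
  F_deriv x s := (P.mkeJ_spec hr f hP x s).2

theorem mke_star [FiniteDimensional ℝ E] [T2Space M] [CompactSpace M] (hr : 1 ≤ r)
    {N : Set (Dyn E M r)} (hN : Stab N) {f : Dyn E M r} (g : Dyn E' B r)
    (hcov : ∀ x, P.p (f x) = g (P.p x)) (hP : P.Oriented f) {ε : ℝ}
    (h1 : ∀ θ : ℝ, |θ| < ε → pert f (P.rotFam.toFun θ) ∈ N) :
    (P.mkeExt hr f g hcov hP).Star ε := by
  set e := P.mkeExt hr f g hcov hP with he
  refine fun θ hθ y n hn hy hprod => ?_
  set h : Dyn E M r := pert f (P.rotFam.toFun θ) with hh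
  have hhN : h ∈ N := h1 θ hθ
  have happ : ∀ w, h w = f (P.ρ θ w) := fun w => rfl
  set z := P.ρ (-θ) y with hz
  have hzi : ∀ i, h^[i] z = P.ρ (-θ) ((e.push θ)^[i] y) := by
    intro i
    induction i with
    | zero => rfl
    | succ i ih =>
      rw [Function.iterate_succ_apply', Function.iterate_succ_apply', ih, happ]
      change f (P.ρ θ (P.ρ (-θ) ((e.push θ)^[i] y))) = P.ρ (-θ) (P.ρ θ (f ((e.push θ)^[i] y)))
      rw [← P.add, ← P.add, add_neg_cancel, neg_add_cancel, P.zero, P.zero]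
  have hzi' : ∀ i, P.ρ θ (h^[i] z) = (e.push θ)^[i] y := by
    intro i
    rw [hzi, ← P.add, add_neg_cancel, P.zero]
  have hfix : h^[n] z = z := by rw [hzi, hy]
  have hDh : ∀ w, (D h w : E →L[ℝ] E) (P.X w) = e.J (P.ρ θ w) • P.X (h w) := by
    intro w
    have h2 := e.F_deriv (P.ρ θ w) 0
    rw [e.zero] at h2
    refine P.D_X (Dyn.mdiff h hr w) (e.F_zero (P.ρ θ w)) h2 fun s => ?_
    rw [happ, happ, ← P.add, add_comm θ s, P.add]
    exact e.F_eq (P.ρ θ w) s
  have hDi : ∀ i, (D h^[i] z : E →L[ℝ] E) (P.X z) =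
      (∏ j ∈ Finset.range i, e.J ((e.push θ)^[j] y)) • P.X (h^[i] z) := by
    intro i
    induction i with
    | zero =>
      have : (D h^[0] z : E →L[ℝ] E) = 1 := D_id z
      rw [this]
      simp
    | succ i ih =>
      rw [D_iterate_succ (Dyn.mdiff h hr)]
      change (D h (h^[i] z) : E →L[ℝ] E) ((D h^[i] z : E →L[ℝ] E) (P.X z)) = _
      rw [ih, map_smul, hDh, hzi', Finset.prod_range_succ, smul_smul,
        Function.iterate_succ_apply']
  have h2 := hN.isHyp hr hhN hn hfix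
  have h3 := hDi n
  rw [hprod, one_smul, hfix] at h3
  exact P.X_ne z (not_eig_one h2 h3)

end CircleBundle

theorem CircleBundle.exists_ext [FiniteDimensional ℝ E] [T2Space M] [CompactSpace M]
    (P : CircleBundle E M E' B) (hr : 1 ≤ r)
    {N : Set (Dyn E M r)} (hN : Stab N) {f : Dyn E M r} (hf : f ∈ N) (g : Dyn E' B r)
    (hcov : ∀ x, P.p (f x) = g (P.p x)) (hP : P.Oriented f) :
    ∃ (e : PCE.Ext M B) (ε : ℝ), 0 < ε ∧ e.ρ = P.ρ ∧ e.p = P.p ∧ e.f = f.toHomeomorph ∧
      e.g = g.toHomeomorph ∧ e.Star ε ∧ ∀ θ, |θ| < ε → OmegaConj f (e.push θ) := by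
  have h1 := P.rotFam.eventually_mem f hN.isOpen hf
  rw [Metric.eventually_nhds_iff] at h1
  obtain ⟨ε, hε, h1⟩ := h1
  have h1' : ∀ θ : ℝ, |θ| < ε → pert f (P.rotFam.toFun θ) ∈ N := fun θ hθ =>
    h1 (by rw [dist_zero_right]; exact hθ)
  refine ⟨P.mkeExt hr f g hcov hP, ε, hε, rfl, rfl, rfl, rfl, P.mke_star hr hN g hcov hP h1', ?_⟩
  intro θ hθ
  set h : Dyn E M r := pert f (P.rotFam.toFun θ) with hh
  have hhN : h ∈ N := h1' θ hθ
  have happ : ∀ w, h w = f (P.ρ θ w) := fun w => rfl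
  let R : M ≃ₜ M :=
    { toFun := P.ρ θ
      invFun := P.ρ (-θ)
      left_inv := fun x => by rw [← P.add, neg_add_cancel, P.zero]
      right_inv := fun x => by rw [← P.add, add_neg_cancel, P.zero]
      continuous_toFun := (P.rho_smooth θ).continuous
      continuous_invFun := (P.rho_smooth (-θ)).continuous }
  have h2 : OmegaConj h ((P.mkeExt hr f g hcov hP).push θ) := by
    refine mke_conj R fun w => ?_
    change P.ρ θ (h w) = P.ρ θ (f (P.ρ θ w))
    rw [happ]
  exact (hN.conj f hf h hhN).trans (Dyn.isOpenMap h) h.continuous h2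

end OmSt
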