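import Pool.Agent.TCE.Defs

/-!
# Loc (3): local facts on circle extensions of compact metric spaces

Proofs.
* `rho_small`: the continuous function `(r, x) ↦ dist (ρ_r x) x` on the compact set
  `[-1, 1] × M` vanishes for `r = 0`; uniform continuity (or: sequences `r_k → 0`, `x_k → x` along a
  subsequence, `ρ_{r_k} x_k → ρ_0 x = x`).
* `rho_of_close`: otherwise there are `κ > 0` and `x_k`, `y_k` with `p x_k = p y_k`,
  `dist x_k y_k → 0`, such that no `r` with `|r| ≤ κ` and `ρ_r x_k = y_k` exists. By `e.fib`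
  `y_k = ρ_{r_k} x_k`, and by `e.ρ_add_int` we may take `r_k ∈ [-π/2, π/2]`. Along a subsequence
  `r_k → r`, `x_k → x`, `y_k → x`, so `ρ_r x = x`, `r = j π` (`e.period`), `|r| ≤ π / 2`, so `r = 0`:
  `|r_k| ≤ κ` eventually, contradiction.
* `exists_lft`: first: for `κ > 0` there is `η > 0` such that for all `x`, `b` with
  `dist (p x) b ≤ η` there is `x'` with `p x' = b`, `dist x x' ≤ κ`: otherwise there are `x_k`, `b_k`
  with `dist (p x_k) b_k → 0` without such an `x'`; take `y_k` with `p y_k = b_k` (surjectivity);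
  along a subsequence `x_k → x`, `y_k → y`, `p y = p x`, `x = ρ_s y`; then `x'_k = ρ_s y_k` satisfies
  `p x'_k = b_k` and `x'_k → ρ_s y = x`, so `dist x_k x'_k → 0`: contradiction. Then choose the
  function `L` (classical choice; `L x b = x` if there is no such point).
* `rho_unif`: uniform continuity of `(t, x) ↦ ρ_t x` on the compact set `[-π, π] × M`.
* `F_small`: let `κ > 0`, we may assume `κ < π / 2`. By compactness there is `η₁ > 0` such that
  `dist (ρ_t y) y ≤ η₁`, `κ ≤ |t| ≤ π - κ` is impossible: (a sequence would give `ρ_t y = y` with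
  `κ ≤ |t| ≤ π - κ`, contradiction to `e.period`). By uniform continuity of `f` and `rho_small` there
  is `η > 0` such that for `|t| ≤ η`: `dist (f (ρ_t x)) (f x) ≤ η₁ / 2`, and
  `f (ρ_t x) = ρ_{F x t} (f x)`. So for `|t| ≤ η` the value `F x t` is not in
  `[κ, π - κ] ∪ [-(π - κ), -κ]`. As `F x` is continuous with `F x 0 = 0`, the intermediate value
  theorem gives `|F x t| < κ` for `|t| ≤ η`.
-/

open Set Filter Topology Real

namespace TCE

open PCE

variable {M B : Type*} [MetricSpace M] [CompactSpace M] [MetricSpace B] (e : Ext M B)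

omit [CompactSpace M] [MetricSpace B] in
theorem Loc_min {X : Type*} [TopologicalSpace X] {K : Set X} (hK : IsCompact K) {φ : X → ℝ}
    (hφ : Continuous φ) (h : ∀ z ∈ K, 0 < φ z) : ∃ δ > 0, ∀ z ∈ K, δ ≤ φ z := by
  rcases K.eq_empty_or_nonempty with h0 | h0
  · subst h0
    exact ⟨1, one_pos, fun z hz => absurd hz (Set.notMem_empty z)⟩
  · obtain ⟨z, hz, hmin⟩ := hK.exists_isMinOn h0 hφ.continuousOn
    exact ⟨φ z, h z hz, fun w hw => hmin hw⟩

theorem Loc_disp : Continuous fun q : ℝ × M => dist (e.ρ q.1 q.2) q.2 :=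
  e.cont.dist continuous_snd

theorem Loc_sep {R : Set ℝ} (hR : IsCompact R) (h : ∀ r ∈ R, ∀ k : ℤ, r ≠ k * π) :
    ∃ δ > 0, ∀ r ∈ R, ∀ x, δ ≤ dist (e.ρ r x) x := by
  obtain ⟨δ, hδ, h1⟩ := Loc_min (hR.prod (isCompact_univ (X := M))) (Loc_disp e) (by
    rintro ⟨r, x⟩ ⟨hr, -⟩
    apply dist_pos.2
    intro h2
    obtain ⟨k, hk⟩ := (e.period r x).1 h2
    exact h r hr k hk)
  exact ⟨δ, hδ, fun r hr x => h1 (r, x) ⟨hr, mem_univ x⟩⟩

theorem Loc_compact (a b : ℝ) : IsCompact {r : ℝ | a ≤ |r| ∧ |r| ≤ b} := by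
  apply Metric.isCompact_of_isClosed_isBounded
  · exact (isClosed_le continuous_const continuous_abs).inter
      (isClosed_le continuous_abs continuous_const)
  · apply (Metric.isBounded_Icc (-b) b).subset
    rintro r ⟨-, h⟩
    exact abs_le.1 h

theorem Loc_int {r : ℝ} (h0 : 0 < |r|) (h1 : |r| < π) (k : ℤ) : r ≠ k * π := by
  rintro rfl
  have hpi := pi_pos
  rw [abs_mul, abs_of_pos hpi] at h0 h1
  have h2 : |(k : ℝ)| < 1 := by
    by_contra hc
    push Not at hc
    nlinarith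
  have h3 : |k| < 1 := by exact_mod_cast h2
  have h4 : k = 0 := Int.abs_lt_one_iff.1 h3
  subst h4
  simp at h0

theorem rho_small : ∀ κ > 0, ∃ η > 0, ∀ r x, |r| ≤ η → dist (e.ρ r x) x ≤ κ := by
  intro κ hκ
  have h1 : ∀ᶠ r in 𝓝 (0 : ℝ), ∀ x ∈ (univ : Set M), dist (e.ρ r x) x < κ := by
    apply isCompact_univ.eventually_forall_of_forall_eventually
    intro x _
    have h2 : ContinuousAt (fun q : ℝ × M => dist (e.ρ q.1 q.2) q.2) (0, x) :=
      (Loc_disp e).continuousAt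
    refine h2.eventually (Iio_mem_nhds ?_)
    simp only [e.zero, dist_self]
    exact hκ
  obtain ⟨η, hη, h2⟩ := Metric.eventually_nhds_iff.1 h1
  refine ⟨η / 2, half_pos hη, fun r x hr => (h2 ?_ x (mem_univ x)).le⟩
  rw [Real.dist_eq, sub_zero]
  linarith

theorem Loc_red (s : ℝ) : ∃ k : ℤ, |s + k * π| ≤ π / 2 := by
  have hpi := pi_pos
  refine ⟨-round (s / π), ?_⟩
  have h1 := abs_sub_round (s / π)
  have h2 : s + ((-round (s / π) : ℤ) : ℝ) * π = (s / π - round (s / π)) * π := by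
    push_cast
    field_simp
    ring
  rw [h2, abs_mul, abs_of_pos hpi]
  nlinarith

theorem rho_of_close : ∀ κ > 0, ∃ η > 0, ∀ x y, e.p x = e.p y → dist x y ≤ η →
    ∃ r, |r| ≤ κ ∧ e.ρ r x = y := by
  intro κ hκ
  have hpi := pi_pos
  obtain ⟨δ, hδ, h1⟩ := Loc_sep e (Loc_compact κ (π / 2)) (by
    rintro r ⟨h2, h3⟩ k
    exact Loc_int (by linarith) (by linarith) k)
  refine ⟨δ / 2, half_pos hδ, fun x y hp hd => ?_⟩
  obtain ⟨s, hs⟩ := (e.fib x y).1 hp
  obtain ⟨k, hk⟩ := Loc_red s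
  have hs' : e.ρ (s + k * π) x = y := by rw [e.ρ_add_int, hs]
  refine ⟨s + k * π, ?_, hs'⟩
  by_contra hc
  push Not at hc
  have h2 := h1 _ ⟨hc.le, hk⟩ x
  rw [hs', dist_comm] at h2
  linarith

theorem exists_lft : ∀ κ > 0, ∃ η > 0, ∃ L : M → B → M, ∀ x b, dist (e.p x) b ≤ η →
    e.p (L x b) = b ∧ dist x (L x b) ≤ κ := by
  classical
  intro κ hκ
  have hU : IsOpen {q : M × M | ∃ s, dist q.1 (e.ρ s q.2) < κ} := by
    have h1 : {q : M × M | ∃ s, dist q.1 (e.ρ s q.2) < κ} =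
        ⋃ s : ℝ, {q : M × M | dist q.1 (e.ρ s q.2) < κ} := by
      ext q
      simp
    rw [h1]
    refine isOpen_iUnion fun s => isOpen_lt ?_ continuous_const
    exact continuous_fst.dist ((e.cont.comp (Continuous.prodMk_right s)).comp continuous_snd)
  have hC : IsCompact {q : M × M | ∃ s, dist q.1 (e.ρ s q.2) < κ}ᶜ :=
    hU.isClosed_compl.isCompact
  obtain ⟨δ, hδ, h1⟩ := Loc_min hC ((e.p_cont.comp continuous_fst).dist
    (e.p_cont.comp continuous_snd)) (by
    rintro ⟨x, y⟩ hq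
    apply dist_pos.2
    intro h2
    obtain ⟨s, hs⟩ := (e.fib y x).1 h2.symm
    apply hq
    refine ⟨s, ?_⟩
    show dist x (e.ρ s y) < κ
    rw [hs, dist_self]
    exact hκ)
  have key : ∀ x b, dist (e.p x) b ≤ δ / 2 → ∃ x', e.p x' = b ∧ dist x x' ≤ κ := by
    intro x b hb
    obtain ⟨y, rfl⟩ := e.p_surj b
    by_contra hc
    have h2 := h1 (x, y) (by
      rintro ⟨s, hs⟩
      exact hc ⟨e.ρ s y, e.p_ρ s y, hs.le⟩)
    have h3 : δ ≤ dist (e.p x) (e.p y) := h2
    linarith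
  refine ⟨δ / 2, half_pos hδ, fun x b => if h : dist (e.p x) b ≤ δ / 2 then (key x b h).choose
    else x, fun x b h => ?_⟩
  simp only [dif_pos h]
  exact (key x b h).choose_spec

theorem rho_unif : ∀ κ > 0, ∃ η > 0, ∀ t x y, |t| ≤ π → dist x y ≤ η →
    dist (e.ρ t x) (e.ρ t y) ≤ κ := by
  intro κ hκ
  have hc : Continuous fun q : ℝ × (M × M) => dist (e.ρ q.1 q.2.1) (e.ρ q.1 q.2.2) :=
    (e.cont.comp (continuous_fst.prodMk (continuous_fst.comp continuous_snd))).dist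
      (e.cont.comp (continuous_fst.prodMk (continuous_snd.comp continuous_snd)))
  have hK : IsCompact ((Icc (-π) π ×ˢ (univ : Set (M × M))) ∩
      {q : ℝ × (M × M) | κ ≤ dist (e.ρ q.1 q.2.1) (e.ρ q.1 q.2.2)}) :=
    (isCompact_Icc.prod isCompact_univ).inter_right (isClosed_le continuous_const hc)
  obtain ⟨δ, hδ, h1⟩ := Loc_min hK ((continuous_fst.comp continuous_snd).dist
    (continuous_snd.comp continuous_snd)) (by
    rintro ⟨t, x, y⟩ ⟨-, hq⟩
    apply dist_pos.2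
    rintro h2
    have h3 : x = y := h2
    subst h3
    have h4 : κ ≤ dist (e.ρ t x) (e.ρ t x) := hq
    rw [dist_self] at h4
    linarith)
  refine ⟨δ / 2, half_pos hδ, fun t x y ht hd => ?_⟩
  by_contra hc2
  push Not at hc2
  have h2 := h1 (t, x, y) ⟨⟨abs_le.1 ht, mem_univ _⟩, hc2.le⟩
  have h3 : δ ≤ dist x y := h2
  linarith

theorem F_small : ∀ κ > 0, ∃ η > 0, ∀ x t, |t| ≤ η → |e.F x t| ≤ κ := by
  intro κ hκ
  have hpi := pi_pos
  set κ' := min κ (π / 4) with hκ'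
  have h0 : 0 < κ' := lt_min hκ (by positivity)
  have h1 : κ' ≤ π / 4 := min_le_right _ _
  obtain ⟨η₁, hη₁, h2⟩ := Loc_sep e (Loc_compact κ' (π - κ')) (by
    rintro r ⟨h2, h3⟩ k
    exact Loc_int (by linarith) (by linarith) k)
  obtain ⟨η₂, hη₂, h3⟩ := exists_unif e.f.continuous (η₁ / 2) (half_pos hη₁)
  obtain ⟨η, hη, h4⟩ := rho_small e η₂ hη₂
  have hne : ∀ x t, |t| ≤ η → |e.F x t| ≠ κ' := by
    intro x t ht h5
    have h6 := h2 (e.F x t) ⟨h5.ge, by rw [h5]; linarith⟩ (e.f x)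
    rw [← e.F_eq] at h6
    have h7 := h3 _ _ (h4 t x ht)
    linarith
  refine ⟨η, hη, fun x t ht => ?_⟩
  by_contra hc
  push Not at hc
  have h5 : κ' ≤ |e.F x t| := le_trans (min_le_left _ _) hc.le
  have hcont : Continuous (e.F x) :=
    continuous_iff_continuousAt.2 fun s => (e.F_deriv x s).continuousAt
  have h6 := intermediate_value_uIcc (a := 0) (b := t) (f := fun s => |e.F x s|)
    hcont.abs.continuousOn
  have h7 : κ' ∈ uIcc |e.F x 0| |e.F x t| := by
    rw [e.F_zero, abs_zero]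
    exact Set.mem_uIcc.2 (Or.inl ⟨h0.le, h5⟩)
  obtain ⟨s, hs, h8⟩ := h6 h7
  refine hne x s ?_ h8
  have h9 : |s| ≤ |t| := by
    rcases Set.mem_uIcc.1 hs with ⟨a, b⟩ | ⟨a, b⟩
    · rw [abs_of_nonneg a, abs_of_nonneg (by linarith)]
      exact b
    · rw [abs_of_nonpos b, abs_of_nonpos (by linarith)]
      linarith
  linarith

end TCE
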