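import Pool.Agent.TCE.CLo
import Pool.Agent.TCE.Loc

/-!
# PairL (3): pairs of periodic pseudo-orbits in the same circles

Proof. Let `c > 0` be given by `rho_of_close` for `min (κ / 2) 1`: `p u = p v`, `dist u v ≤ c` imply
`v = ρ_τ u` with `|τ| ≤ min (κ / 2) 1`. Given `η > 0`: let `η₀ > 0` be such that
`dist (ρ_τ u) u ≤ η` for `|τ| ≤ η₀` (`rho_small`), `η₁ = min (η₀ / 2) (κ / 8)`, `δ₁` from `closing`
for `η₁`, `η₂` from `rho_of_close` for `δ₁`. Choose `κ₂ > 0` with: `dist u v ≤ κ₂` implies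
`dist (ρ_τ u) (ρ_τ v) ≤ η₂ / 6` for `|τ| ≤ π` (`rho_unif`), and then `κ₁ > 0` with `κ₁ ≤ κ₂`,
`κ₁ ≤ η₂ / 6`, and a bound `η₄ > 0` with: `dist u v ≤ η₄` implies `dist (f u) (f v) ≤ η₂ / 6`; we
also need `κ₁ ≤ η₄` and `dist u v ≤ κ₁` implies `dist (ρ_τ u) (ρ_τ v) ≤ min (η₂ / 6) η₄`. Let `η₃`,
`L` be from `exists_lft` for `κ₁`, `β_B` from `hB` for `η₃`, `δ ≤ η₂ / 6` such that `dist u v ≤ δ`
implies `dist (p u) (p v) ≤ β_B`.
Let `x`, `y` be as in `PairP`. `p ∘ x = p ∘ y` is an `n`-periodic `β_B`-pseudo-orbit of `g` in `S`;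
let `b` be the `n`-periodic full orbit of `g` shadowing it within `η₃`, `x' i = L (x i) (b i)`,
`n`-periodic, `p (x' i) = b i`, `dist (x i) (x' i) ≤ κ₁`. By `dist (x i) (y i) ≤ c` there is a
number `τ i` with `y i = ρ_{τ i} (x i)`, `|τ i| ≤ min (κ / 2) 1`; choose it as a function of the
pair `(x i, y i)`, so `τ` is `n`-periodic. Put `y' i = ρ_{τ i} (x' i)`: `n`-periodic, `p (y' i) = b i`,
`dist (y' i) (y i) = dist (ρ_{τ i} (x' i)) (ρ_{τ i} (x i)) ≤ min (η₂ / 6) η₄`. As in `PShM`: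
`f (x' i)` and `x' (i + 1)` are in the same circle, at distance
`≤ η₂/6 + δ + η₂/6 ≤ η₂`, so `f (x' i) = ρ_{r i} (x' (i + 1))`, `|r i| ≤ δ₁`; the same for `y'`.
By `closing` (applied to the sequences shifted by `j`) there are `t`, `t'` with `|t|, |t'| ≤ η₁`
and `ρ_t (x' j)`, `ρ_{t'} (y' j) = ρ_{t' + τ j} (x' j)` periodic for `f`. The rotation from the first
to the second is `t' + τ j - t`, of absolute value `≤ 2 (κ / 8) + κ / 2 < κ`, so it is `0` by `Gap`: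
`|τ j| = |t - t'| ≤ 2 η₁ ≤ η₀`, and `dist (x j) (y j) = dist (x j) (ρ_{τ j} (x j)) ≤ η`.
-/

open Set Filter Topology Real

namespace TCE

open PCE

variable {M B : Type*} [MetricSpace M] [CompactSpace M] [MetricSpace B] (e : Ext M B)

theorem PairL_close {b : ℤ → B} (hb : Orb e.g b) {n : ℕ} {z : ℤ → M} (hz : PSeq n z)
    (hzb : ∀ i, e.p (z i) = b i) {η₂ δ₁ η₁ : ℝ}
    (h2 : ∀ x y, e.p x = e.p y → dist x y ≤ η₂ → ∃ r, |r| ≤ δ₁ ∧ e.ρ r x = y)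
    (h1 : ∀ (n : ℕ) (x : ℤ → M) (r : ℤ → ℝ), PSeq n x →
      (∀ i, e.f (x i) = e.ρ (r i) (x (i + 1))) → (∀ i, |r i| ≤ δ₁) →
      ∃ t, |t| ≤ η₁ ∧ e.ρ t (x 0) ∈ Function.periodicPts e.f)
    (hd : ∀ i, dist (e.f (z i)) (z (i + 1)) ≤ η₂) (j : ℤ) :
    ∃ t, |t| ≤ η₁ ∧ e.ρ t (z j) ∈ Function.periodicPts e.f := by
  have h3 : ∀ i, ∃ r, |r| ≤ δ₁ ∧ e.ρ r (z (i + 1)) = e.f (z i) := by
    intro i
    refine h2 _ _ ?_ ?_
    · rw [hzb, e.cov, hzb, hb]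
    · rw [dist_comm]
      exact hd i
  choose r hr hr' using h3
  obtain ⟨t, ht, ht'⟩ := h1 n (fun i => z (i + j)) (fun i => r (i + j)) (hz.shift j)
    (fun i => by
      have h4 := hr' (i + j)
      have e1 : i + j + 1 = i + 1 + j := by ring
      rw [e1] at h4
      exact h4.symm) (fun i => hr (i + j))
  refine ⟨t, ht, ?_⟩
  have e1 : (0 : ℤ) + j = j := zero_add j
  simp only [e1] at ht'
  exact ht'

theorem pair_M (hS : Stab0 e) {κ : ℝ} (hκ : 0 < κ) (hG : Gap e κ) {S : Set B} (hB : PSh e.g S) :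
    PairP e.f e.p (e.p ⁻¹' S) := by
  classical
  have hπ : (1 : ℝ) ≤ π := by linarith [Real.pi_gt_three]
  obtain ⟨c, hc, hc'⟩ := rho_of_close e (min (κ / 2) 1) (lt_min (half_pos hκ) one_pos)
  refine ⟨c, hc, fun η hη => ?_⟩
  obtain ⟨η₀, hη₀, hη₀'⟩ := rho_small e η hη
  obtain ⟨η₁, hη₁, hη₁a, hη₁b⟩ : ∃ η₁ > 0, 2 * η₁ ≤ η₀ ∧ 8 * η₁ ≤ κ := by
    refine ⟨min (η₀ / 2) (κ / 8), lt_min (half_pos hη₀) (by linarith), ?_, ?_⟩
    · have := min_le_left (η₀ / 2) (κ / 8)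
      linarith
    · have := min_le_right (η₀ / 2) (κ / 8)
      linarith
  obtain ⟨δ₁, hδ₁, hδ₁'⟩ := closing e hS η₁ hη₁
  obtain ⟨η₂, hη₂, hη₂'⟩ := rho_of_close e δ₁ hδ₁
  have hη₂6 : 0 < η₂ / 6 := by linarith
  obtain ⟨η₄, hη₄, hη₄'⟩ := exists_unif e.f.continuous (η₂ / 6) hη₂6
  obtain ⟨κ₂, hκ₂, hκ₂'⟩ := rho_unif e (min (η₂ / 6) η₄) (lt_min hη₂6 hη₄)
  obtain ⟨κ₁, hκ₁, hκ₁a, hκ₁b, hκ₁c⟩ : ∃ κ₁ > 0, κ₁ ≤ κ₂ ∧ κ₁ ≤ η₂ / 6 ∧ κ₁ ≤ η₄ :=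
    ⟨min κ₂ (min (η₂ / 6) η₄), lt_min hκ₂ (lt_min hη₂6 hη₄), min_le_left _ _,
      (min_le_right _ _).trans (min_le_left _ _), (min_le_right _ _).trans (min_le_right _ _)⟩
  obtain ⟨η₃, hη₃, L, hL⟩ := exists_lft e κ₁ hκ₁
  obtain ⟨β, hβ, hβ'⟩ := hB η₃ hη₃
  obtain ⟨δ₀, hδ₀, hδ₀'⟩ := exists_unif e.p_cont β hβ
  refine ⟨min δ₀ (η₂ / 6), lt_min hδ₀ hη₂6, fun n x y hxp hyp hxS hyS hpxy hx hy hxy => ?_⟩
  obtain ⟨b, hb, hbp, hbx⟩ := hβ' n (fun i => e.p (x i)) (hxp.map e.p) hxS (fun i => by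
    have h1 := hδ₀' _ _ ((hx i).trans (min_le_left _ _))
    rw [e.cov] at h1
    exact h1)
  -- the corrected sequence
  have hL' : ∀ i, e.p (L (x i) (b i)) = b i ∧ dist (x i) (L (x i) (b i)) ≤ κ₁ := fun i =>
    hL _ _ (by rw [dist_comm]; exact hbx i)
  -- the rotations
  have hτ0 : ∀ u v : M, ∃ r : ℝ, (∃ r, |r| ≤ min (κ / 2) 1 ∧ e.ρ r u = v) →
      |r| ≤ min (κ / 2) 1 ∧ e.ρ r u = v := by
    intro u v
    by_cases h : ∃ r, |r| ≤ min (κ / 2) 1 ∧ e.ρ r u = v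
    · obtain ⟨r, hr⟩ := h
      exact ⟨r, fun _ => hr⟩
    · exact ⟨0, fun h' => absurd h' h⟩
  choose T hT using hτ0
  have hτ : ∀ i, |T (x i) (y i)| ≤ min (κ / 2) 1 ∧ e.ρ (T (x i) (y i)) (x i) = y i := fun i =>
    hT _ _ (hc' _ _ (hpxy i) (hxy i))
  obtain ⟨x', hx'd⟩ : ∃ x' : ℤ → M, x' = fun i => L (x i) (b i) := ⟨_, rfl⟩
  obtain ⟨τ, hτd⟩ : ∃ τ : ℤ → ℝ, τ = fun i => T (x i) (y i) := ⟨_, rfl⟩
  obtain ⟨y', hy'd⟩ : ∃ y' : ℤ → M, y' = fun i => e.ρ (τ i) (x' i) := ⟨_, rfl⟩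
  have hx'p : PSeq n x' := by rw [hx'd]; exact hxp.map₂ hbp L
  have hτp : PSeq n τ := by rw [hτd]; exact hxp.map₂ hyp T
  have hy'p : PSeq n y' := by rw [hy'd]; exact hτp.map₂ hx'p e.ρ
  have hx'b : ∀ i, e.p (x' i) = b i := fun i => by rw [hx'd]; exact (hL' i).1
  have hx'x : ∀ i, dist (x' i) (x i) ≤ κ₁ := fun i => by
    rw [hx'd, dist_comm]; exact (hL' i).2
  have hτ1 : ∀ i, |τ i| ≤ min (κ / 2) 1 := fun i => by rw [hτd]; exact (hτ i).1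
  have hτ2 : ∀ i, e.ρ (τ i) (x i) = y i := fun i => by rw [hτd]; exact (hτ i).2
  have hy'b : ∀ i, e.p (y' i) = b i := fun i => by
    rw [hy'd]
    change e.p (e.ρ (τ i) (x' i)) = b i
    rw [e.p_ρ, hx'b]
  have hy'y : ∀ i, dist (y' i) (y i) ≤ min (η₂ / 6) η₄ := fun i => by
    rw [hy'd, ← hτ2 i]
    exact hκ₂' _ _ _ ((hτ1 i).trans ((min_le_right _ _).trans hπ)) ((hx'x i).trans hκ₁a)
  have hxj : ∀ i, dist (e.f (x' i)) (x' (i + 1)) ≤ η₂ := fun i => by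
    have h1 := hη₄' _ _ ((hx'x i).trans hκ₁c)
    have h2 := (hx i).trans (min_le_right _ _)
    have h3 := (hx'x (i + 1)).trans hκ₁b
    have h4 := dist_triangle4 (e.f (x' i)) (e.f (x i)) (x (i + 1)) (x' (i + 1))
    rw [dist_comm (x (i + 1)) (x' (i + 1))] at h4
    linarith
  have hyj : ∀ i, dist (e.f (y' i)) (y' (i + 1)) ≤ η₂ := fun i => by
    have h1 := hη₄' _ _ ((hy'y i).trans (min_le_right _ _))
    have h2 := (hy i).trans (min_le_right _ _)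
    have h3 := (hy'y (i + 1)).trans (min_le_left _ _)
    have h4 := dist_triangle4 (e.f (y' i)) (e.f (y i)) (y (i + 1)) (y' (i + 1))
    rw [dist_comm (y (i + 1)) (y' (i + 1))] at h4
    linarith
  intro j
  obtain ⟨t, ht, ht'⟩ := PairL_close e hb hx'p hx'b hη₂' hδ₁' hxj j
  obtain ⟨s, hs, hs'⟩ := PairL_close e hb hy'p hy'b hη₂' hδ₁' hyj j
  have hr : s + τ j - t = 0 := by
    refine hG (e.ρ t (x' j)) (s + τ j - t) ht' ?_ ?_
    · have e1 : e.ρ (s + τ j - t) (e.ρ t (x' j)) = e.ρ s (y' j) := by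
        rw [hy'd]
        change _ = e.ρ s (e.ρ (τ j) (x' j))
        rw [← e.add, ← e.add]
        congr 1
        ring
      rw [e1]
      exact hs'
    · have h1 := abs_le.1 hs
      have h2 := abs_le.1 ht
      have h3 := abs_le.1 ((hτ1 j).trans (min_le_left _ _))
      rw [abs_lt]
      constructor <;> linarith
  have hτj : |τ j| ≤ η₀ := by
    have h1 := abs_le.1 hs
    have h2 := abs_le.1 ht
    rw [abs_le]
    constructor <;> linarith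
  have h1 := hη₀' (τ j) (x j) hτj
  rw [hτ2, dist_comm] at h1
  exact h1

end TCE
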