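import Pool.Agent.TCE.Defs

/-!
# RecP (2): recurrent and nonwandering points are limits of periodic points

Proof. `mem_of_return`: given `α > 0` let `β` be from `PSh` for `α / 2`; let `y`, `n` be given by the
hypothesis for `min β (α / 2)`. The `n`-periodic sequence `i ↦ T^[(i % n)] y` (`i % n` as a natural
number) is in `S` and is a `β`-pseudo-orbit: the only error is at `i % n = n - 1`:
`dist (T^[n] y) y ≤ β`. It is shadowed by a periodic full orbit, so there is a periodic point `q`
(`Orb.mem_periodicPts`) with `dist q y ≤ α / 2`, and `dist q x ≤ α`.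
`mem_of_recurrent`: take `y = x` and `n` with `T^[n] x` close to `x`, `n ≥ 1`.
`mem_of_nonwandering`: for `x` nonwandering and `U = ball x (α / 2)`: there are `n > 0` and `y ∈ U`
with `T^[n] y ∈ U`.
-/

open Set Filter Topology Real

namespace TCE

open OmSt

variable {X : Type*} [MetricSpace X]

theorem mem_of_return {T : X → X} {S : Set X} (h : PSh T S) {x : X}
    (hx : ∀ α > 0, ∃ y, dist y x ≤ α ∧ (∀ i : ℕ, T^[i] y ∈ S) ∧ ∃ n > 0, dist (T^[n] y) y ≤ α) :
    x ∈ closure (Function.periodicPts T) := by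
  rw [Metric.mem_closure_iff]
  intro α hα
  obtain ⟨β, hβ, h1⟩ := h (α / 4) (by positivity)
  obtain ⟨y, hy, hyS, n, hn, hyn⟩ := hx (min β (α / 4)) (lt_min hβ (by positivity))
  have hn' : (0 : ℤ) < n := by exact_mod_cast hn
  obtain ⟨z, hz, hzp, hzd⟩ := h1 n (fun i => T^[(i % n).toNat] y)
    ⟨hn, fun i => by simp only [Int.add_emod_right]⟩ (fun i => hyS _) (by
    intro i
    change dist (T (T^[(i % n).toNat] y)) (T^[((i + 1) % n).toNat] y) ≤ β
    rw [← Function.iterate_succ_apply' T]
    obtain ⟨r, hr⟩ := Int.eq_ofNat_of_zero_le (Int.emod_nonneg i hn'.ne')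
    have hrn : r < n := by
      have := Int.emod_lt_of_pos i hn'
      rw [hr] at this
      exact_mod_cast this
    have e1 : (i + 1) % n = ((r + 1 : ℕ) : ℤ) % n := by
      rw [← Int.emod_add_emod, hr]
      push_cast
      rfl
    have e2 : (((r + 1 : ℕ) : ℤ) % n).toNat = (r + 1) % n := by
      rw [← Int.natCast_mod]
      exact Int.toNat_natCast _
    rw [e1, e2, hr, Int.toNat_natCast]
    rcases Nat.lt_or_ge (r + 1) n with h2 | h2
    · rw [Nat.mod_eq_of_lt h2, dist_self]
      exact hβ.le
    · have h3 : r + 1 = n := by omega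
      change dist (T^[r + 1] y) _ ≤ β
      rw [h3, Nat.mod_self]
      exact hyn.trans (min_le_left _ _))
  refine ⟨z 0, hz.mem_periodicPts hzp 0, ?_⟩
  have h2 : dist (z 0) y ≤ α / 4 := by
    have := hzd 0
    simpa using this
  have h3 : dist y x ≤ α / 4 := hy.trans (min_le_right _ _)
  calc dist x (z 0) ≤ dist x y + dist y (z 0) := dist_triangle _ _ _
    _ = dist y x + dist (z 0) y := by rw [dist_comm x, dist_comm y (z 0)]
    _ < α := by linarith

theorem mem_of_recurrent {T : X → X} {S : Set X} (h : PSh T S) {x : X} (hx : Recurrent T x)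
    (hxS : ∀ i : ℕ, T^[i] x ∈ S) : x ∈ closure (Function.periodicPts T) := by
  refine mem_of_return h fun α hα => ?_
  obtain ⟨n, hn, h1⟩ := hx (Metric.ball x α) (Metric.ball_mem_nhds x hα) 1
  exact ⟨x, by rw [dist_self]; exact hα.le, hxS, n, hn, (Metric.mem_ball.1 h1).le⟩

theorem mem_of_nonwandering {T : X → X} (h : PSh T univ) {x : X} (hx : x ∈ nonwandering T) :
    x ∈ closure (Function.periodicPts T) := by
  refine mem_of_return h fun α hα => ?_
  obtain ⟨n, hn, z, ⟨y, hy, rfl⟩, hz⟩ := hx (Metric.ball x (α / 2)) (Metric.ball_mem_nhds x (by positivity))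
  rw [Metric.mem_ball] at hy hz
  refine ⟨y, by linarith, fun _ => mem_univ _, n, hn, ?_⟩
  have := dist_triangle_right (T^[n] y) y x
  linarith

end TCE
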