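import Pool.Agent.TCE.ClUp

/-!
# ShClo (2): shadowing on the closure of the periodic points

Proof. Let `Λ = closure (periodicPts T)`, `α > 0`, `δ` from `h : PSh T S` for `α`, `δ'` from
`close_up` for `δ`; take `β = δ'`. Let `x : ℤ → X` be a `β`-pseudo-orbit in `Λ`. For every `m : ℕ`
apply `close_up` to the sequence `i ↦ x (i - m)` and the length `2 m`: there is a periodic
`δ`-pseudo-orbit `z` in `Λ ⊆ S` with `z i = x (i - m)` for `0 ≤ i ≤ 2 m`, and by `PSh` a periodic full
orbit `y` with `dist (y i) (z i) ≤ α`. Put `Y m i = y (i + m)`: a full orbit of periodic points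
(`Orb.mem_periodicPts`) with `dist (Y m i) (x i) ≤ α` for `|i| ≤ m`. By compactness (an ultrafilter
finer than `atTop` on `ℕ`, `OmSt.exists_lim`, or a subsequence) `Y m 0` converges to a point `a`.
The full orbit of `a` is `y i = T^i a` for `i ≥ 0` and `T^{-1}` iterated for `i < 0` (for instance
`OmSt.zi T.toEquiv i a`, with `continuous_zi`, or `Function.iterate` of `T` and `T.symm`); it is the
limit of `Y m i`, so `y i ∈ Λ` and `dist (y i) (x i) ≤ α` for all `i`.
-/

open Set Filter Topology Real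

namespace TCE

variable {X : Type*} [MetricSpace X] [CompactSpace X]

theorem msh_of_psh (T : X ≃ₜ X) {S : Set X} (h : PSh T S)
    (hS : closure (Function.periodicPts T) ⊆ S) : MSh T (closure (Function.periodicPts T)) := by
  intro α hα
  obtain ⟨δ, hδ, h1⟩ := h α hα
  obtain ⟨δ', hδ', h2⟩ := close_up T δ hδ
  refine ⟨δ', hδ', fun x hxS hx => ?_⟩
  have h3 : ∀ m : ℕ, ∃ Y : ℤ → X, Orb T Y ∧ (∀ i, Y i ∈ closure (Function.periodicPts T)) ∧
      ∀ i : ℤ, -(m : ℤ) ≤ i → i ≤ m → dist (Y i) (x i) ≤ α := by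
    intro m
    obtain ⟨n, z, hmn, hz1, hz2, hz3, hz4⟩ := h2 (2 * m) (fun i => x (i - m)) (fun i _ _ => hxS _)
      (fun i _ _ => by
        have := hx (i - m)
        have e : (i : ℤ) - m + 1 = i + 1 - m := by ring
        rw [e] at this
        exact this)
    obtain ⟨y, hy1, hy2, hy3⟩ := h1 n z hz1 (fun i => hS (hz2 i)) hz3
    refine ⟨fun i => y (i + m), hy1.shift m,
      fun i => subset_closure (hy1.mem_periodicPts hy2 _), fun i hi hi' => ?_⟩
    have := hy3 (i + m)
    obtain ⟨j, hj⟩ := Int.eq_ofNat_of_zero_le (show 0 ≤ i + m by linarith)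
    rw [hj] at this
    have e : z (j : ℤ) = x (j - m) := hz4 j (Nat.zero_le _) (by omega)
    rw [e] at this
    have e2 : (j : ℤ) - m = i := by omega
    rw [e2] at this
    change dist (y (i + m)) (x i) ≤ α
    rw [hj]
    exact this
  choose Y hY1 hY2 hY3 using h3
  obtain ⟨a, ha⟩ := OmSt.exists_lim (fun m => Y m 0)
  have orbz : ∀ b, Orb T (fun i => OmSt.zi T.toEquiv i b) := by
    intro b i
    change T (OmSt.zi T.toEquiv i b) = OmSt.zi T.toEquiv (i + 1) b
    rw [add_comm, OmSt.zi_add]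
    simp [OmSt.zi]
  have h4 : ∀ m i, Y m i = OmSt.zi T.toEquiv i (Y m 0) := by
    intro m i
    exact congrFun (Orb.eq_of T.injective (hY1 m) (orbz (Y m 0)) (j := 0) (by simp [OmSt.zi_zero])) i
  have h5 : ∀ i, Tendsto (fun m => Y m i) (hyperfilter ℕ) (𝓝 (OmSt.zi T.toEquiv i a)) := by
    intro i
    simp only [h4 _ i]
    exact ((OmSt.continuous_zi T i).tendsto a).comp ha
  refine ⟨fun i => OmSt.zi T.toEquiv i a, orbz a, fun i => ?_, fun i => ?_⟩
  · exact isClosed_closure.mem_of_tendsto (h5 i) (Eventually.of_forall fun m => hY2 m i)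
  · refine le_of_tendsto ((h5 i).dist tendsto_const_nhds) ?_
    have h6 : ∀ᶠ m : ℕ in (hyperfilter ℕ : Filter ℕ), i.natAbs ≤ m :=
      Nat.hyperfilter_le_atTop (eventually_ge_atTop i.natAbs)
    filter_upwards [h6] with m hm
    exact hY3 m i (by omega) (by omega)

end TCE
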