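import Pool.Agent.TCE.Defs

/-!
# TopM (2): the topological and the metric notions agree on compact metric spaces

Proof. On a compact metric space an open set `U ⊆ X × X` which contains the diagonal contains
`{(x, y) | dist x y ≤ ε}` for some `ε > 0` (`TopM_nhd`; compactness of the diagonal, Lebesgue number
lemma, or: otherwise `(x_k, y_k) ∉ U` with `dist x_k y_k → 0`, a convergent subsequence tends to a
point `(x, x) ∈ U`), and `{(x, y) | dist x y < ε}` is an open set which contains the diagonal.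
All statements follow at once.
-/

open Set Filter Topology Real

namespace TCE

variable {X : Type*} [MetricSpace X] [CompactSpace X]

theorem TopM_nhd {U : Set (X × X)} (hU : IsOpen U) (hd : ∀ x, (x, x) ∈ U) :
    ∃ ε > 0, ∀ x y : X, dist x y ≤ ε → (x, y) ∈ U := by
  have h1 : IsCompact (range fun x : X => (x, x)) :=
    isCompact_range (continuous_id.prodMk continuous_id)
  have h2 : (range fun x : X => (x, x)) ⊆ U := by
    rintro _ ⟨x, rfl⟩
    exact hd x
  obtain ⟨δ, hδ, h3⟩ := h1.exists_thickening_subset_open hU h2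
  refine ⟨δ / 2, half_pos hδ, fun x y hxy => h3 ?_⟩
  rw [Metric.mem_thickening_iff]
  refine ⟨(x, x), ⟨x, rfl⟩, ?_⟩
  rw [Prod.dist_eq]
  simp only [dist_self]
  rw [dist_comm y x]
  exact max_lt hδ (hxy.trans_lt (half_lt_self hδ))

theorem TopM_open (ε : ℝ) : IsOpen {q : X × X | dist q.1 q.2 < ε} :=
  isOpen_lt (continuous_fst.dist continuous_snd) continuous_const

theorem mexp_iff {f : X → X} {Λ : Set X} : MExp f Λ ↔ ExpansiveOn f Λ := by
  constructor
  · rintro ⟨c, hc, h⟩
    refine ⟨{q | dist q.1 q.2 < c}, TopM_open c, fun x => ?_, fun x y hx hy hxΛ hyΛ hxy => ?_⟩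
    · change dist x x < c
      rw [dist_self]
      exact hc
    · exact h x y hx hy hxΛ hyΛ fun i => (hxy i).le
  · rintro ⟨U, hU, hd, h⟩
    obtain ⟨ε, hε, h1⟩ := TopM_nhd hU hd
    exact ⟨ε, hε, fun x y hx hy hxΛ hyΛ hxy => h x y hx hy hxΛ hyΛ fun i => h1 _ _ (hxy i)⟩

theorem msh_iff {f : X → X} {Λ : Set X} : MSh f Λ ↔ ShadowingOn f Λ := by
  constructor
  · intro h V hV hVd
    obtain ⟨α, hα, h1⟩ := TopM_nhd hV hVd
    obtain ⟨β, hβ, h2⟩ := h α hα
    refine ⟨{q | dist q.1 q.2 < β}, TopM_open β, fun x => ?_, fun x hxΛ hx => ?_⟩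
    · change dist x x < β
      rw [dist_self]
      exact hβ
    · obtain ⟨y, hy, hyΛ, hyx⟩ := h2 x hxΛ fun i => (hx i).le
      exact ⟨y, hy, hyΛ, fun i => h1 _ _ (by rw [dist_comm]; exact hyx i)⟩
  · intro h α hα
    obtain ⟨W, hW, hWd, h1⟩ := h {q | dist q.1 q.2 < α} (TopM_open α) fun x => by
      change dist x x < α
      rw [dist_self]
      exact hα
    obtain ⟨β, hβ, h2⟩ := TopM_nhd hW hWd
    refine ⟨β, hβ, fun x hxΛ hx => ?_⟩
    obtain ⟨y, hy, hyΛ, hyx⟩ := h1 x hxΛ fun i => h2 _ _ (hx i)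
    exact ⟨y, hy, hyΛ, fun i => by rw [dist_comm]; exact (hyx i).le⟩

theorem MCR.chainRec {f : X → X} {x : X} (h : MCR f x) : ChainRec f x := by
  intro U hU hd
  obtain ⟨δ, hδ, h1⟩ := TopM_nhd hU hd
  obtain ⟨n, z, hz, hp, h0⟩ := h δ hδ
  refine ⟨n, fun i => z i, hz.1, by simpa using h0, ?_, fun i _ => ?_⟩
  · have := hz.2 0
    rw [zero_add] at this
    change z n = x
    rw [this, h0]
  · have := h1 _ _ (hp i)
    simpa using this

end TCE
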