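import Pool.Agent.TCE.Defs

/-!
# Trf (3): transfer by a conjugacy of the nonwandering sets

Let `f`, `T` be homeomorphisms of the compact metric space `X` and
`h : nonwandering f ≃ₜ nonwandering T` with `h (f x) = T (h x)`. Periodic points are nonwandering
(`mem_nonwandering_of_periodic`), the nonwandering sets are closed (`isClosed_nonwandering`), so
compact, and invariant (`nonwandering_apply`). Write `Λ_f`, `Λ_T` for the closures of the sets of
periodic points; they lie in the nonwandering sets.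
* `h` maps periodic points to periodic points, and so does `h⁻¹` (`OmegaConj.iterate`,
  `OmegaConj.symm`), so `h` maps `Λ_f` onto `Λ_T`: if `x ∈ Λ_f`, `x = lim x_k` with `x_k` periodic,
  `h x = lim h x_k`.
* `trf_rec`: if `x` is recurrent for `f`, then `x ∈ nonwandering f`
  (`mem_nonwandering_of_recurrent`), `h x` is recurrent for `T` (`h (f^n x) = T^n (h x)`, continuity of
  `h`), so `h x ∈ Λ_T`, so `x ∈ Λ_f`.
* `trf_exp`: `h` is uniformly continuous: for the expansivity constant `c` of `T` there is `c' > 0`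
  such that `dist x y ≤ c'`, `x, y ∈ nonwandering f`, imply `dist (h x) (h y) ≤ c`. If `x, y` are full
  orbits of `f` in `Λ_f` with `dist (x i) (y i) ≤ c'`, then `h ∘ x`, `h ∘ y` are full orbits of `T` in
  `Λ_T` which are `c`-close, so they are equal, and `x = y`.
* `trf_sh`: given `α`, let `α'` be such that `dist u v ≤ α'` in `nonwandering T` implies
  `dist (h⁻¹ u) (h⁻¹ v) ≤ α`; `β'` from `MSh T Λ_T` for `α'`; `β` such that `dist u v ≤ β` in
  `nonwandering f` implies `dist (h u) (h v) ≤ β'`. If `x` is a `β`-pseudo-orbit of `f` in `Λ_f` then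
  `h ∘ x` is a `β'`-pseudo-orbit of `T` in `Λ_T` (`T (h (x i)) = h (f (x i))`); shadow it by `y` in
  `Λ_T`, and take `h⁻¹ ∘ y`.
* `trf_nw`: if `nonwandering T ⊆ Λ_T` then for `x ∈ nonwandering f`: `h x ∈ Λ_T`, so `x ∈ Λ_f`.
-/

open Set Filter Topology Real

namespace TCE

open OmSt

variable {X : Type*} [MetricSpace X] [CompactSpace X] {f T : X ≃ₜ X}

/-- A conjugacy in both directions. -/
structure Trf_H (f T : X ≃ₜ X) where
  h : nonwandering f ≃ₜ nonwandering T
  h1 : ∀ x y : nonwandering f, (y : X) = f x → (h y : X) = T (h x)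
  h2 : ∀ x y : nonwandering T, (y : X) = T x → (h.symm y : X) = f (h.symm x)

theorem Trf_exists (h : OmegaConj f T) : Nonempty (Trf_H f T) := by
  obtain ⟨h, hh⟩ := h
  refine ⟨⟨h, hh, ?_⟩⟩
  intro x y hxy
  have h1 := hh (h.symm x) ⟨f (h.symm x),
    nonwandering_apply f.isOpenMap f.continuous (h.symm x).2⟩ rfl
  rw [h.apply_symm_apply] at h1
  have h2 : h ⟨f (h.symm x), nonwandering_apply f.isOpenMap f.continuous (h.symm x).2⟩ = y :=
    Subtype.ext (h1.trans hxy.symm)
  rw [← h2, h.symm_apply_apply]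

/-- The inverse conjugacy. -/
def Trf_H.symm (H : Trf_H f T) : Trf_H T f :=
  ⟨H.h.symm, H.h2, by rw [Homeomorph.symm_symm]; exact H.h1⟩

theorem Trf_cl : closure (Function.periodicPts f) ⊆ nonwandering f :=
  closure_minimal (fun _ hx => mem_nonwandering_of_periodic hx) (isClosed_nonwandering f)

theorem Trf_map (H : Trf_H f T) (x : nonwandering f)
    (hx : (x : X) ∈ closure (Function.periodicPts f)) :
    (H.h x : X) ∈ closure (Function.periodicPts T) := by
  have h1 : x ∈ closure {y : nonwandering f | (y : X) ∈ Function.periodicPts f} := by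
    rw [closure_subtype]
    have e : (Subtype.val '' {y : nonwandering f | (y : X) ∈ Function.periodicPts f}) =
        Function.periodicPts f := by
      ext z
      constructor
      · rintro ⟨y, hy, rfl⟩
        exact hy
      · intro hz
        exact ⟨⟨z, mem_nonwandering_of_periodic hz⟩, hz, rfl⟩
    rw [e]
    exact hx
  have hc : Continuous fun y : nonwandering f => (H.h y : X) :=
    continuous_subtype_val.comp H.h.continuous
  have h2 := image_closure_subset_closure_image hc ⟨x, h1, rfl⟩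
  refine closure_mono ?_ h2
  rintro _ ⟨y, ⟨n, hn, hn'⟩, rfl⟩
  refine ⟨n, hn, ?_⟩
  have h3 := OmegaConj.iterate f.isOpenMap f.continuous H.h1 n y y hn'.symm
  exact h3.symm

theorem Trf_unif (H : Trf_H f T) : ∀ κ > 0, ∃ η > 0, ∀ x y : nonwandering f,
    dist (x : X) y ≤ η → dist (H.h x : X) (H.h y) ≤ κ := by
  have : CompactSpace (nonwandering f) :=
    isCompact_iff_compactSpace.1 (isClosed_nonwandering f).isCompact
  have hc : Continuous fun y : nonwandering f => (H.h y : X) :=
    continuous_subtype_val.comp H.h.continuous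
  exact exists_unif hc

theorem Trf_orb (H : Trf_H f T) {x : ℤ → X} (hx : Orb f x) (hn : ∀ i, x i ∈ nonwandering f) :
    Orb T fun i => (H.h ⟨x i, hn i⟩ : X) :=
  fun i => (H.h1 ⟨x i, hn i⟩ ⟨x (i + 1), hn (i + 1)⟩ (hx i).symm).symm

theorem Trf_rec_map (H : Trf_H f T) {x : X} (hx : Recurrent f x) :
    Recurrent T (H.h ⟨x, mem_nonwandering_of_recurrent hx⟩ : X) := by
  have hxΩ := mem_nonwandering_of_recurrent hx
  intro U hU N
  have h1 : Continuous fun z : nonwandering f => (H.h z : X) :=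
    continuous_subtype_val.comp H.h.continuous
  have h2 : (fun z : nonwandering f => (H.h z : X)) ⁻¹' U ∈ 𝓝 (⟨x, hxΩ⟩ : nonwandering f) :=
    h1.continuousAt hU
  obtain ⟨V, hV, hVU⟩ := mem_nhds_subtype _ _ _ |>.1 h2
  obtain ⟨n, hn, hn'⟩ := hx V hV N
  refine ⟨n, hn, ?_⟩
  have h3 : (⟨f^[n] x, nonwandering_iterate f.isOpenMap f.continuous hxΩ n⟩ : nonwandering f) ∈
      (fun z : nonwandering f => (H.h z : X)) ⁻¹' U := hVU hn'
  have h4 := OmegaConj.iterate f.isOpenMap f.continuous H.h1 n ⟨x, hxΩ⟩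
    ⟨f^[n] x, nonwandering_iterate f.isOpenMap f.continuous hxΩ n⟩ rfl
  rw [← h4]
  exact h3

/-- back from the image -/
theorem Trf_back (H : Trf_H f T) (x : nonwandering f)
    (hx : (H.h x : X) ∈ closure (Function.periodicPts T)) :
    (x : X) ∈ closure (Function.periodicPts f) := by
  have h1 := Trf_map H.symm (H.h x) hx
  have h2 : H.symm.h (H.h x) = x := H.h.symm_apply_apply x
  rwa [h2] at h1

theorem trf_rec (h : OmegaConj f T)
    (hT : ∀ x, Recurrent T x → x ∈ closure (Function.periodicPts T)) :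
    ∀ x, Recurrent f x → x ∈ closure (Function.periodicPts f) := by
  obtain ⟨H⟩ := Trf_exists h
  intro x hx
  exact Trf_back H ⟨x, mem_nonwandering_of_recurrent hx⟩ (hT _ (Trf_rec_map H hx))

theorem trf_exp (h : OmegaConj f T) (hT : MExp T (closure (Function.periodicPts T))) :
    MExp f (closure (Function.periodicPts f)) := by
  obtain ⟨H⟩ := Trf_exists h
  obtain ⟨c, hc, h1⟩ := hT
  obtain ⟨η, hη, h2⟩ := Trf_unif H c hc
  refine ⟨η, hη, fun x y hx hy hxS hyS hd => ?_⟩
  have hxn : ∀ i, x i ∈ nonwandering f := fun i => Trf_cl (hxS i)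
  have hyn : ∀ i, y i ∈ nonwandering f := fun i => Trf_cl (hyS i)
  have h3 := h1 (fun i => (H.h ⟨x i, hxn i⟩ : X)) (fun i => (H.h ⟨y i, hyn i⟩ : X))
    (Trf_orb H hx hxn) (Trf_orb H hy hyn) (fun i => Trf_map H _ (hxS i))
    (fun i => Trf_map H _ (hyS i)) (fun i => h2 _ _ (hd i))
  funext i
  have h4 := congrFun h3 i
  have h5 := H.h.injective (Subtype.ext h4)
  exact congrArg Subtype.val h5

theorem trf_sh (h : OmegaConj f T) (hT : MSh T (closure (Function.periodicPts T))) :
    MSh f (closure (Function.periodicPts f)) := by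
  obtain ⟨H⟩ := Trf_exists h
  intro α hα
  obtain ⟨α', hα', h1⟩ := Trf_unif H.symm α hα
  obtain ⟨β', hβ', h2⟩ := hT α' hα'
  obtain ⟨β, hβ, h3⟩ := Trf_unif H β' hβ'
  refine ⟨β, hβ, fun x hxS hx => ?_⟩
  have hxn : ∀ i, x i ∈ nonwandering f := fun i => Trf_cl (hxS i)
  obtain ⟨y, hy, hyS, hyd⟩ := h2 (fun i => (H.h ⟨x i, hxn i⟩ : X))
    (fun i => Trf_map H _ (hxS i)) (by
      intro i
      have h4 := H.h1 ⟨x i, hxn i⟩ ⟨f (x i),
        nonwandering_apply f.isOpenMap f.continuous (hxn i)⟩ rfl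
      change dist (T (H.h ⟨x i, hxn i⟩ : X)) (H.h ⟨x (i + 1), hxn (i + 1)⟩ : X) ≤ β'
      rw [← h4]
      exact h3 _ _ (hx i))
  have hyn : ∀ i, y i ∈ nonwandering T := fun i => Trf_cl (hyS i)
  refine ⟨fun i => (H.symm.h ⟨y i, hyn i⟩ : X), Trf_orb H.symm hy hyn,
    fun i => Trf_map H.symm _ (hyS i), fun i => ?_⟩
  have h5 := h1 ⟨y i, hyn i⟩ (H.h ⟨x i, hxn i⟩) (hyd i)
  have h6 : H.symm.h (H.h ⟨x i, hxn i⟩) = ⟨x i, hxn i⟩ := H.h.symm_apply_apply _
  rw [h6] at h5
  exact h5

theorem trf_nw (h : OmegaConj f T) (hT : nonwandering T ⊆ closure (Function.periodicPts T)) :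
    nonwandering f ⊆ closure (Function.periodicPts f) := by
  obtain ⟨H⟩ := Trf_exists h
  intro x hx
  exact Trf_back H ⟨x, hx⟩ (hT (H.h ⟨x, hx⟩).2)

end TCE
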