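import Pool.Agent.TCE.PShM
import Pool.Agent.TCE.PairL
import Pool.Agent.TCE.ShClo
import Pool.Agent.TCE.ExClo
import Pool.Agent.TCE.RecP
import Pool.Agent.TCE.BUn
import Pool.Agent.TCE.Good
import Pool.Agent.TCE.EGap
import Pool.Agent.TCE.MkE
import Pool.Agent.TCE.Trf
import Pool.Agent.TCE.AxBs
import Pool.Agent.TCE.BSh
import Pool.Agent.TCE.TopM

/-!
# Assembly
-/

open Set Filter Topology Manifold ContDiff Metric

namespace TCE

open PCE OmSt

section CoreS

variable {M B : Type*} [MetricSpace M] [CompactSpace M] [MetricSpace B] [CompactSpace B]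
  (e : Ext M B)

theorem per_p {x : M} (hx : x ∈ Function.periodicPts e.f) :
    e.p x ∈ Function.periodicPts e.g := by
  obtain ⟨n, hn, h⟩ := hx
  have h : e.f^[n] x = x := h
  refine ⟨n, hn, ?_⟩
  change e.g^[n] (e.p x) = e.p x
  rw [← e.cov_iter, h]

theorem closure_per_sub : closure (Function.periodicPts e.f) ⊆ e.p ⁻¹' nonwandering e.g :=
  closure_minimal (fun _ hx => mem_nonwandering_of_periodic (per_p e hx))
    ((isClosed_nonwandering e.g).preimage e.p_cont)

/-- The conclusion for the map. -/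
def Concl {X : Type*} [MetricSpace X] (T : X → X) : Prop :=
  (∀ x, Recurrent T x → x ∈ closure (Function.periodicPts T)) ∧
    MExp T (closure (Function.periodicPts T)) ∧ MSh T (closure (Function.periodicPts T))

theorem core {κ : ℝ} (hκ : 0 < κ) (hS : Stab0 e) (hG : Gap e κ) (hE : MExp e.g (nonwandering e.g))
    (hB : PSh e.g (nonwandering e.g)) :
    Concl e.f ∧ ((∀ b, MCR e.g b → b ∈ nonwandering e.g) →
      nonwandering e.f ⊆ closure (Function.periodicPts e.f)) := by
  have hpsh := psh_M e hS hκ hG hB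
  refine ⟨⟨fun x hx => mem_of_recurrent hpsh hx fun i => ?_, ?_, ?_⟩, fun hcr => ?_⟩
  · have h1 : Recurrent e.g (e.p x) := by
      intro U hU N
      obtain ⟨n, hn, h1⟩ := hx (e.p ⁻¹' U) (e.p_cont.continuousAt hU) N
      refine ⟨n, hn, ?_⟩
      rw [← e.cov_iter]
      exact h1
    change e.p (e.f^[i] x) ∈ nonwandering e.g
    rw [e.cov_iter]
    exact nonwandering_iterate e.g.isOpenMap e.g.continuous (mem_nonwandering_of_recurrent h1) i
  · exact mexp_of_pair e.f e.p_cont e.cov hE (closure_per_sub e) (pair_M e hS hκ hG hB)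
  · exact msh_of_psh e.f hpsh (closure_per_sub e)
  · have h1 := psh_M e hS hκ hG (psh_univ e.g.continuous hB hcr)
    exact fun x hx => mem_of_nonwandering h1 hx

end CoreS

section MainS

variable {E : Type*} [NormedAddCommGroup E] [NormedSpace ℝ E] [FiniteDimensional ℝ E]
  {M : Type*} [MetricSpace M] [CompactSpace M] [ChartedSpace E M] [IsManifold 𝓘(ℝ, E) ∞ M]
  {E' : Type*} [NormedAddCommGroup E'] [NormedSpace ℝ E']
  {B : Type*} [MetricSpace B] [CompactSpace B] [ChartedSpace E' B]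
  {r : ℕ∞}

theorem main_metric (hr : 1 ≤ r) (P : CircleBundle E M E' B) (f : Dyn E M r) (g : Dyn E' B r)
    (hcov : ∀ x, P.p (f x) = g (P.p x)) (hP : P.Oriented f)
    (hE : MExp g (nonwandering g)) (hB : PSh g (nonwandering g)) (hf : OmegaStable f) :
    Concl f ∧ ((∀ b, MCR g b → b ∈ nonwandering g) →
      nonwandering f ⊆ closure (Function.periodicPts f)) := by
  obtain ⟨N, hN, hfN, hconj⟩ := hf
  have hS : Stab N := ⟨hN, fun g hg g' hg' =>
    ((hconj g hg).symm (Dyn.isOpenMap f) f.continuous).trans (Dyn.isOpenMap f) f.continuous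
      (hconj g' hg')⟩
  obtain ⟨e, ε, hε, -, -, hef, heg, hstar, hc⟩ := P.exists_ext hr hS hfN g hcov hP
  have hgg : (e.g : B → B) = g := by rw [heg]; rfl
  have hff : (e.f : M → M) = f := by rw [hef]; rfl
  have hE' : MExp e.g (nonwandering e.g) := by rw [hgg]; exact hE
  have hB' : PSh e.g (nonwandering e.g) := by rw [hgg]; exact hB
  obtain ⟨s, hs, hstab⟩ := exists_good e hε hstar hE' (by rw [hff]; exact hc)
  have hsε : |s| < ε := by linarith
  have h1 := core (sft e s) (κ := ε - |s|) (by linarith) hstab (gap_sft e hε hstar hsε) hE' hB'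
  have h2 : OmegaConj f.toHomeomorph (pushH e s) := hc s hsε
  obtain ⟨⟨h3, h4, h5⟩, h6⟩ := h1
  refine ⟨⟨trf_rec h2 h3, trf_exp h2 h4, trf_sh h2 h5⟩, fun hcr => trf_nw h2 (h6 ?_)⟩
  change ∀ b, MCR e.g b → b ∈ nonwandering e.g
  rw [hgg]
  exact hcr

end MainS

section Fin

variable {E : Type*} [NormedAddCommGroup E] [NormedSpace ℝ E] [FiniteDimensional ℝ E]
  {M : Type*} [MetricSpace M] [CompactSpace M] [ChartedSpace E M] [IsManifold 𝓘(ℝ, E) ∞ M]
  {E' : Type*} [NormedAddCommGroup E'] [NormedSpace ℝ E'] [FiniteDimensional ℝ E']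
  {B : Type*} [MetricSpace B] [CompactSpace B] [ChartedSpace E' B] [IsManifold 𝓘(ℝ, E') ∞ B]
  {r : ℕ∞}

theorem main_top (hr : 1 ≤ r) (P : CircleBundle E M E' B) (f : Dyn E M r) (g : Dyn E' B r)
    (hcov : ∀ x, P.p (f x) = g (P.p x)) (hP : P.Oriented f)
    (hg : AxiomA g ∨ TopHyp g (nonwandering g)) (hf : OmegaStable f) :
    (∀ x, Recurrent f x → x ∈ closure (Function.periodicPts f)) ∧
      TopHyp f (closure (Function.periodicPts f)) ∧
      ((∀ b, ChainRec g b → b ∈ nonwandering g) →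
        nonwandering f = closure (Function.periodicPts f)) := by
  obtain ⟨hE, hB⟩ : MExp g (nonwandering g) ∧ PSh g (nonwandering g) := by
    rcases hg with hg | hg
    · exact base_of_axiomA hr g hg
    · have h1 := mexp_iff.2 hg.1
      exact ⟨h1, psh_of_exp h1 (msh_iff.2 hg.2)⟩
  obtain ⟨⟨h1, h2, h3⟩, h4⟩ := main_metric hr P f g hcov hP hE hB hf
  refine ⟨h1, ⟨mexp_iff.1 h2, msh_iff.1 h3⟩, fun hcr => ?_⟩
  refine subset_antisymm (h4 fun b hb => hcr b hb.chainRec) ?_
  exact closure_minimal (fun _ hx => mem_nonwandering_of_periodic hx) (isClosed_nonwandering _)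

end Fin

end TCE
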