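import Pool.Agent.TCE.Defs

/-!
# DFx (3): the displacement function of a periodic circle

Proof. Let `b` be a periodic point of `e.g`, `e.g^[n] b = b`, `n > 0`, `c = e.cyc hn hb` (file
`PCE/Ext0.lean`), `c.n = n`, `hc : c.Star ε := Star.cyc e hstar hn hb`. `Cyc.lock` gives `m > 0` and
an integer `k` such that for `|θ| < ε` there is `s` with `c.G θ (m * c.n) s = s + k π`. Put
`D θ s = c.G θ (m * c.n) s - s - k π`.
* `cont`: `Cyc.G_cont`; `per`: `Cyc.G_deg` (with the integer `1`); `push`: `Cyc.G_push`
  (`m * c.n = N + 1`); `mono`: `Cyc.G_mono`; `ex`: `lock`; `simple`: `D θ` has the derivative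
  `c.Jn θ (m * c.n) s - 1` at `s` (`Cyc.G_hasDerivAt`), which is not `0` at a zero for `|θ| < ε`
  by `hc`.
* zeros of `D θ` are the periodic points: `push_iter` says
  `(e.push θ)^[i] (ρ_s σ_b) = ρ_{G θ i s} σ_{g^i b}`. If `D θ s = 0`, then
  `(e.push θ)^[m n] (ρ_s σ_b) = ρ_{s + k π} σ_b = ρ_s σ_b`. Conversely let
  `(e.push θ)^[N] (ρ_s σ_b) = ρ_s σ_b`, `N > 0`, `|θ| < ε`. Then also for `N n` in the place of `N`, so
  `c.G θ (N n) s = s + k' π` for an integer `k'` (`e.ρ_eq`). Write `H = c.G θ n`; `c.G θ (j n) = H^j`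
  (`Cyc.G_add`), `H` is increasing and commutes with `+ π`. Let `s'` be a point with
  `H^m s' = s' + k π` (`lock`). Iterating, `H^(m N j) s' = s' + N j k π` and
  `H^(N m j) s = s + m j k' π` for all `j`. Moving `s'` by an integer multiple of `π` we may assume
  `s ≤ s' ≤ s + π`; monotonicity: `H^(mNj) s ≤ H^(mNj) s' ≤ H^(mNj) s + π`. So
  `j π |N k - m k'| ≤ 2 π` for all `j`, and `N k = m k'`. Now if `D θ s > 0`, i.e.
  `H^m s > s + k π`, then by monotonicity and degree one `H^(m N) s > s + N k π` (induction on the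
  number of iterates: `H^(m (j+1)) s = H^(m j) (H^m s) > H^(m j) (s + k π) = H^(m j) s + k π`),
  contradicting `H^(m N) s = s + m k' π`; the same for `D θ s < 0`. So `D θ s = 0`.
  (If `D θ s ≠ 0` were allowed for a periodic point, the rotation number would not be unique.)
-/

open Set Filter Topology Real

namespace TCE

open PCE

theorem DFx_line {H : ℝ → ℝ} (hH : StrictMono H) (hd : ∀ (s : ℝ) (j : ℤ), H (s + j * π) = H s + j * π)
    {m N : ℕ} (hN : 0 < N) {k k' : ℤ} {s s' : ℝ} (h1 : H^[m] s' = s' + k * π)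
    (h2 : H^[N] s = s + k' * π) : H^[m] s = s + k * π := by
  have hpi := Real.pi_pos
  have hdi : ∀ (i : ℕ) (x : ℝ) (j : ℤ), H^[i] (x + j * π) = H^[i] x + j * π := by
    intro i x j
    induction i with
    | zero => rfl
    | succ i ih => rw [Function.iterate_succ_apply', Function.iterate_succ_apply', ih, hd]
  obtain ⟨B, hBdef⟩ : ∃ B : ℝ → ℝ, ∀ x, B x = H^[m] x - k * π := ⟨_, fun _ => rfl⟩
  have hB : StrictMono B := by
    intro x y hxy
    rw [hBdef, hBdef]
    have := (hH.iterate m) hxy
    linarith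
  have hBd : ∀ (x : ℝ) (j : ℤ), B (x + j * π) = B x + j * π := by
    intro x j
    rw [hBdef, hBdef, hdi]
    ring
  have hBs : B s' = s' := by rw [hBdef, h1]; ring
  have hBi : ∀ (i : ℕ) (x : ℝ), B^[i] x = H^[m * i] x - i * k * π := by
    intro i x
    induction i with
    | zero => simp
    | succ i ih =>
      rw [Function.iterate_succ_apply', ih, hBdef]
      have e : H^[m * i] x - (i : ℝ) * k * π = H^[m * i] x + ((-(i * k) : ℤ) : ℝ) * π := by
        push_cast
        ring
      have e2 : m * (i + 1) = m + m * i := by ring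
      rw [e, hdi, e2, Function.iterate_add_apply]
      push_cast
      ring
  have hNi : ∀ i : ℕ, H^[N * i] s = s + i * k' * π := by
    intro i
    induction i with
    | zero => simp
    | succ i ih =>
      have e2 : N * (i + 1) = N + N * i := by ring
      have e : s + (i : ℝ) * k' * π = s + ((i * k' : ℤ) : ℝ) * π := by
        push_cast
        ring
      rw [e2, Function.iterate_add_apply, ih, e, hdi, h2]
      push_cast
      ring
  have hBN : B^[N] s = s + ((m * k' - N * k : ℤ) : ℝ) * π := by
    rw [hBi, mul_comm m N, hNi]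
    push_cast
    ring
  obtain ⟨j, hj1, hj2⟩ : ∃ j : ℤ, s' + j * π ≤ s ∧ s < s' + ((j + 1 : ℤ) : ℝ) * π := by
    refine ⟨⌊(s - s') / π⌋, ?_, ?_⟩
    · have := Int.floor_le ((s - s') / π)
      rw [le_div_iff₀ hpi] at this
      linarith
    · have := Int.lt_floor_add_one ((s - s') / π)
      rw [div_lt_iff₀ hpi] at this
      push_cast
      linarith
  have hfix : ∀ j : ℤ, B^[N] (s' + j * π) = s' + j * π := by
    intro j
    refine Function.iterate_fixed ?_ N
    rw [hBd, hBs]
  have b1 := (hB.iterate N).monotone hj1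
  have b2 := (hB.iterate N) hj2
  rw [hfix, hBN] at b1
  rw [hfix, hBN] at b2
  have hz : (m * k' - N * k : ℤ) = 0 := by
    have c1 : (((m * k' - N * k : ℤ)) : ℝ) * π < 1 * π := by
      push_cast at b1 b2 hj1 hj2 ⊢
      linarith
    have c2 : (-1) * π < (((m * k' - N * k : ℤ)) : ℝ) * π := by
      push_cast at b1 b2 hj1 hj2 ⊢
      linarith
    have d1 := lt_of_mul_lt_mul_right c1 hpi.le
    have d2 := lt_of_mul_lt_mul_right c2 hpi.le
    have d1' : (m * k' - N * k : ℤ) < 1 := by exact_mod_cast d1
    have d2' : -1 < (m * k' - N * k : ℤ) := by exact_mod_cast d2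
    omega
  rw [hz, Int.cast_zero, zero_mul, add_zero] at hBN
  have hBfix : B s = s := by
    rcases lt_trichotomy s (B s) with h | h | h
    · exfalso
      have hm : StrictMono fun n => B^[n] s := by
        refine strictMono_nat_of_lt_succ fun n => ?_
        have := (hB.iterate n) h
        rw [← Function.iterate_succ_apply] at this
        exact this
      have := hm hN
      simp only [Function.iterate_zero, id_eq] at this
      rw [hBN] at this
      exact lt_irrefl _ this
    · exact h.symm
    · exfalso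
      have hm : StrictAnti fun n => B^[n] s := by
        refine strictAnti_nat_of_succ_lt fun n => ?_
        have := (hB.iterate n) h
        rw [← Function.iterate_succ_apply] at this
        exact this
      have := hm hN
      simp only [Function.iterate_zero, id_eq] at this
      rw [hBN] at this
      exact lt_irrefl _ this
  rw [hBdef] at hBfix
  linarith

variable {M B : Type*} [TopologicalSpace M] [TopologicalSpace B]

theorem exists_DF (e : Ext M B) {ε : ℝ} (hε : 0 < ε) (hstar : e.Star ε) {b : B}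
    (hb : b ∈ Function.periodicPts e.g) :
    ∃ D : ℝ → ℝ → ℝ, DF ε D ∧ ∀ θ, |θ| < ε → ∀ s,
      D θ s = 0 ↔ e.ρ s (e.σ b) ∈ Function.periodicPts (e.push θ) := by
  obtain ⟨n, hn, hb⟩ := hb
  have hb : e.g^[n] b = b := hb
  obtain ⟨c, hcdef⟩ : ∃ c, c = e.cyc hn hb := ⟨_, rfl⟩
  have hcn : c.n = n := by rw [hcdef]; rfl
  have hc : c.Star ε := by rw [hcdef]; exact Ext.Star.cyc e hstar hn hb
  obtain ⟨m, hm, k, hk⟩ := c.lock hε hc
  obtain ⟨N', hN'⟩ : ∃ N', m * c.n = N' + 1 :=
    ⟨m * c.n - 1, (Nat.succ_pred_eq_of_pos (Nat.mul_pos hm c.n_pos)).symm⟩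
  refine ⟨fun θ s => c.G θ (m * c.n) s - s - k * π, ⟨?_, ?_, ?_, ?_, ?_, ?_⟩, ?_⟩
  · exact ((c.G_cont (m * c.n)).sub continuous_snd).sub continuous_const
  · intro θ s
    have := c.G_deg θ (m * c.n) s 1
    rw [Int.cast_one, one_mul] at this
    change c.G θ (m * c.n) (s + π) - (s + π) - k * π = c.G θ (m * c.n) s - s - k * π
    rw [this]
    ring
  · intro θ θ' h s
    have := c.G_push θ θ' h N' s
    rw [← hN'] at this
    change c.G θ (m * c.n) s - s - k * π + (θ' - θ) ≤ c.G θ' (m * c.n) s - s - k * π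
    linarith
  · intro θ s t hst
    have := c.G_mono θ (m * c.n) hst
    change c.G θ (m * c.n) s - s - k * π + s < c.G θ (m * c.n) t - t - k * π + t
    linarith
  · intro θ hθ s hs
    have hs' : c.G θ (m * c.n) s = s + k * π := by
      have : c.G θ (m * c.n) s - s - k * π = 0 := hs
      linarith
    refine ⟨c.Jn θ (m * c.n) s - 1, sub_ne_zero.2 (hc θ hθ m hm s k hs'), ?_⟩
    exact ((c.G_hasDerivAt θ (m * c.n) s).sub (hasDerivAt_id' s)).sub_const _
  · intro θ hθ
    obtain ⟨s, hs⟩ := hk θ hθ
    refine ⟨s, ?_⟩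
    change c.G θ (m * c.n) s - s - k * π = 0
    rw [hs]
    ring
  · intro θ hθ s
    have hit : ∀ i : ℕ, (e.push θ)^[i * n] (e.ρ s (e.σ b)) = e.ρ (c.G θ (i * n) s) (e.σ b) := by
      intro i
      rw [e.push_iter hn hb, e.iter_mul hb, hcdef]
    constructor
    · intro hs
      have hs' : c.G θ (m * n) s = s + k * π := by
        have : c.G θ (m * c.n) s - s - k * π = 0 := hs
        rw [hcn] at this
        linarith
      refine ⟨m * n, Nat.mul_pos hm hn, ?_⟩
      change (e.push θ)^[m * n] (e.ρ s (e.σ b)) = e.ρ s (e.σ b)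
      rw [hit, hs', e.ρ_add_int]
    · rintro ⟨N, hN, hper⟩
      have hper' : (e.push θ)^[N * n] (e.ρ s (e.σ b)) = e.ρ s (e.σ b) := by
        have := Function.IsPeriodicPt.const_mul hper n
        rw [mul_comm] at this
        exact this
      rw [hit] at hper'
      obtain ⟨k', hk'⟩ := e.ρ_eq hper'
      obtain ⟨s', hs'⟩ := hk θ hθ
      have hG : ∀ (i : ℕ) (x : ℝ), c.G θ (i * n) x = (c.G θ n)^[i] x := by
        intro i x
        induction i with
        | zero => simp
        | succ i ih =>
          rw [Function.iterate_succ_apply', ← ih, Nat.succ_mul]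
          have := c.G_add θ i n x
          rw [hcn] at this
          exact this
      rw [hcn, hG] at hs'
      rw [hG] at hk'
      have key := DFx_line (c.G_mono θ n) (fun x j => c.G_deg θ n x j) hN hs' hk'
      change c.G θ (m * c.n) s - s - k * π = 0
      rw [hcn, hG, key]
      ring

end TCE
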