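import Pool.Agent.PCE.Star
import Pool.Agent.OmSt2.PHyp

/-!
# Topological hyperbolicity of circle extensions: definitions

Conventions. `X`, `M`, `B` are compact metric spaces, `x : ℤ → X` are two-sided sequences.
-/

open Set Filter Topology Real

namespace TCE

open PCE

section Seq

variable {X : Type*}

/-- `x` is a full orbit of `T`. -/
def Orb (T : X → X) (x : ℤ → X) : Prop := ∀ i, T (x i) = x (i + 1)

/-- `x` is an `n`-periodic sequence, `n > 0`. -/
def PSeq (n : ℕ) (x : ℤ → X) : Prop := 0 < n ∧ ∀ i, x (i + n) = x i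

theorem PSeq.shift {n : ℕ} {x : ℤ → X} (h : PSeq n x) (j : ℤ) : PSeq n fun i => x (i + j) :=
  ⟨h.1, fun i => by
    have := h.2 (i + j)
    have e : i + n + j = i + j + n := by ring
    change x (i + n + j) = x (i + j)
    rw [e, this]⟩

theorem PSeq.map {Y : Type*} {n : ℕ} {x : ℤ → X} (h : PSeq n x) (φ : X → Y) :
    PSeq n fun i => φ (x i) := ⟨h.1, fun i => congrArg φ (h.2 i)⟩

theorem PSeq.map₂ {Y Z : Type*} {n : ℕ} {x : ℤ → X} {y : ℤ → Y} (hx : PSeq n x) (hy : PSeq n y)
    (φ : X → Y → Z) : PSeq n fun i => φ (x i) (y i) := ⟨hx.1, fun i => by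
  change φ (x (i + n)) (y (i + n)) = φ (x i) (y i)
  rw [hx.2, hy.2]⟩

theorem PSeq.mul {n : ℕ} {x : ℤ → X} (h : PSeq n x) (i k : ℤ) : x (i + k * n) = x i := by
  induction k using Int.induction_on with
  | zero => simp
  | succ m ih =>
    have e : i + ((m : ℤ) + 1) * n = i + m * n + n := by ring
    rw [e, h.2, ih]
  | pred m ih =>
    have e : i + (-(m : ℤ)) * n = i + (-(m : ℤ) - 1) * n + n := by ring
    rw [e, h.2] at ih
    exact ih

theorem PSeq.emod {n : ℕ} {x : ℤ → X} (h : PSeq n x) (i : ℤ) : x (i % n) = x i := by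
  have h1 := h.mul (i % n) (i / n)
  have e : i % n + i / n * n = i := by rw [mul_comm]; exact Int.emod_add_mul_ediv i n
  rw [e] at h1
  exact h1.symm

theorem Orb.shift {T : X → X} {x : ℤ → X} (h : Orb T x) (j : ℤ) : Orb T fun i => x (i + j) :=
  fun i => by
    have := h (i + j)
    have e : i + 1 + j = i + j + 1 := by ring
    change T (x (i + j)) = x (i + 1 + j)
    rw [e, this]

theorem Orb.iterate {T : X → X} {x : ℤ → X} (h : Orb T x) (i : ℤ) (n : ℕ) :
    T^[n] (x i) = x (i + n) := by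
  induction n with
  | zero => simp
  | succ n ih =>
    rw [Function.iterate_succ_apply', ih, h]
    congr 1
    push_cast
    ring

/-- Two full orbits of an injective map which agree at some time are equal. -/
theorem Orb.eq_of {T : X → X} (hT : Function.Injective T) {x y : ℤ → X} (hx : Orb T x)
    (hy : Orb T y) {j : ℤ} (h : x j = y j) : x = y := by
  funext i
  have key : ∀ k : ℤ, x (j + k) = y (j + k) := by
    intro k
    induction k using Int.induction_on with
    | zero => simpa using h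
    | succ m ih =>
      have e : j + ((m : ℤ) + 1) = j + m + 1 := by ring
      rw [e, ← hx, ← hy, ih]
    | pred m ih =>
      apply hT
      rw [hx, hy]
      have e : j + (-(m : ℤ) - 1) + 1 = j + -(m : ℤ) := by ring
      rw [e]
      exact ih
  have := key (i - j)
  have e : j + (i - j) = i := by ring
  rwa [e] at this

/-- The points of a periodic full orbit are periodic. -/
theorem Orb.mem_periodicPts {T : X → X} {x : ℤ → X} (h : Orb T x) {n : ℕ} (hp : PSeq n x)
    (i : ℤ) : x i ∈ Function.periodicPts T := by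
  refine ⟨n, hp.1, ?_⟩
  change T^[n] (x i) = x i
  rw [h.iterate, hp.2]

/-- The full orbit of a periodic point. -/
theorem exists_orb_of_periodic {T : X → X} {q : X} {n : ℕ} (hn : 0 < n) (hq : T^[n] q = q) :
    ∃ x : ℤ → X, Orb T x ∧ PSeq n x ∧ x 0 = q ∧ ∀ k : ℕ, x k = T^[k] q := by
  have hn' : (0 : ℤ) < n := by exact_mod_cast hn
  have hper : Function.IsPeriodicPt T n q := hq
  have hk : ∀ k : ℕ, T^[((k : ℤ) % n).toNat] q = T^[k] q := by
    intro k
    have e : ((k : ℤ) % n).toNat = k % n := by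
      rw [← Int.natCast_mod]
      exact Int.toNat_natCast _
    rw [e]
    exact hper.iterate_mod_apply k
  refine ⟨fun i => T^[(i % n).toNat] q, fun i => ?_, ⟨hn, fun i => ?_⟩, ?_, hk⟩
  · change T (T^[(i % n).toNat] q) = T^[((i + 1) % n).toNat] q
    rw [← Function.iterate_succ_apply' T]
    have h0 : 0 ≤ i % n := Int.emod_nonneg _ hn'.ne'
    obtain ⟨m, hm⟩ := Int.eq_ofNat_of_zero_le h0
    have e1 : (i + 1) % n = ((m + 1 : ℕ) : ℤ) % n := by
      rw [← Int.emod_add_emod, hm]
      push_cast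
      rfl
    rw [e1, hk, hm]
    rfl
  · change T^[((i + n) % n).toNat] q = T^[(i % n).toNat] q
    rw [Int.add_emod_right]
  · simp

end Seq

section Met

variable {X : Type*} [MetricSpace X]

/-- `x` is a `δ`-pseudo-orbit of `T`. -/
def Pso (T : X → X) (δ : ℝ) (x : ℤ → X) : Prop := ∀ i, dist (T (x i)) (x (i + 1)) ≤ δ

theorem Pso.shift {T : X → X} {δ : ℝ} {x : ℤ → X} (h : Pso T δ x) (j : ℤ) :
    Pso T δ fun i => x (i + j) := fun i => by
  have := h (i + j)
  have e : i + 1 + j = i + j + 1 := by ring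
  change dist (T (x (i + j))) (x (i + 1 + j)) ≤ δ
  rw [e]
  exact this

theorem Orb.pso {T : X → X} {x : ℤ → X} (h : Orb T x) {δ : ℝ} (hδ : 0 ≤ δ) : Pso T δ x :=
  fun i => by rw [h i, dist_self]; exact hδ

/-- `T` is expansive on `S` (metric version). -/
def MExp (T : X → X) (S : Set X) : Prop :=
  ∃ c > 0, ∀ x y : ℤ → X, Orb T x → Orb T y → (∀ i, x i ∈ S) → (∀ i, y i ∈ S) →
    (∀ i, dist (x i) (y i) ≤ c) → x = y

/-- `T` has the shadowing property on `S` (metric version). -/
def MSh (T : X → X) (S : Set X) : Prop :=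
  ∀ α > 0, ∃ β > 0, ∀ x : ℤ → X, (∀ i, x i ∈ S) → Pso T β x →
    ∃ y : ℤ → X, Orb T y ∧ (∀ i, y i ∈ S) ∧ ∀ i, dist (y i) (x i) ≤ α

/-- The periodic pseudo-orbits in `S` are shadowed by periodic orbits (which need not lie in
`S`). -/
def PSh (T : X → X) (S : Set X) : Prop :=
  ∀ α > 0, ∃ β > 0, ∀ (n : ℕ) (x : ℤ → X), PSeq n x → (∀ i, x i ∈ S) → Pso T β x →
    ∃ y : ℤ → X, Orb T y ∧ PSeq n y ∧ ∀ i, dist (y i) (x i) ≤ α

/-- `x` is chain recurrent (metric version). -/
def MCR (T : X → X) (x : X) : Prop :=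
  ∀ δ > 0, ∃ (n : ℕ) (z : ℤ → X), PSeq n z ∧ Pso T δ z ∧ z 0 = x

/-- Pairs of periodic pseudo-orbits in `S` which lie in the same fibres of `p` and are close to
each other are very close. -/
def PairP {B : Type*} (T : X → X) (p : X → B) (S : Set X) : Prop :=
  ∃ c > 0, ∀ η > 0, ∃ δ > 0, ∀ (n : ℕ) (x y : ℤ → X), PSeq n x → PSeq n y →
    (∀ i, x i ∈ S) → (∀ i, y i ∈ S) → (∀ i, p (x i) = p (y i)) → Pso T δ x → Pso T δ y →
    (∀ i, dist (x i) (y i) ≤ c) → ∀ i, dist (x i) (y i) ≤ η

/-- Uniform continuity. -/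
theorem exists_unif [CompactSpace X] {Y : Type*} [MetricSpace Y] {h : X → Y} (hc : Continuous h) :
    ∀ κ > 0, ∃ η > 0, ∀ x y, dist x y ≤ η → dist (h x) (h y) ≤ κ := by
  intro κ hκ
  obtain ⟨η, hη, h1⟩ := Metric.uniformContinuous_iff.1
    (CompactSpace.uniformContinuous_of_continuous hc) κ hκ
  exact ⟨η / 2, half_pos hη, fun x y hxy => (h1 (hxy.trans_lt (half_lt_self hη))).le⟩

end Met

section TopDef

variable {X : Type*} [TopologicalSpace X]

/-- `f` is expansive on `Λ`: there is a neighbourhood `U` of the diagonal such that two full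
orbits in `Λ` whose points are `U`-close at all times are equal. -/
def ExpansiveOn (f : X → X) (Λ : Set X) : Prop :=
  ∃ U : Set (X × X), IsOpen U ∧ (∀ x, (x, x) ∈ U) ∧ ∀ x y : ℤ → X, (∀ i, f (x i) = x (i + 1)) →
    (∀ i, f (y i) = y (i + 1)) → (∀ i, x i ∈ Λ) → (∀ i, y i ∈ Λ) → (∀ i, (x i, y i) ∈ U) → x = y

/-- `f` has the shadowing property on `Λ`: for every neighbourhood `V` of the diagonal there is
a neighbourhood `W` of the diagonal such that for every two-sided sequence `x` in `Λ` with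
`f (x i)` and `x (i + 1)` `W`-close for all `i` there is a full orbit `y` in `Λ` with `x i` and
`y i` `V`-close for all `i`. -/
def ShadowingOn (f : X → X) (Λ : Set X) : Prop :=
  ∀ V : Set (X × X), IsOpen V → (∀ x, (x, x) ∈ V) → ∃ W : Set (X × X), IsOpen W ∧
    (∀ x, (x, x) ∈ W) ∧ ∀ x : ℤ → X, (∀ i, x i ∈ Λ) → (∀ i, (f (x i), x (i + 1)) ∈ W) →
      ∃ y : ℤ → X, (∀ i, f (y i) = y (i + 1)) ∧ (∀ i, y i ∈ Λ) ∧ ∀ i, (x i, y i) ∈ V

/-- `Λ` is topologically hyperbolic: `f` is expansive on `Λ` and has the shadowing property on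
`Λ`. -/
def TopHyp (f : X → X) (Λ : Set X) : Prop := ExpansiveOn f Λ ∧ ShadowingOn f Λ

/-- `x` is chain recurrent: for every neighbourhood `U` of the diagonal there is a finite sequence
`x = y 0, y 1, ..., y n = x`, `n > 0`, with `f (y i)` and `y (i + 1)` `U`-close for `i < n`. -/
def ChainRec (f : X → X) (x : X) : Prop :=
  ∀ U : Set (X × X), IsOpen U → (∀ z, (z, z) ∈ U) → ∃ (n : ℕ) (y : ℕ → X), 0 < n ∧ y 0 = x ∧
    y n = x ∧ ∀ i < n, (f (y i), y (i + 1)) ∈ U

theorem isClosed_nonwandering (f : X → X) : IsClosed (OmSt.nonwandering f) := by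
  rw [← isOpen_compl_iff, isOpen_iff_mem_nhds]
  intro x hx
  have hx' : ¬ ∀ U ∈ 𝓝 x, ∃ n > 0, (f^[n] '' U ∩ U).Nonempty := hx
  push Not at hx'
  obtain ⟨U, hU, h1⟩ := hx'
  filter_upwards [eventually_mem_nhds_iff.2 hU] with y hy hyn
  obtain ⟨n, hn, h2⟩ := hyn U hy
  rw [h1 n hn] at h2
  exact Set.not_nonempty_empty h2

end TopDef

/-! ### Circle extensions -/

section Ex

variable {M B : Type*} [TopologicalSpace M] [TopologicalSpace B] (e : Ext M B)

/-- The pushed map as a homeomorphism. -/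
noncomputable def pushH (θ : ℝ) : M ≃ₜ M where
  toFun x := e.ρ θ (e.f x)
  invFun x := e.f.symm (e.ρ (-θ) x)
  left_inv x := by
    change e.f.symm (e.ρ (-θ) (e.ρ θ (e.f x))) = x
    rw [e.ρ_neg, e.f.symm_apply_apply]
  right_inv x := by
    change e.ρ θ (e.f (e.f.symm (e.ρ (-θ) x))) = x
    rw [e.f.apply_symm_apply, e.ρ_neg']
  continuous_toFun := (e.cont.comp (Continuous.prodMk_right θ)).comp e.f.continuous
  continuous_invFun := e.f.symm.continuous.comp (e.cont.comp (Continuous.prodMk_right (-θ)))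

theorem pushH_apply (θ : ℝ) (x : M) : pushH e θ x = e.push θ x := rfl

/-- The extension with the map `push θ`. -/
noncomputable def sft (θ : ℝ) : Ext M B where
  ρ := e.ρ
  cont := e.cont
  zero := e.zero
  add := e.add
  period := e.period
  p := e.p
  p_cont := e.p_cont
  p_surj := e.p_surj
  fib := e.fib
  f := pushH e θ
  g := e.g
  cov x := by
    change e.p (e.ρ θ (e.f x)) = _
    rw [e.p_ρ, e.cov]
  F := e.F
  F_mono := e.F_mono
  F_zero := e.F_zero
  F_pi := e.F_pi
  F_eq x s := by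
    change e.ρ θ (e.f (e.ρ s x)) = e.ρ (e.F x s) (e.ρ θ (e.f x))
    rw [e.F_eq, ← e.add, ← e.add, add_comm]
  J := e.J
  J_pos := e.J_pos
  F_deriv := e.F_deriv

theorem sft_f (θ : ℝ) : ((sft e θ).f : M → M) = e.push θ := rfl

theorem sft_push (θ v : ℝ) : (sft e θ).push v = e.push (θ + v) := by
  funext x
  change e.ρ v (e.ρ θ (e.f x)) = e.ρ (θ + v) (e.f x)
  rw [← e.add, add_comm]

/-- Stability of the periodic points under small pushes: the periodic points of `push v` are
close, in their circles, to periodic points of `f`. -/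
def Stab0 : Prop :=
  ∀ η > 0, ∃ v₀ > 0, ∀ v, |v| ≤ v₀ → ∀ z ∈ Function.periodicPts (e.push v),
    ∃ t, |t| ≤ η ∧ e.ρ t z ∈ Function.periodicPts e.f

/-- The periodic points in a circle are `κ`-separated. -/
def Gap (κ : ℝ) : Prop :=
  ∀ x r, x ∈ Function.periodicPts e.f → e.ρ r x ∈ Function.periodicPts e.f → |r| < κ → r = 0

end Ex

/-- The displacement functions `D θ s` of the pushed return maps of a periodic circle. -/
structure DF (ε : ℝ) (D : ℝ → ℝ → ℝ) : Prop where
  cont : Continuous fun q : ℝ × ℝ => D q.1 q.2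
  per : ∀ θ s, D θ (s + π) = D θ s
  push : ∀ θ θ', θ ≤ θ' → ∀ s, D θ s + (θ' - θ) ≤ D θ' s
  mono : ∀ θ s t, s < t → D θ s + s < D θ t + t
  simple : ∀ θ, |θ| < ε → ∀ s, D θ s = 0 → ∃ a, a ≠ 0 ∧ HasDerivAt (D θ) a s
  ex : ∀ θ, |θ| < ε → ∃ s, D θ s = 0

end TCE

namespace OmSt

variable {E : Type*} [NormedAddCommGroup E] [NormedSpace ℝ E]
  {M : Type*} [TopologicalSpace M] [ChartedSpace E M]
  {E' : Type*} [NormedAddCommGroup E'] [NormedSpace ℝ E']
  {B : Type*} [TopologicalSpace B] [ChartedSpace E' B]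

/-- `f` maps each orbit of the circle action onto an orbit, preserving the orientation: for every
`x` there is a continuous increasing function `F` with `f (ρ s x) = ρ (F s) (f x)` for all
`s`. -/
def CircleBundle.Oriented (P : CircleBundle E M E' B) (f : M → M) : Prop :=
  ∀ x, ∃ F : ℝ → ℝ, Continuous F ∧ StrictMono F ∧ ∀ s, f (P.ρ s x) = P.ρ (F s) (f x)

end OmSt
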