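import Pool.Agent.TCE.Defs

/-!
# LiftA (1): the normalised lift of an oriented map

Proof: exactly the proof of `OmSt.CircleBundle.exists_lift` (file `Pool/Agent/PCE/Bund.lean`),
without the parts about `κ`: let `F₀` be given by `P.Oriented f`; `F₀ 0 = k π` for an integer `k`
because `f (ρ_0 x) = f x`; put `F s = F₀ s - F₀ 0`. Then `f (ρ_s x) = ρ_{F s} (f x)`. As
`ρ_{F (s + π)} (f x) = ρ_{F s} (f x)`, `F (s + π) = F s + l π` with `l` an integer, `l ≥ 1` as `F`
is increasing, and `l < 2` by the intermediate value theorem and injectivity of `f` and of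
`s ↦ ρ_s x` on `(s, s + π)`.
-/

open Set Filter Topology Manifold ContDiff Metric

namespace OmSt

variable {E : Type*} [NormedAddCommGroup E] [NormedSpace ℝ E]
  {M : Type*} [TopologicalSpace M] [ChartedSpace E M]
  {E' : Type*} [NormedAddCommGroup E'] [NormedSpace ℝ E']
  {B : Type*} [TopologicalSpace B] [ChartedSpace E' B]

theorem CircleBundle.exists_liftO (P : CircleBundle E M E' B) {f : M → M}
    (hf : Function.Injective f) (hP : P.Oriented f) (x : M) :
    ∃ F : ℝ → ℝ, Continuous F ∧ StrictMono F ∧ F 0 = 0 ∧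
      (∀ s, F (s + Real.pi) = F s + Real.pi) ∧ ∀ s, f (P.ρ s x) = P.ρ (F s) (f x) := by
  obtain ⟨F₀, hFc, hFm, hF⟩ := hP x
  obtain ⟨k, hk⟩ : ∃ k : ℤ, F₀ 0 = k * Real.pi := by
    have h1 := hF 0
    rw [P.zero] at h1
    exact (P.period _ _).1 h1.symm
  have hF1 : ∀ s, f (P.ρ s x) = P.ρ (F₀ s - F₀ 0) (f x) := by
    intro s
    rw [hF s]
    have e1 : F₀ s = F₀ s - F₀ 0 + k * Real.pi := by rw [hk]; ring
    conv_lhs => rw [e1]
    rw [P.rho_add_int]
  refine ⟨fun s => F₀ s - F₀ 0, hFc.sub continuous_const,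
    fun s t hst => sub_lt_sub_right (hFm hst) _, sub_self _, fun s => ?_, hF1⟩
  have h1 : P.ρ (F₀ (s + Real.pi) - F₀ 0) (f x) = P.ρ (F₀ s - F₀ 0) (f x) := by
    rw [← hF1, ← hF1]
    have e1 : s + Real.pi = s + ((1 : ℤ) : ℝ) * Real.pi := by push_cast; ring
    rw [e1, P.rho_add_int]
  obtain ⟨l, hl⟩ := P.rho_eq h1
  have hπ := Real.pi_pos
  have hlt : F₀ s < F₀ (s + Real.pi) := hFm (by linarith)
  have hl0 : 0 < l := by
    have : 0 < (l : ℝ) * Real.pi := by linarith
    have h2 : (0 : ℝ) < l := by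
      by_contra hc
      push Not at hc
      have := mul_nonpos_of_nonpos_of_nonneg hc hπ.le
      linarith
    exact_mod_cast h2
  have hl1 : l < 2 := by
    by_contra hc
    push Not at hc
    have hc' : (2 : ℝ) ≤ l := by exact_mod_cast hc
    have h2 : F₀ s + Real.pi < F₀ (s + Real.pi) := by nlinarith
    obtain ⟨t, ht, htF⟩ := intermediate_value_Ioo (a := s) (b := s + Real.pi) (by linarith)
      hFc.continuousOn (show F₀ s + Real.pi ∈ Ioo (F₀ s) (F₀ (s + Real.pi)) from
        ⟨by linarith, h2⟩)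
    have h3 : f (P.ρ t x) = f (P.ρ s x) := by
      rw [hF1, hF1, htF]
      have e1 : F₀ s + Real.pi - F₀ 0 = F₀ s - F₀ 0 + ((1 : ℤ) : ℝ) * Real.pi := by
        push_cast; ring
      rw [e1, P.rho_add_int]
    obtain ⟨j, hj⟩ := P.rho_eq (hf h3)
    have h4 : 0 < (j : ℝ) * Real.pi := by linarith [ht.1]
    have h5 : (j : ℝ) * Real.pi < 1 * Real.pi := by linarith [ht.2]
    have h6 : (j : ℝ) < 1 := lt_of_mul_lt_mul_right h5 hπ.le
    have h7 : (0 : ℝ) < j := by
      by_contra hc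
      push Not at hc
      have := mul_nonpos_of_nonpos_of_nonneg hc hπ.le
      linarith
    have h8 : j < 1 := by exact_mod_cast h6
    have h9 : 0 < j := by exact_mod_cast h7
    omega
  have hl2 : l = 1 := by omega
  rw [hl2] at hl
  push_cast at hl
  change F₀ (s + Real.pi) - F₀ 0 = F₀ s - F₀ 0 + Real.pi
  linarith

end OmSt
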