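import Pool.Agent.TCE.CLo
import Pool.Agent.TCE.Loc

/-!
# PSL (2): shadowing of periodic sequences whose jumps are small rotations

Proof. Let `η > 0`. Choose `η₁ ≤ min η (κ / 8)`, `η₁ > 0`, such that `|F x t| ≤ κ / 4` for
`|t| ≤ η₁` (`F_small`). Let `δ ≤ κ / 4` be smaller than the number given by `closing` for `η₁`. Let
`n, x, r` be as in the statement. For every `j` the sequence `i ↦ x (i + j)` with `i ↦ r (i + j)`
satisfies the hypotheses of `closing` (`PSeq.shift`), so there is `t j`, `|t j| ≤ η₁`, with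
`q j = ρ_{t j} (x j)` periodic for `f`. Now
`f (q j) = ρ_{F (x j) (t j)} (f (x j)) = ρ_{F (x j) (t j) + r j} (x (j + 1)) = ρ_a (q (j + 1))` with
`a = F (x j) (t j) + r j - t (j + 1)`, `|a| ≤ κ/4 + κ/4 + κ/8 < κ`, and `f (q j)` is periodic. By
`Gap` (for the point `q (j + 1)`) `a = 0`: `f (q j) = q (j + 1)`. In the same way
`q (j + n) = ρ_{t (j + n)} (x j) = ρ_{t (j + n) - t j} (q j)` and both are periodic, the rotation is
`< κ`, so `q (j + n) = q j`.
-/

open Set Filter Topology Real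

namespace TCE

open PCE

variable {M B : Type*} [MetricSpace M] [CompactSpace M] [MetricSpace B] (e : Ext M B)

theorem PSL_per {x : M} (hx : x ∈ Function.periodicPts e.f) :
    e.f x ∈ Function.periodicPts e.f := by
  obtain ⟨n, hn, h⟩ := hx
  exact ⟨n, hn, h.map (Function.Commute.refl e.f)⟩

theorem shadow_fib (hS : Stab0 e) {κ : ℝ} (hκ : 0 < κ) (hG : Gap e κ) : ∀ η > 0, ∃ δ > 0,
    ∀ (n : ℕ) (x : ℤ → M) (r : ℤ → ℝ), PSeq n x →
    (∀ i, e.f (x i) = e.ρ (r i) (x (i + 1))) → (∀ i, |r i| ≤ δ) →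
    ∃ t : ℤ → ℝ, (∀ i, |t i| ≤ η) ∧ Orb e.f (fun i => e.ρ (t i) (x i)) ∧
      PSeq n fun i => e.ρ (t i) (x i) := by
  intro η hη
  obtain ⟨η₀, hη₀, hF⟩ := F_small e (κ / 4) (by positivity)
  set η₁ := min η₀ (min η (κ / 8)) with hη₁
  have hη₁0 : 0 < η₁ := lt_min hη₀ (lt_min hη (by positivity))
  have hη₁1 : η₁ ≤ η₀ := min_le_left _ _
  have hη₁2 : η₁ ≤ η := (min_le_right _ _).trans (min_le_left _ _)
  have hη₁3 : η₁ ≤ κ / 8 := (min_le_right _ _).trans (min_le_right _ _)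
  obtain ⟨δ₁, hδ₁, hcl⟩ := closing e hS η₁ hη₁0
  refine ⟨min δ₁ (κ / 4), lt_min hδ₁ (by positivity), fun n x r hn hx hr => ?_⟩
  have h1 : ∀ j, ∃ t, |t| ≤ η₁ ∧ e.ρ t (x j) ∈ Function.periodicPts e.f := by
    intro j
    obtain ⟨t, ht, h⟩ := hcl n (fun i => x (i + j)) (fun i => r (i + j)) (hn.shift j) (fun i => by
      have := hx (i + j)
      have e1 : i + 1 + j = i + j + 1 := by ring
      change e.f (x (i + j)) = e.ρ (r (i + j)) (x (i + 1 + j))
      rw [e1, this]) (fun i => (hr _).trans (min_le_left _ _))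
    refine ⟨t, ht, ?_⟩
    have e2 : (0 : ℤ) + j = j := zero_add j
    rwa [e2] at h
  choose t ht htp using h1
  refine ⟨t, fun i => (ht i).trans hη₁2, fun i => ?_, hn.1, fun i => ?_⟩
  · change e.f (e.ρ (t i) (x i)) = e.ρ (t (i + 1)) (x (i + 1))
    set a := e.F (x i) (t i) + r i - t (i + 1) with ha
    have e1 : e.f (e.ρ (t i) (x i)) = e.ρ a (e.ρ (t (i + 1)) (x (i + 1))) := by
      rw [e.F_eq, hx, ← e.add, ← e.add]
      congr 1
      rw [ha]
      ring
    have h2 : |a| < κ := by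
      have h3 := hF (x i) (t i) ((ht i).trans hη₁1)
      have h4 := (hr i).trans (min_le_right _ _)
      have h5 := (ht (i + 1)).trans hη₁3
      rw [abs_le] at h3 h4 h5
      rw [abs_lt]
      constructor <;> linarith [h3.1, h3.2, h4.1, h4.2, h5.1, h5.2]
    have h3 := PSL_per e (htp i)
    rw [e1] at h3
    have h4 := hG _ a (htp (i + 1)) h3 h2
    rw [e1, h4, e.zero]
  · change e.ρ (t (i + n)) (x (i + n)) = e.ρ (t i) (x i)
    rw [hn.2]
    have h2 := htp (i + n)
    rw [hn.2] at h2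
    have e1 : e.ρ (t (i + n)) (x i) = e.ρ (t (i + n) - t i) (e.ρ (t i) (x i)) := by
      rw [← e.add]
      congr 1
      ring
    have h3 : |t (i + n) - t i| < κ := by
      have h4 := (ht (i + n)).trans hη₁3
      have h5 := (ht i).trans hη₁3
      rw [abs_le] at h4 h5
      rw [abs_lt]
      constructor <;> linarith [h4.1, h4.2, h5.1, h5.2]
    rw [e1] at h2 ⊢
    rw [hG _ _ (htp i) h2 h3, e.zero]

end TCE
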