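import Pool.Agent.TCE.PSL

/-!
# PShM (2): periodic shadowing in the extension

Proof. Given `α > 0`: let `η` be such that `dist (ρ_t x) x ≤ α / 2` for `|t| ≤ η` (`rho_small`),
`δ` from `shadow_fib` for `η`, `η₂` from `rho_of_close` for `δ` (so: `p u = p v`,
`dist u v ≤ η₂` imply `v = ρ_r u` with `|r| ≤ δ`). Let `κ₁ ≤ min (α / 2) (η₂ / 3)` be such that
`dist x y ≤ κ₁` implies `dist (f x) (f y) ≤ η₂ / 3` (`exists_unif`). Let `η₃`, `L` be from
`exists_lft` for `κ₁`, `β_B` from `hB : PSh e.g S` for `η₃`, and `β ≤ η₂ / 3` such that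
`dist u v ≤ β` implies `dist (p u) (p v) ≤ β_B` (`exists_unif e.p_cont`).
Let `x` be an `n`-periodic `β`-pseudo-orbit of `f` in `p⁻¹ S`. `p ∘ x` is an `n`-periodic
`β_B`-pseudo-orbit of `g` in `S` (`g (p (x i)) = p (f (x i))`), so there is an `n`-periodic full
orbit `c` of `g` with `dist (c i) (p (x i)) ≤ η₃`. Put `x' i = L (x i) (c i)`: `n`-periodic,
`p (x' i) = c i`, `dist (x i) (x' i) ≤ κ₁`. `p (f (x' i)) = g (c i) = c (i + 1) = p (x' (i + 1))` and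
`dist (f (x' i)) (x' (i + 1)) ≤ dist (f (x' i)) (f (x i)) + dist (f (x i)) (x (i + 1)) +
dist (x (i + 1)) (x' (i + 1)) ≤ η₂`, so `f (x' i) = ρ_{r i} (x' (i + 1))` with `|r i| ≤ δ`.
`shadow_fib` gives `t` with `y i = ρ_{t i} (x' i)` an `n`-periodic full orbit and
`dist (y i) (x i) ≤ α / 2 + κ₁ ≤ α`.
-/

open Set Filter Topology Real

namespace TCE

open PCE

variable {M B : Type*} [MetricSpace M] [CompactSpace M] [MetricSpace B] (e : Ext M B)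

theorem psh_M (hS : Stab0 e) {κ : ℝ} (hκ : 0 < κ) (hG : Gap e κ) {S : Set B} (hB : PSh e.g S) :
    PSh e.f (e.p ⁻¹' S) := by
  intro α hα
  obtain ⟨η, hη, hρ⟩ := rho_small e (α / 2) (half_pos hα)
  obtain ⟨δ, hδ, hsh⟩ := shadow_fib e hS hκ hG η hη
  obtain ⟨η₂, hη₂, hcl⟩ := rho_of_close e δ hδ
  obtain ⟨κ₀, hκ₀, hf⟩ := exists_unif e.f.continuous (η₂ / 3) (by positivity)
  set κ₁ := min κ₀ (min (α / 2) (η₂ / 3)) with hκ₁
  have hκ₁0 : 0 < κ₁ := lt_min hκ₀ (lt_min (half_pos hα) (by positivity))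
  have hκ₁1 : κ₁ ≤ κ₀ := min_le_left _ _
  have hκ₁2 : κ₁ ≤ α / 2 := (min_le_right _ _).trans (min_le_left _ _)
  have hκ₁3 : κ₁ ≤ η₂ / 3 := (min_le_right _ _).trans (min_le_right _ _)
  obtain ⟨η₃, hη₃, L, hL⟩ := exists_lft e κ₁ hκ₁0
  obtain ⟨βB, hβB, hB⟩ := hB η₃ hη₃
  obtain ⟨β₁, hβ₁, hp⟩ := exists_unif e.p_cont βB hβB
  refine ⟨min β₁ (η₂ / 3), lt_min hβ₁ (by positivity), fun n x hn hxS hx => ?_⟩
  obtain ⟨c, hc, hcn, hcx⟩ := hB n (fun i => e.p (x i)) (hn.map e.p) hxS fun i => by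
    change dist (e.g (e.p (x i))) (e.p (x (i + 1))) ≤ βB
    rw [← e.cov]
    exact hp _ _ ((hx i).trans (min_le_left _ _))
  have hL1 : ∀ i, e.p (L (x i) (c i)) = c i ∧ dist (x i) (L (x i) (c i)) ≤ κ₁ := fun i =>
    hL _ _ (by rw [dist_comm]; exact hcx i)
  have h1 : ∀ i, ∃ r, |r| ≤ δ ∧
      e.f (L (x i) (c i)) = e.ρ r (L (x (i + 1)) (c (i + 1))) := by
    intro i
    have h2 : e.p (L (x (i + 1)) (c (i + 1))) = e.p (e.f (L (x i) (c i))) := by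
      rw [e.cov, (hL1 i).1, (hL1 (i + 1)).1, hc]
    have h3 : dist (L (x (i + 1)) (c (i + 1))) (e.f (L (x i) (c i))) ≤ η₂ := by
      have a1 : dist (L (x (i + 1)) (c (i + 1))) (x (i + 1)) ≤ η₂ / 3 := by
        rw [dist_comm]
        exact (hL1 (i + 1)).2.trans hκ₁3
      have a2 : dist (x (i + 1)) (e.f (x i)) ≤ η₂ / 3 := by
        rw [dist_comm]
        exact (hx i).trans (min_le_right _ _)
      have a3 : dist (e.f (x i)) (e.f (L (x i) (c i))) ≤ η₂ / 3 :=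
        hf _ _ ((hL1 i).2.trans hκ₁1)
      have a4 := dist_triangle4 (L (x (i + 1)) (c (i + 1))) (x (i + 1)) (e.f (x i))
        (e.f (L (x i) (c i)))
      linarith
    obtain ⟨r, hr, h4⟩ := hcl _ _ h2 h3
    exact ⟨r, hr, h4.symm⟩
  choose r hr hr1 using h1
  obtain ⟨t, ht, hto, htn⟩ := hsh n (fun i => L (x i) (c i)) r (hn.map₂ hcn L) hr1 hr
  refine ⟨fun i => e.ρ (t i) (L (x i) (c i)), hto, htn, fun i => ?_⟩
  have h2 := hρ (t i) (L (x i) (c i)) (ht i)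
  have h3 := (hL1 i).2.trans hκ₁2
  have h4 := dist_triangle_right (e.ρ (t i) (L (x i) (c i))) (x i) (L (x i) (c i))
  linarith

end TCE
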